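import Pool.Agent.Lib.MP_2add11_gt.FG.Tree

/-!
Every torsion of a two-dimensional pair comes from the algebraic model.
-/

noncomputable section

namespace Pool.Agent.Lib.MP_2add11_gt.FG

open Set Metric Topology Filter Classical

theorem neg_mem_alg {G : Type} [Group G] [Finite G] {τ : Wh G} (h : τ ∈ WhStar G) :
    -τ ∈ Alg (whInv G) := by
  obtain ⟨P, n, a, b, Φ, M, D, hΦ, hI, hD, hδ, rfl⟩ := h
  have := pair_t2 P
  have := pair_lpc P
  have := P.simply
  have := cell_fin P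
  have := Fintype.ofFinite (P.Cell 0)
  have := Fintype.ofFinite (P.Cell 2)
  have A0 := pair_att P (k := 0) (by
    rw [sk_zero]; exact P.L.closed.preimage P.cover.continuous) (hΦ 0)
  have A1' := pair_att P A0.closed' (hΦ 1)
  have A2 := pair_att P A1'.closed' (hΦ 2)
  have A1 : Att (fun (s : G × Fin n) v => s.1 • Φ 1 (a s.2) v) (sk P 1) (sk P 2) :=
    A1'.reindex ((Equiv.refl G).prodCongr a)
  have hp : ∀ (g g' : G) v v', g • Φ 0 v 0 = g' • Φ 0 v' 0 → g = g' ∧ v = v' := fun g g' v v' e =>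
    Prod.mk.inj (A0.inj (g, v) (g', v') 0 b0 0 b0 e).1
  have hZ : ∀ y ∈ sk P 1, y ∈ P.p ⁻¹' P.L ∨ ∃ v, ∃ g : G, y = g • Φ 0 v 0 := fun y hy => by
    rcases (A0.mem y).1 hy with h | ⟨⟨g, v⟩, w, -, rfl⟩
    exacts [.inl (sk_zero P ▸ h), .inr ⟨v, g, by rw [Subsingleton.elim w 0]⟩]
  obtain rfl : D = fun j v => dl (fun v => Φ 0 v 0) (Φ 1 (a j) 1) v -
      dl (fun v => Φ 0 v 0) (Φ 1 (a j) (-1)) v := by
    ext j v g
    rw [hD, MonoidAlgebra.coeff_sub, Finsupp.sub_apply, dl_coeff hp, dl_coeff hp]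
  have hl : ∀ e, Continuous fun t => Φ 2 e (sqLoop t) := fun e =>
    (hΦ 2 e).1.comp_continuous continuous_sqLoop sqLoop_mem
  have hB : ∀ e t, Φ 2 e (sqLoop t) ∈ sk P 2 := fun e t => by
    simpa using A2.bd (1, e) _ (sq_norm t)
  choose w hw using fun e => A1.exists_word (hl e) (hB e)
  have h1 : ∀ e j, fox j (w e) = M.val (b (.inl e)) j := fun e j => by
    ext g
    have := A1.word_inc (hl e) (hB e) (hw e) (s := (g, j)) (hI e j g)
    refine Multiplicative.ofAdd.injective (((fox_coeff j g (w e)).symm.trans ?_).trans this)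
    refine congrArg (fun γ => FreeGroup.lift γ (w e)) (funext fun x => congrArg _ ?_)
    split_ifs <;> rfl
  have h2 : ∀ e v, ∑ j, M.val (b (.inl e)) j * (dl (fun v => Φ 0 v 0) (Φ 1 (a j) 1) v -
      dl (fun v => Φ 0 v 0) (Φ 1 (a j) (-1)) v) = 0 := fun e v => by
    ext g
    have := A1.word_cob (c := fun y => Multiplicative.ofAdd (if y = g • Φ 0 v 0 then (1 : ℤ) else 0))
      (fun x _ => ?_) (hl e) (hB e) (by rw [sq_04]) (hw e)
    · simp only [← h1]
      refine Multiplicative.ofAdd.injective ((fox_sum _ g (w e)).symm.trans (Eq.trans ?_ this))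
      congr 2
      funext x
      rw [MonoidAlgebra.coeff_sub, Finsupp.sub_apply, dl_coeff hp, dl_coeff hp, ← ofAdd_neg,
        ← ofAdd_add, neg_add_eq_sub]
      simp only [mul_smul, eq_inv_smul_iff]
    · by_cases e : x = g • Φ 0 v 0
      · subst e
        filter_upwards [A0.ev_cell (g, v) b0 (P := fun _ => True) (.of_forall fun _ => trivial)]
        rintro _ ⟨u, -, rfl, -⟩
        rw [Subsingleton.elim u 0]
      · filter_upwards [nhdsWithin_le_nhds (eventually_ne_nhds e)] with y hy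
        rw [if_neg hy, if_neg e]
  obtain ⟨T, rk, hT⟩ := exists_tree hp (fun j => Φ 1 (a j) (-1)) (fun j => Φ 1 (a j) 1) _ hδ
  let r : Fin n → FreeGroup (G × Fin n) := fun i => (b.symm i).elim w fun v => .of (1, T v)
  have h3 := (whInv G).resplit b M h2 hδ T (M' := jac r) (fun e j => by simp [jac, r, h1])
    (fun v j => by simp [jac, r, fox, MonoidAlgebra.one_def]) (tree_unit hp hT)
  refine ⟨Fin n, inferInstance, inferInstance, r, fun Γ _ γ hγ => ?_, h3.1, by
    rw [h3.2, whInv_val, neg_neg]⟩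
  obtain ⟨F, hF⟩ := A2.extend (sk_three P) (A1.coc γ) fun s =>
    (A1.word_shift (MulAction.injective s.1) ((Equiv.mulLeft s.1).prodCongr (.refl _))
      (fun _ _ => (mul_smul ..).symm) (hw s.2)).kill (by
        rw [lift_map]
        simpa [r, Prod.map] using hγ s.1 (b (.inl s.2)))
  obtain ⟨y0, hy0⟩ : (P.p ⁻¹' P.L).Nonempty := P.connected.nonempty.preimage P.cover.surjective
  have hs : P.p ⁻¹' P.L ⊆ sk P 1 := sk_zero P ▸ A0.sub
  have h4 : ∀ y ∈ P.p ⁻¹' P.L, F y = F y0 := fun y hy => const_of_lc (pair_pre P)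
    (fun x hx => (A1.lc hF (hs hx)).filter_mono (nhdsWithin_mono _ hs)) hy hy0
  have h5 : ∀ k v, rk v = k → ∀ g : G, F (g • Φ 0 v 0) = F y0 := fun k => by
    induction k using Nat.strong_induction_on with
    | _ k ih =>
      rintro v rfl g
      obtain ⟨y, y', h6, ⟨g', h7⟩, h8⟩ := hT v
      have h9 := A1.edge_val hF (g * g'⁻¹, T v)
      rw [show γ (g * g'⁻¹, T v) = 1 by simpa [r] using hγ (g * g'⁻¹) (b (.inr v)), eq_comm,
        inv_mul_eq_one] at h9
      have e1 : F ((g * g'⁻¹) • y) = F ((g * g'⁻¹) • y') ∧ y' ∈ sk P 1 := by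
        rcases h6 with ⟨rfl, rfl⟩ | ⟨rfl, rfl⟩
        · exact ⟨h9.symm, by simpa using A1.bd (1, T v) (-1) (by simp)⟩
        · exact ⟨h9, by simpa using A1.bd (1, T v) 1 (by simp)⟩
      rw [h7, smul_smul, inv_mul_cancel_right] at e1
      rw [e1.1]
      rcases hZ _ e1.2 with h | ⟨v', g'', rfl⟩
      · exact h4 _ (by rwa [mem_preimage, P.cover.map_smul])
      · rw [smul_smul]
        exact ih _ (h8 v' ⟨g'', rfl⟩) v' rfl _
  have h6 : ∀ y ∈ sk P 1, F y = F y0 := fun y hy => by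
    rcases hZ y hy with h | ⟨v, g, rfl⟩
    exacts [h4 y h, h5 _ v rfl g]
  intro s
  rw [A1.edge_val hF s, h6 _ (A1.bd s _ (by simp)), h6 _ (A1.bd s _ (by simp)), inv_mul_cancel]

end Pool.Agent.Lib.MP_2add11_gt.FG
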