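import Pool.Agent.Lib.MP_2add11_gt.FG.Rep

/-!
Artin induction for additive invariants of invertible matrices over an integral group ring.
-/

noncomputable section

namespace Pool.Agent.Lib.MP_2add11_gt.FG

open Matrix MonoidAlgebra Subgroup

variable {G C W n : Type} [Group G] [Group C] [AddCommGroup W] [Fintype n] [DecidableEq n]
variable {m m' : Type} [Fintype m] [DecidableEq m] [Fintype m'] [DecidableEq m']

def th (ρ : G →* Matrix m m ℤ) : G →* Matrix m m (MonoidAlgebra ℤ G) where
  toFun g := .of fun i j => .single g (ρ g i j)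
  map_one' := by
    ext1 i j
    by_cases h : i = j <;> simp [h, ← MonoidAlgebra.one_def, Matrix.one_apply]
  map_mul' g h := by
    ext1 i j
    simp only [map_mul, Matrix.mul_apply, Matrix.of_apply, single_mul_single]
    exact map_sum (singleAddHom (g * h)) _ _

def theta (ρ : G →* Matrix m m ℤ) : MonoidAlgebra ℤ G →+* Matrix m m (MonoidAlgebra ℤ G) :=
  (MonoidAlgebra.lift ℤ _ G (th ρ)).toRingHom

theorem theta_single (ρ : G →* Matrix m m ℤ) (g : G) (a : ℤ) (i j : m) :
    theta ρ (.single g a) i j = .single g (a * ρ g i j) := by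
  simp [theta, th]

theorem theta_inter {ρ : G →* Matrix m m ℤ} {σ : G →* Matrix m' m' ℤ} {X : Matrix m' m ℤ}
    (h : ∀ g, X * ρ g = σ g * X) (a : MonoidAlgebra ℤ G) (k : m') (l : m) :
    ∑ j, (X k j : MonoidAlgebra ℤ G) * theta ρ a j l =
      ∑ j, theta σ a k j * (X j l : MonoidAlgebra ℤ G) := by
  induction a using MonoidAlgebra.induction_linear with
  | zero => simp
  | add a b ha hb => simp [mul_add, add_mul, Finset.sum_add_distrib, ha, hb]
  | single g a =>
    have := congrArg (fun Z => singleAddHom g (a * Z k l)) (h g)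
    simp only [Matrix.mul_apply, Finset.mul_sum, map_sum, singleAddHom_apply] at this
    simp only [theta_single, intCast_def, single_mul_single, one_mul, mul_one, Int.cast_id]
    simpa only [mul_left_comm, mul_assoc] using this

theorem theta_char [Finite G] (c : Inv (MonoidAlgebra ℤ G) W) {A : Matrix n n (MonoidAlgebra ℤ G)}
    (hA : IsUnit A) (ρ : G →* Matrix m m ℤ) (σ : G →* Matrix m' m' ℤ)
    (h : ∀ g, (ρ g).trace = (σ g).trace) :
    IsOfFinAddOrder ((c.comap (theta ρ)).c A - (c.comap (theta σ)).c A) := by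
  obtain ⟨X, Y, d, hd, hXY, hYX, hX⟩ := int_equiv ρ σ h
  let big : ∀ {a b : Type}, Matrix a b ℤ → Matrix (n × a) (n × b) (MonoidAlgebra ℤ G) :=
    fun Z => .of fun p q => if p.1 = q.1 then (Z p.2 q.2 : MonoidAlgebra ℤ G) else 0
  have hb : ∀ {a b : Type} [Fintype a] [DecidableEq a] [Fintype b] (Z : Matrix a b ℤ)
      (Z' : Matrix b a ℤ), Z * Z' = (d : ℤ) • 1 → big Z * big Z' = (d : ℤ) • 1 := fun Z Z' e => by
    ext1 ⟨i, k⟩ ⟨j, l⟩
    have := congrArg (fun Z => ((Z k l : ℤ) : MonoidAlgebra ℤ G)) e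
    simp only [Matrix.mul_apply, Int.cast_sum, Int.cast_mul] at this
    by_cases h : i = j
    · simp [big, Matrix.mul_apply, Fintype.sum_prod_type, h, this, Matrix.one_apply, Matrix.smul_apply]
    · simp [big, Matrix.mul_apply, Fintype.sum_prod_type, h, Matrix.smul_apply]
  obtain ⟨P, hP⟩ := isUnit_cm (theta ρ) hA
  obtain ⟨Q, hQ⟩ := isUnit_cm (theta σ) hA
  have h1 : big X * P.val = Q.val * big X := by
    ext1 ⟨i, k⟩ ⟨j, l⟩
    simpa [big, Matrix.mul_apply, Fintype.sum_prod_type, hP, hQ] using theta_inter hX (A i j) k l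
  have h2 : ∀ k : ℕ, big X * P.val ^ k = Q.val ^ k * big X := fun k => by
    induction k with
    | zero => simp
    | succ k ih => rw [pow_succ, pow_succ, ← Matrix.mul_assoc, ih, Matrix.mul_assoc, h1,
        Matrix.mul_assoc]
  obtain ⟨i, k, hk, w, hw⟩ := pigeon hd fun i (p : (n × m) × (n × m)) => (P.val ^ i) p.1 p.2
  have h3 : P.val ^ k = 1 + (d : ℤ) • ((P ^ i)⁻¹.val * .of fun p q => w (p, q)) := by
    have : P.val ^ (i + k) = P.val ^ i + (d : ℤ) • .of fun p q => w (p, q) := by
      ext1 p q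
      exact hw (p, q)
    rw [← Matrix.mul_smul, ← (P ^ i).inv_mul, ← Matrix.mul_add, Units.val_pow_eq_pow_val, ← this,
      pow_add, ← Units.val_pow_eq_pow_val P i, Units.inv_mul_cancel_left]
  generalize (P ^ i)⁻¹.val * (Matrix.of fun p q => w (p, q)) = Z at h3
  have h4 : 1 + big X * Z * big Y = Q.val ^ k := by
    have : (d : ℤ) • (1 + big X * Z * big Y) = (d : ℤ) • Q.val ^ k := by
      have e := congrArg (· * big Y) (h2 k)
      simp only [h3, Matrix.mul_add, Matrix.add_mul, Matrix.mul_one, Matrix.mul_assoc _ (big X),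
        hb X Y hXY, Matrix.mul_smul, Matrix.smul_mul] at e
      rw [smul_add, e]
    ext p q g
    have := congrArg (fun Z => (Z p q).coeff g) this
    simp only [Matrix.smul_apply, coeff_smul_apply, smul_eq_mul] at this
    exact mul_left_cancel₀ (by exact_mod_cast hd.ne') this
  refine isOfFinAddOrder_iff_nsmul_eq_zero.2 ⟨k, hk, ?_⟩
  change k • (c.c (comp _ _ _ _ _ _) - c.c (comp _ _ _ _ _ _)) = 0
  rw [← hP, ← hQ, nsmul_sub, ← c.pow P.isUnit, ← c.pow Q.isUnit, ← h4, h3,
    ← c.one_add_swap (h4 ▸ Q.isUnit.pow k), ← Matrix.mul_assoc, hb Y X hYX, Matrix.smul_mul,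
    Matrix.one_mul, sub_self]

def addR (ρ : G →* Matrix m m ℤ) (σ : G →* Matrix m' m' ℤ) : G →* Matrix (m ⊕ m') (m ⊕ m') ℤ where
  toFun g := fromBlocks (ρ g) 0 0 (σ g)
  map_one' := by simp
  map_mul' g h := by simp [fromBlocks_multiply]

theorem trace_addR (ρ : G →* Matrix m m ℤ) (σ : G →* Matrix m' m' ℤ) (g : G) :
    (addR ρ σ g).trace = (ρ g).trace + (σ g).trace := by
  simp [addR, trace]

theorem comap_addR (ρ : G →* Matrix m m ℤ) (σ : G →* Matrix m' m' ℤ)
    (c : Inv (MonoidAlgebra ℤ G) W) {A : Matrix n n (MonoidAlgebra ℤ G)} (hA : IsUnit A) :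
    (c.comap (theta (addR ρ σ))).c A = (c.comap (theta ρ)).c A + (c.comap (theta σ)).c A := by
  have e : ∀ a, theta (addR ρ σ) a = fromBlocks (theta ρ a) 0 0 (theta σ a) := fun a => by
    induction a using MonoidAlgebra.induction_linear with
    | zero => simp
    | add a b ha hb => simp [ha, hb, fromBlocks_add]
    | single g a =>
      ext1 (i | i) (j | j) <;> simp [theta_single, addR]
  refine Eq.trans ?_ ((c.sub (Equiv.prodSumDistrib n m m')
    (isUnit_blocks (isUnit_cm _ hA) (isUnit_cm _ hA))).trans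
    (c.blocks (isUnit_cm _ hA) (isUnit_cm _ hA)))
  refine congrArg c.c ?_
  ext1 ⟨i, k | k⟩ ⟨j, l | l⟩ <;> simp [e]

structure IRep (G : Type) [Group G] : Type 1 where
  m : Type
  [ft : Fintype m]
  [de : DecidableEq m]
  ρ : G →* Matrix m m ℤ

attribute [instance] IRep.ft IRep.de

def vir (c : Inv (MonoidAlgebra ℤ G) W) {A : Matrix n n (MonoidAlgebra ℤ G)} (hA : IsUnit A) :
    AddSubgroup ((G → ℤ) × W) where
  carrier := {p | ∃ r s : IRep G, (∀ g, p.1 g = (r.ρ g).trace - (s.ρ g).trace) ∧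
    p.2 = (c.comap (theta r.ρ)).c A - (c.comap (theta s.ρ)).c A}
  zero_mem' := ⟨⟨Unit, 1⟩, ⟨Unit, 1⟩, by simp, by simp⟩
  add_mem' := by
    rintro p q ⟨r, s, h1, h2⟩ ⟨r', s', h1', h2'⟩
    refine ⟨⟨_, addR r.ρ r'.ρ⟩, ⟨_, addR s.ρ s'.ρ⟩, fun g => ?_, ?_⟩
    · simp only [Prod.fst_add, Pi.add_apply, h1, h1', trace_addR]
      ring
    · simp only [Prod.snd_add, h2, h2', comap_addR _ _ c hA]
      abel
  neg_mem' := by
    rintro p ⟨r, s, h1, h2⟩
    exact ⟨s, r, fun g => by simp [h1], by simp [h2]⟩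

theorem mem_vir (c : Inv (MonoidAlgebra ℤ G) W) {A : Matrix n n (MonoidAlgebra ℤ G)}
    (hA : IsUnit A) (ρ : G →* Matrix m m ℤ) :
    (fun g => (ρ g).trace, (c.comap (theta ρ)).c A) ∈ vir c hA :=
  ⟨⟨_, addR ρ (1 : G →* Matrix Unit Unit ℤ)⟩, ⟨Unit, 1⟩, fun g => by simp [trace_addR],
    by simp [comap_addR _ _ c hA]⟩

/-- A homomorphism together with a right transversal of its image. -/
structure Tr (C G : Type) [Group C] [Group G] : Type 1 where
  i : C →* G
  κ : Type
  [ft : Fintype κ]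
  [de : DecidableEq κ]
  t : κ → G
  e : G ≃ C × κ
  he : ∀ x, e.symm x = i x.1 * t x.2

attribute [instance] Tr.ft Tr.de

namespace Tr

variable (T : Tr C G)

theorem spec (g : G) : T.i (T.e g).1 * T.t (T.e g).2 = g := by
  rw [← T.he, Equiv.symm_apply_apply]

theorem e_mul (k : T.κ) (g h : G) : T.e (T.t k * (g * h)) =
    ((T.e (T.t k * g)).1 * (T.e (T.t (T.e (T.t k * g)).2 * h)).1,
      (T.e (T.t (T.e (T.t k * g)).2 * h)).2) := by
  rw [← Equiv.eq_symm_apply, T.he, map_mul, mul_assoc, T.spec, ← mul_assoc (T.i _), T.spec,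
    mul_assoc]

theorem e_t (k : T.κ) : T.e (T.t k) = (1, k) := by
  rw [← Equiv.eq_symm_apply, T.he, map_one, one_mul]

def resM : G →* Matrix T.κ T.κ (MonoidAlgebra ℤ C) where
  toFun g := .of fun k l => if (T.e (T.t k * g)).2 = l then .single (T.e (T.t k * g)).1 1 else 0
  map_one' := by
    ext1 k l
    simp [T.e_t, Matrix.one_apply, MonoidAlgebra.one_def]
  map_mul' g h := by
    ext1 k l
    simp only [Matrix.mul_apply, Matrix.of_apply, ite_mul, zero_mul, Finset.sum_ite_eq,
      Finset.mem_univ, if_true, T.e_mul]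
    split_ifs <;> simp [single_mul_single]

def res : MonoidAlgebra ℤ G →+* Matrix T.κ T.κ (MonoidAlgebra ℤ C) :=
  (MonoidAlgebra.lift ℤ _ G T.resM).toRingHom

theorem res_single (g : G) (a : ℤ) (k l : T.κ) : T.res (.single g a) k l =
    if (T.e (T.t k * g)).2 = l then .single (T.e (T.t k * g)).1 a else 0 := by
  simp [res, resM]

def perm : G →* Matrix T.κ T.κ ℤ where
  toFun g := .of fun k l => if (T.e (T.t k * g)).2 = l then 1 else 0
  map_one' := by
    ext1 k l
    simp [T.e_t, Matrix.one_apply]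
  map_mul' g h := by
    ext1 k l
    simp only [Matrix.mul_apply, Matrix.of_apply, ite_mul, zero_mul, Finset.sum_ite_eq,
      Finset.mem_univ, if_true, T.e_mul, one_mul]

theorem res_theta (a : MonoidAlgebra ℤ G) (k l : T.κ) : mapDomainRingHom ℤ T.i (T.res a k l) =
    .single (T.t k) 1 * theta T.perm a k l * .single (T.t l)⁻¹ 1 := by
  induction a using MonoidAlgebra.induction_linear with
  | zero => simp
  | add a b ha hb =>
    rw [map_add, map_add, Matrix.add_apply, Matrix.add_apply, map_add, ha, hb, mul_add, add_mul]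
  | single g a =>
    rw [res_single, theta_single]
    by_cases h : (T.e (T.t k * g)).2 = l
    · have := T.spec (T.t k * g)
      rw [h, ← eq_mul_inv_iff_mul_eq] at this
      simp [perm, h, single_mul_single, this]
    · simp [perm, h]

theorem comap_res (c : Inv (MonoidAlgebra ℤ G) W) {A : Matrix n n (MonoidAlgebra ℤ G)}
    (hA : IsUnit A) : (c.comap (theta T.perm)).c A =
      ((c.pull (mapDomainRingHom ℤ T.i)).comap T.res).c A := by
  refine (c.conj (P := diagonal fun p : n × T.κ => .single (T.t p.2) 1)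
    (Q := diagonal fun p : n × T.κ => .single (T.t p.2)⁻¹ 1) (isUnit_cm _ hA) ?_ ?_).symm.trans
    (congrArg c.c ?_)
  · simp [single_mul_single, ← MonoidAlgebra.one_def]
  · simp [single_mul_single, ← MonoidAlgebra.one_def]
  · ext1 p q
    rw [mul_diagonal, diagonal_mul]
    exact (T.res_theta _ _ _).symm

theorem trace_perm [Fintype G] [Fintype C] (h : G) (hi : T.i.range = zpowers h) (g : G) :
    ∑ x, ind h (x * g * x⁻¹) = Fintype.card C * (T.perm g).trace := by
  rw [← T.e.symm.sum_comp, Fintype.sum_prod_type, Finset.sum_eq_card_nsmul (b := (T.perm g).trace),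
    Finset.card_univ, nsmul_eq_mul]
  intro a _
  refine Finset.sum_congr rfl fun k _ => ?_
  simp only [ind, perm, diag_apply, MonoidHom.coe_mk, OneHom.coe_mk, Matrix.of_apply]
  refine if_congr ?_ rfl rfl
  rw [← hi, T.he]
  refine ⟨?_, fun e => ?_⟩
  · rintro ⟨z, hb⟩
    have : T.t k * g = T.e.symm (a⁻¹ * z * a, k) := by
      simp only [T.he, map_mul, map_inv, hb]
      group
    rw [this, Equiv.apply_symm_apply]
  · have := T.spec (T.t k * g)
    rw [e] at this
    refine ⟨a * (T.e (T.t k * g)).1 * a⁻¹, ?_⟩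
    rw [map_mul, map_mul, map_inv, eq_mul_inv_iff_mul_eq.2 this]
    group

end Tr

theorem exists_tr [Finite G] (H : Subgroup G) : ∃ T : Tr H G, T.i = H.subtype := by
  classical
  obtain ⟨S, hS, -⟩ := H.exists_isComplement_right 1
  have := Fintype.ofFinite S
  exact ⟨⟨H.subtype, S, Subtype.val, hS.equiv, fun _ => rfl⟩, rfl⟩

theorem artin [Finite G] (c : Inv (MonoidAlgebra ℤ G) W) {A : Matrix n n (MonoidAlgebra ℤ G)}
    (hA : IsUnit A) (U : AddSubgroup W) (hU : ∀ (h : G) (T : Tr (zpowers h) G),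
      ((c.pull (mapDomainRingHom ℤ T.i)).comap T.res).c A ∈ U) :
    ∃ k : ℕ, 0 < k ∧ k • c.c A ∈ U := by
  have := Fintype.ofFinite G
  let Φ : (G → ℤ) →+ (G → ℤ) :=
    { toFun := fun f g => ∑ x, f (x * g * x⁻¹)
      map_zero' := by ext; simp
      map_add' := fun f f' => by ext; simp [Finset.sum_add_distrib] }
  have h1 := span_ind (((vir c hA ⊓ U.comap (AddMonoidHom.snd _ _)).map
    (AddMonoidHom.fst _ _)).comap Φ) (fun h => ?_) 1 fun _ _ _ => rfl
  · obtain ⟨⟨f, u⟩, ⟨h2, h3⟩, h4⟩ := h1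
    have h5 := (vir c hA).nsmul_mem (mem_vir c hA (m := Unit) 1) (Fintype.card G)
    obtain ⟨r, s, h6, h7⟩ := (vir c hA).sub_mem h5 h2
    have h8 := theta_char c hA r.ρ s.ρ fun g => by
      have := h6 g
      rw [show f = Φ 1 from h4] at this
      simp [Φ] at this
      linarith
    rw [← h7] at h8
    obtain ⟨k, hk, h8⟩ := isOfFinAddOrder_iff_nsmul_eq_zero.1 h8
    have h9 : (c.comap (theta (m := Unit) 1)).c A = c.c A := by
      rw [← c.sub (Equiv.prodUnique n Unit) hA]
      refine congrArg c.c ?_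
      ext1 p q
      have : ∀ a : MonoidAlgebra ℤ G, theta (m := Unit) 1 a p.2 q.2 = a := fun a => by
        induction a using MonoidAlgebra.induction_linear with
        | zero => simp
        | add a b ha hb => rw [map_add, Matrix.add_apply, ha, hb]
        | single g a => simp [theta_single]
      exact this _
    refine ⟨k * Fintype.card G, mul_pos hk Fintype.card_pos, ?_⟩
    simp only [Prod.smul_mk, Prod.mk_sub_mk, h9, nsmul_sub, sub_eq_zero] at h8
    rw [mul_nsmul', h8]
    exact U.nsmul_mem h3 k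
  · obtain ⟨T, hT⟩ := exists_tr (zpowers h)
    have := Fintype.ofFinite (zpowers h)
    refine ⟨Fintype.card (zpowers h) • _, ⟨(vir c hA).nsmul_mem (mem_vir c hA T.perm) _,
      U.nsmul_mem (T.comap_res c hA ▸ hU h T) _⟩, ?_⟩
    ext g
    simpa [Φ] using (T.trace_perm h (by simp [hT]) g).symm

end Pool.Agent.Lib.MP_2add11_gt.FG
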