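import Pool.Agent.Lib.MP_2add11_gt.FG.Space

/-!
A finite union of discs whose boundaries contract in the union is simply connected.
-/

noncomputable section

namespace Pool.Agent.Lib.MP_2add11_gt.FG

open unitInterval Set Metric Topology

theorem simply_of_delta {X ι : Type} [TopologicalSpace X] (x0 : X) (U : ι → Set X)
    (ho : ∀ i, IsOpen (U i)) (hc : ∀ x, ∃ i, x ∈ U i) (δ : ∀ z, Path x0 z)
    (hδ : ∀ i a b (γ : Path a b), (∀ s, γ s ∈ U i) → ((δ a).trans γ).Homotopic (δ b)) :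
    SimplyConnectedSpace X := by
  have key : ∀ {a b : X} (γ : Path a b), ((δ a).trans γ).Homotopic (δ b) := fun {a b} γ => by
    obtain ⟨t, t0, tm, ⟨n, tn⟩, ht⟩ := exists_monotone_Icc_subset_open_cover_unitInterval
      (c := fun i => γ ⁻¹' U i) (fun i => (ho i).preimage γ.continuous)
      fun s _ => mem_iUnion.2 (hc (γ s))
    have h : ∀ k, ((δ (γ 0)).trans (γ.subpath 0 (t k))).Homotopic (δ (γ (t k))) := fun k => by
      induction k with
      | zero =>
        rw [t0, Path.subpath_self]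
        exact Path.Homotopic.trans_refl _
      | succ k ih =>
        obtain ⟨i, hi⟩ := ht k
        have hle : t k ≤ t (k + 1) := tm k.le_succ
        refine ((Path.Homotopic.refl _).hcomp
          ⟨(Path.Homotopy.subpathTransSubpath γ 0 (t k) (t (k + 1))).symm⟩).trans ?_
        refine (Path.Homotopic.trans_assoc _ _ _).symm.trans ?_
        refine (ih.hcomp (Path.Homotopic.refl _)).trans (hδ i _ _ _ fun s => ?_)
        have hu : γ.subpath (t k) (t (k + 1)) s ∈ range (γ.subpath (t k) (t (k + 1))) :=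
          mem_range_self s
        rw [Path.range_subpath_of_le _ _ _ hle] at hu
        obtain ⟨u, hu, e⟩ := hu
        exact e ▸ hi hu
    have h1 := h n
    rw [tn n le_rfl, Path.subpath_zero_one] at h1
    have aux : ∀ (a' b' : X) (e1 : a' = a) (e2 : b' = b),
        ((δ a').trans (γ.cast e1 e2)).Homotopic (δ b') → ((δ a).trans γ).Homotopic (δ b) := by
      rintro _ _ rfl rfl h
      exact h
    exact aux _ _ _ _ h1
  rw [simply_connected_iff_paths_homotopic']
  refine ⟨⟨⟨x0⟩, fun a b => ⟨(δ a).symm.trans (δ b)⟩⟩, fun {a b} p q => ?_⟩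
  have h : ∀ p : Path a b, p.Homotopic ((δ a).symm.trans (δ b)) := fun p =>
    (Path.Homotopic.refl_trans p).symm.trans
      ((((Path.Homotopic.symm_trans (δ a)).symm.hcomp (Path.Homotopic.refl p)).trans
        (Path.Homotopic.trans_assoc _ _ _)).trans ((Path.Homotopic.refl _).hcomp (key p)))
  exact (h p).trans (h q).symm

theorem tri_homotopic {Z Y : Type} [TopologicalSpace Z] [TopologicalSpace Y]
    [SimplyConnectedSpace Z] {f : Z → Y} (hf : Continuous f) {a b c : Y} (p : Path a b)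
    (q : Path b c) (r : Path a c) {a' b' c' : Z} (p' : Path a' b') (q' : Path b' c')
    (r' : Path a' c') (hp : ∀ s, p s = f (p' s)) (hq : ∀ s, q s = f (q' s))
    (hr : ∀ s, r s = f (r' s)) : (p.trans q).Homotopic r := by
  obtain rfl : a = f a' := by simpa using hp 0
  obtain rfl : b = f b' := by simpa using hp 1
  obtain rfl : c = f c' := by simpa using hq 1
  obtain rfl : p = p'.map hf := Path.ext (funext hp)
  obtain rfl : q = q'.map hf := Path.ext (funext hq)
  obtain rfl : r = r'.map hf := Path.ext (funext hr)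
  rw [← Path.map_trans]
  exact (SimplyConnectedSpace.paths_homotopic _ _).map ⟨f, hf⟩

theorem radial_def {Y ι : Type} [TopologicalSpace Y] [T2Space Y] [Finite ι]
    (φ : ι → Sq → Y) (hφ : ∀ i, Continuous (φ i)) (hs : ∀ y, ∃ i z, φ i z = y)
    (hi : ∀ i j z z', ‖z.1‖ ≠ 1 → φ i z = φ j z' → i = j ∧ z = z') {W : Set Y} (hWo : IsOpen W)
    (hW : ∀ i z, φ i z ∈ W ↔ z.1 ≠ 0) : ∃ G : C(I × W, Y), (∀ y, G (0, y) = y) ∧
      ∀ y, ∃ i z, ‖z.1‖ = 1 ∧ φ i z = G (1, y) := by
  let : TopologicalSpace ι := ⊥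
  have : DiscreteTopology ι := ⟨rfl⟩
  let q : ι × Sq → Y := fun x => φ x.1 x.2
  have hqc : Continuous q := continuous_prod_of_discrete_left.2 hφ
  have hq : IsQuotientMap q := hqc.isClosedMap.isQuotientMap hqc fun y => by
    obtain ⟨i, z, e⟩ := hs y
    exact ⟨(i, z), e⟩
  obtain ⟨G, hG⟩ := descend (hq.restrictPreimage_isOpen hWo)
    (fun x : I × (q ⁻¹' W) => q (x.2.1.1, radial x.1 x.2.1.2 ((hW _ _).1 x.2.2)))
    (hqc.comp (Continuous.prodMk (by fun_prop) (Continuous.subtype_mk (Continuous.smul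
      (Continuous.add (by fun_prop) (Continuous.div (by fun_prop) (by fun_prop)
        fun x => norm_ne_zero_iff.2 ((hW _ _).1 x.2.2))) (by fun_prop)) _))) (by
      rintro s ⟨⟨i, z⟩, hz⟩ ⟨⟨j, z'⟩, hz'⟩ e
      have e' : φ i z = φ j z' := congrArg Subtype.val e
      by_cases h1 : ‖z.1‖ = 1
      · by_cases h2 : ‖z'.1‖ = 1
        · simp only [radial_sphere _ _ _ h1, radial_sphere _ _ _ h2, q, e']
        · obtain ⟨rfl, rfl⟩ := hi _ _ _ _ h2 e'.symm
          rfl
      · obtain ⟨rfl, rfl⟩ := hi _ _ _ _ h1 e'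
        rfl)
  refine ⟨G, fun y => ?_, fun y => ?_⟩
  · obtain ⟨a, rfl⟩ := (hq.restrictPreimage_isOpen hWo).surjective y
    rw [hG]
    simp only [radial_zero]
    rfl
  · obtain ⟨a, rfl⟩ := (hq.restrictPreimage_isOpen hWo).surjective y
    rw [hG]
    exact ⟨_, _, radial_one _ ((hW _ _).1 a.2), rfl⟩

theorem punct_joined {z0 z : Sq} (h0 : ‖z0.1‖ = 1) (hz : z.1 ≠ 0) :
    JoinedIn {w : Sq | w.1 ≠ 0} z0 z := by
  have h1 : IsPathConnected {w : Sq | ‖w.1‖ = 1} := by
    have := (isPathConnected_sphere (E := Fin 2 → ℝ) (by simp) 0 zero_le_one).preimage_coe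
      (sphere_subset_closedBall)
    simpa only [preimage, mem_sphere_zero_iff_norm] using this
  refine ((h1.joinedIn _ h0 _ (radial_one z hz)).mono (V := {w : Sq | w.1 ≠ 0})
    fun w hw e => ?_).trans (JoinedIn.symm
    ⟨⟨⟨fun s => radial s z hz, Continuous.subtype_mk (by fun_prop) _⟩, radial_zero z hz, rfl⟩,
      fun s => radial_ne s z hz⟩)
  simp [e] at hw

theorem simply_of_cells {Y ι : Type} [TopologicalSpace Y] [T2Space Y] [Finite ι]
    (φ : ι → Sq → Y) (hφ : ∀ i, Continuous (φ i)) (hs : ∀ y, ∃ i z, φ i z = y)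
    (hi : ∀ i j z z', ‖z.1‖ ≠ 1 → φ i z = φ j z' → i = j ∧ z = z') (y0 : Y) {B : Set Y}
    (hB : ∀ i z, ‖z.1‖ = 1 → φ i z ∈ B) (C : C(I × B, Y)) (C0 : ∀ y, C (0, y) = y)
    (C1 : ∀ y, C (1, y) = y0) : SimplyConnectedSpace Y := by
  let o : Sq := ⟨0, by simp⟩
  let W : Set Y := (range fun i => φ i o)ᶜ
  have hWo : IsOpen W := (finite_range _).isClosed.isOpen_compl
  have hW : ∀ i z, φ i z ∈ W ↔ z.1 ≠ 0 := fun i z => by
    refine not_congr ⟨?_, fun h => ⟨i, congrArg _ (Subtype.ext h.symm)⟩⟩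
    rintro ⟨j, e⟩
    rw [← (hi j i o z (by simp [o]) e).2]
  obtain ⟨G, G0, G1⟩ := radial_def φ hφ hs hi hWo hW
  have hGB : ∀ y, G (1, y) ∈ B := fun y => by
    obtain ⟨i, z, h, e⟩ := G1 y
    exact e ▸ hB i z h
  obtain ⟨N⟩ : (⟨Subtype.val, continuous_subtype_val⟩ : C(W, Y)).Homotopic (.const _ y0) :=
    ContinuousMap.Homotopic.trans (g := ⟨fun y => G (1, y), by fun_prop⟩) ⟨⟨G, G0, fun _ => rfl⟩⟩
      ⟨⟨⟨fun x => C (x.1, ⟨_, hGB x.2⟩), by fun_prop⟩, fun y => C0 _, fun y => C1 _⟩⟩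
  let δ0 : ∀ y : W, Path y0 y := fun y =>
    ⟨⟨fun s => N (σ s, y), by fun_prop⟩, by simp, by simp⟩
  have h0 : ∀ (a b : W) (γ : Path a.1 b.1), (∀ s, γ s ∈ W) →
      ((δ0 a).trans γ).Homotopic (δ0 b) := fun a b γ hγ => by
    let f : ℝ × ℝ → Y := fun x => N (projIcc 0 1 zero_le_one x.1,
      ⟨γ (projIcc 0 1 zero_le_one x.2), hγ _⟩)
    have hf : Continuous f := N.continuous.comp (Continuous.prodMk
      (continuous_projIcc.comp continuous_fst) (Continuous.subtype_mk
        (γ.continuous.comp (continuous_projIcc.comp continuous_snd)) _))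
    have e : ∀ (s u : I), f (s, u) = N (s, ⟨γ u, hγ u⟩) := fun s u => by simp [f]
    let D : Path y0 b.1 := ⟨⟨fun s => N (σ s, ⟨γ s, hγ s⟩), by fun_prop⟩, by simp, by simp⟩
    let D' : Path ((1 : ℝ), (0 : ℝ)) (0, 1) := ⟨⟨fun s => (σ s, s), by fun_prop⟩, by simp, by simp⟩
    refine (tri_homotopic hf _ _ D (b' := (0, 0)) ⟨⟨fun s => (σ s, (0 : I)), by fun_prop⟩, by simp,
      by simp⟩ ⟨⟨fun s => ((0 : I), s), by fun_prop⟩, by simp, by simp⟩ D' (fun s => ?_)
      (fun s => ?_) fun s => (e _ _).symm).trans ((tri_homotopic hf (Path.refl _) (δ0 b) D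
        (b' := (1, 1)) ⟨⟨fun s => ((1 : I), s), by fun_prop⟩, by simp, by simp⟩
        ⟨⟨fun s => (σ s, (1 : I)), by fun_prop⟩, by simp, by simp⟩ D' (fun s => ?_) (fun s => ?_)
        fun s => (e _ _).symm).symm.trans (Path.Homotopic.refl_trans _))
    · exact Eq.trans (by simp [δ0]) (e _ _).symm
    · exact Eq.trans (by simp) (e _ _).symm
    · exact Eq.trans (by simp) (e _ _).symm
    · exact Eq.trans (by simp [δ0]) (e _ _).symm
  have : ContractibleSpace Sq := (convex_closedBall _ _).contractibleSpace (by simp)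
  let z0 : Sq := ⟨1, by simp⟩
  have hz0 : ‖z0.1‖ = 1 := by simp [z0]
  have hz0' : ∀ i, φ i z0 ∈ W := fun i => (hW _ _).2 fun e => by simp [e] at hz0
  let δ1 : ∀ i z, Path y0 (φ i z) := fun i z =>
    (δ0 ⟨_, hz0' i⟩).trans ((PathConnectedSpace.somePath z0 z).map (hφ i))
  have hex : ∀ y, ∃ d : Path y0 y, (∀ h : y ∈ W, d.Homotopic (δ0 ⟨y, h⟩)) ∧
      ∀ i z (e : y = φ i z), ‖z.1‖ ≠ 1 → d.Homotopic ((δ1 i z).cast rfl e) := fun y => by
    obtain ⟨i, z, rfl⟩ := hs y
    by_cases h : ‖z.1‖ = 1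
    · refine ⟨δ0 ⟨_, (hW _ _).2 fun e => by simp [e] at h⟩, fun _ => .refl _, fun j z' e h' => ?_⟩
      exact absurd ((hi _ _ _ _ h' e.symm).2 ▸ h) h'
    · refine ⟨δ1 i z, fun hz => ?_, fun j z' e _ => ?_⟩
      · obtain ⟨p, hp⟩ := punct_joined hz0 ((hW _ _).1 hz)
        exact ((Path.Homotopic.refl _).hcomp ((SimplyConnectedSpace.paths_homotopic _ p).map
          ⟨_, hφ i⟩)).trans (h0 ⟨_, hz0' i⟩ ⟨_, hz⟩ _ fun s => (hW _ _).2 (hp s))
      · obtain ⟨rfl, rfl⟩ := hi _ _ _ _ h e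
        exact .refl _
  choose δ hδ0 hδ1 using hex
  let U : Option ι → Set Y := fun k => k.elim W fun i =>
    ((⋃ j ∈ ({i}ᶜ : Set ι), range (φ j)) ∪ φ i '' {z | ‖z.1‖ = 1})ᶜ
  have hU : ∀ i y, y ∈ U (some i) → ∃ z : Sq, ‖z.1‖ ≠ 1 ∧ φ i z = y := fun i y hy => by
    obtain ⟨j, z, rfl⟩ := hs y
    obtain rfl : j = i := by
      by_contra h
      exact hy (.inl (mem_biUnion h ⟨z, rfl⟩))
    exact ⟨z, fun h => hy (.inr ⟨z, h, rfl⟩), rfl⟩
  refine simply_of_delta y0 U (fun k => ?_) (fun y => ?_) δ fun k a b γ hγ => ?_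
  · cases k with
    | none => exact hWo
    | some i => exact (((toFinite _).isClosed_biUnion fun j _ => (isCompact_range (hφ j)).isClosed).union
        ((isClosed_eq (by fun_prop) continuous_const).isCompact.image (hφ i)).isClosed).isOpen_compl
  · by_cases h : y ∈ W
    · exact ⟨none, h⟩
    · obtain ⟨i, rfl⟩ := not_not.1 h
      refine ⟨some i, ?_⟩
      rintro (h | ⟨z, hz, e⟩)
      · obtain ⟨j, hj, z, e⟩ := mem_iUnion₂.1 h
        exact hj (hi _ _ _ _ (by simp [o]) e.symm).1.symm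
      · rw [← (hi _ _ _ _ (by simp [o]) e.symm).2] at hz
        simp [o] at hz
  · cases k with
    | none =>
      have ha : a ∈ W := γ.source ▸ hγ 0
      have hb : b ∈ W := γ.target ▸ hγ 1
      exact (((hδ0 a ha).hcomp (.refl _)).trans (h0 ⟨a, ha⟩ ⟨b, hb⟩ γ hγ)).trans (hδ0 b hb).symm
    | some i =>
      choose g g1 g2 using fun s => hU i _ (hγ s)
      have hg : Continuous g := by
        classical
        let inv : Y → (Fin 2 → ℝ) := fun y =>
          if h : ∃ z : Sq, ‖z.1‖ ≠ 1 ∧ φ i z = y then h.choose.1 else 0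
        have hinv : ∀ z : Sq, ‖z.1‖ ≠ 1 → inv (φ i z) = z.1 := fun z hz => by
          have h : ∃ z' : Sq, ‖z'.1‖ ≠ 1 ∧ φ i z' = φ i z := ⟨z, hz, rfl⟩
          simp only [inv, dif_pos h]
          rw [(hi _ _ _ _ h.choose_spec.1 h.choose_spec.2).2]
        have h1 := continuousOn_inv_cell (f := fun v => φ i (prj v)) (g := inv)
          ((hφ i).comp continuous_prj).continuousOn (fun z hz z' hz' e => by
            have := (hi _ _ _ _ (ball2 hz) e).2
            rw [prj_of_mem (ball_subset_closedBall hz), prj_of_mem hz'] at this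
            exact congrArg Subtype.val this)
          fun z hz => by rw [hinv _ (ball2 hz), prj_of_mem (ball_subset_closedBall hz)]
        refine continuous_induced_rng.2 ((h1.comp_continuous γ.continuous fun s =>
          ⟨(g s).1, mem_ball_zero_iff.2 (lt_of_le_of_ne (mem_closedBall_zero_iff.1 (g s).2)
            (g1 s)), by simp only [prj_val, g2]⟩).congr fun s => ?_)
        simp only [Function.comp_apply, ← g2, hinv _ (g1 s)]
      obtain rfl : a = φ i (g 0) := by rw [g2, γ.source]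
      have eb : b = φ i (g 1) := by rw [g2, γ.target]
      refine (((hδ1 _ i _ rfl (g1 0)).hcomp (.refl _)).trans ?_).trans (hδ1 _ i _ eb (g1 1)).symm
      refine (Path.Homotopic.trans_assoc _ _ _).trans ((Path.Homotopic.refl _).hcomp
        (tri_homotopic (hφ i) _ γ (((PathConnectedSpace.somePath z0 (g 1)).map (hφ i)).cast rfl eb)
          (PathConnectedSpace.somePath z0 (g 0)) ⟨⟨g, hg⟩, rfl, rfl⟩
          (PathConnectedSpace.somePath z0 (g 1)) (fun _ => rfl) (fun s => (g2 s).symm)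
          fun _ => rfl))

end Pool.Agent.Lib.MP_2add11_gt.FG
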