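import Pool.Agent.Lib.MP_2add11_gt.FG.SK

/-!
Integral group rings of finite abelian groups: the norm over all automorphisms is torsion.
-/

noncomputable section

namespace Pool.Agent.Lib.MP_2add11_gt.FG

open Matrix MonoidAlgebra Subgroup

theorem pigeon {G ι : Type} [Finite G] [Finite ι] {d : ℕ} (hd : 0 < d)
    (x : ℕ → ι → MonoidAlgebra ℤ G) :
    ∃ i k : ℕ, 0 < k ∧ ∃ w : ι → MonoidAlgebra ℤ G, ∀ l, x (i + k) l = x i l + (d : ℤ) • w l := by
  have : NeZero d := ⟨hd.ne'⟩
  have key : ∀ i j, i < j → ((fun l g => ((x i l).coeff g : ZMod d)) =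
      fun l g => ((x j l).coeff g : ZMod d)) → ∃ i k : ℕ, 0 < k ∧ ∃ w : ι → MonoidAlgebra ℤ G,
        ∀ l, x (i + k) l = x i l + (d : ℤ) • w l := fun i j hij h => by
    have h1 : ∀ l g, ∃ q : ℤ, (x j l).coeff g - (x i l).coeff g = d * q := fun l g =>
      (ZMod.intCast_eq_intCast_iff_dvd_sub _ _ _).1 (congrFun (congrFun h l) g)
    choose q hq using h1
    refine ⟨i, j - i, by omega, fun l => .ofCoeff (Finsupp.equivFunOnFinite.symm (q l)),
      fun l => ?_⟩
    rw [show i + (j - i) = j by omega]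
    ext g
    have := hq l g
    simp
    linarith
  obtain ⟨i, j, hij, h⟩ := Finite.exists_ne_map_eq_of_infinite
    fun (i : ℕ) (l : ι) (g : G) => ((x i l).coeff g : ZMod d)
  rcases lt_or_gt_of_ne hij with h' | h'
  exacts [key i j h' h, key j i h' h.symm]

open Classical in
def ind {G : Type} [Group G] (h : G) : G → ℤ := fun x => if x ∈ zpowers h then 1 else 0

theorem span_ind {G : Type} [Group G] [Finite G] (S : AddSubgroup (G → ℤ)) (hS : ∀ h, ind h ∈ S)
    (f : G → ℤ) (hf : ∀ x y, zpowers x = zpowers y → f x = f y) : f ∈ S := by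
  classical
  have key : ∀ (k : ℕ) (Z : Set G), Z.ncard = k → (∀ h ∈ Z, ∀ x ∈ zpowers h, x ∈ Z) →
      ∀ f : G → ℤ, (∀ x y, zpowers x = zpowers y → f x = f y) → (∀ x, x ∉ Z → f x = 0) →
      f ∈ S := by
    intro k
    induction k using Nat.strong_induction_on with
    | _ k ih =>
    intro Z hk hZ f hf h0
    rcases Z.eq_empty_or_nonempty with rfl | hne
    · rw [show f = 0 from funext fun x => h0 x (Set.notMem_empty x)]
      exact S.zero_mem
    obtain ⟨g, hg, hmax⟩ := Set.Finite.exists_maximalFor zpowers Z (Set.toFinite Z) hne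
    have := ih _ (hk ▸ Set.ncard_lt_ncard (s := {x ∈ Z | zpowers x ≠ zpowers g}) (t := Z)
      ⟨fun x hx => hx.1, fun h => (h hg).2 rfl⟩ (Set.toFinite Z)) {x ∈ Z | zpowers x ≠ zpowers g} rfl
      (fun h hh x hx => ⟨hZ h hh.1 x hx, fun e => hh.2 (by
        have h1 : zpowers g ≤ zpowers h := e ▸ zpowers_le_of_mem hx
        exact le_antisymm (hmax hh.1 h1) h1)⟩) (f - f g • ind g)
      (fun x y e => by
        have : x ∈ zpowers g ↔ y ∈ zpowers g := by
          rw [← zpowers_le, ← zpowers_le, e]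
        simp [ind, hf x y e, this])
      (fun x hx => by
        by_cases h1 : x ∈ Z
        · have e : zpowers x = zpowers g := by
            by_contra h2
            exact hx ⟨h1, h2⟩
          simp [ind, hf x g e, ← e]
        · have : x ∉ zpowers g := fun h2 => h1 (hZ g hg x h2)
          simp [ind, h0 x h1, this])
    simpa using S.add_mem this (S.zsmul_mem (hS g) (f g))
  exact key _ Set.univ rfl (fun _ _ _ _ => trivial) f hf fun x hx => absurd trivial hx

variable {C : Type} [CommGroup C] [Finite C]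

theorem sep {x : MonoidAlgebra ℤ C}
    (h : ∀ (K : Type) [Field K] [CharZero K] (χ : MonoidAlgebra ℤ C →+* K), χ x = 0) : x = 0 := by
  have : NeZero (Nat.card C : ℚ) := ⟨Nat.cast_ne_zero.2 Nat.card_pos.ne'⟩
  have h1 : mapRingHom C (Int.castRingHom ℚ) x = 0 := by
    refine (IsSemisimpleRing.jacobson_eq_bot (R := MonoidAlgebra ℚ C)).le
      (Ideal.mem_sInf.2 fun {I} hI => ?_)
    have : I.IsMaximal := ⟨hI⟩
    let _ := Ideal.Quotient.field I
    have : CharZero (MonoidAlgebra ℚ C ⧸ I) := algebraRat.charZero _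
    exact Ideal.Quotient.eq_zero_iff_mem.1
      (h _ ((Ideal.Quotient.mk I).comp (mapRingHom C (Int.castRingHom ℚ))))
  ext g
  simpa using congrArg (fun y => y.coeff g) h1

theorem good_of {a r : MonoidAlgebra ℤ C} {d : ℤ} (hd : d ≠ 0) (h : a * r = (d * d : ℤ)) :
    Good a := fun z => by
  obtain ⟨i, k, hk, w, hw⟩ := pigeon (d := (d * d).toNat) (by
    have := mul_self_pos.2 hd
    omega) fun i (_ : Unit) => z ^ i
  refine ⟨i, k, hk, r * w (), ?_⟩
  have := hw ()
  rw [Int.toNat_of_nonneg (mul_self_nonneg d), zsmul_eq_mul, ← h, pow_add] at this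
  linear_combination this

theorem exists_good (a y : MonoidAlgebra ℤ C) : ∃ t, Good (a + t * (1 - a * y)) := by
  obtain ⟨p, hp, h0⟩ : IsIntegral ℤ a := Algebra.IsIntegral.isIntegral a
  obtain ⟨g, h1, h2⟩ := Polynomial.exists_eq_pow_rootMultiplicity_mul_and_not_dvd p hp.ne_zero 0
  rw [map_zero, sub_zero] at h1 h2
  rw [Polynomial.X_dvd_iff] at h2
  have h3 : a * Polynomial.aeval a g = 0 := sep fun K _ _ χ => by
    have : χ (Polynomial.aeval a p) = 0 := by rw [Polynomial.aeval_def, h0, map_zero]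
    rw [h1, map_mul, map_pow, Polynomial.aeval_X, map_mul, map_pow, mul_eq_zero] at this
    rw [map_mul]
    rcases this with h | h
    · rw [eq_zero_of_pow_eq_zero h, zero_mul]
    · rw [h, mul_zero]
  have e1 := congrArg (Polynomial.aeval a) g.X_mul_divX_add
  have e2 := congrArg (Polynomial.aeval a) g.divX.X_mul_divX_add
  simp only [map_add, map_mul, Polynomial.aeval_X, eq_intCast, map_intCast] at e1 e2
  refine ⟨Polynomial.aeval a g, good_of h2
    (r := -(g.coeff 0 : ℤ) * Polynomial.aeval a g.divX +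
      (1 + (g.divX.coeff 0 : ℤ)) * Polynomial.aeval a g) ?_⟩
  push_cast
  generalize Polynomial.aeval a g = G, Polynomial.aeval a g.divX = H,
    Polynomial.aeval a g.divX.divX = H', (g.coeff 0 : MonoidAlgebra ℤ C) = g0,
    (g.divX.coeff 0 : MonoidAlgebra ℤ C) = h0 at *
  linear_combination (g0 * y * H - y * (1 + h0) * G + (1 + h0) + (1 + h0) * H - g0 * H') * h3 -
    (g0 + (1 + h0) * G) * e1 + g0 * G * e2

theorem exists_aut {x y : C} (h : zpowers x = zpowers y) : ∃ σ : MulAut C, σ x = y := by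
  obtain ⟨b, rfl⟩ := (mem_powers_iff_mem_zpowers.2 (h ▸ mem_zpowers y : y ∈ zpowers x))
  have hb : b.Coprime (orderOf x) := mem_zpowers_pow_iff.1 (h ▸ mem_zpowers x)
  have : NeZero (Nat.card C) := ⟨Nat.card_pos.ne'⟩
  obtain ⟨u, hu⟩ := ZMod.unitsMap_surjective (orderOf_dvd_natCard x) (ZMod.unitOfCoprime b hb)
  have h1 := ZMod.val_coe_unit_coprime u
  refine ⟨MulEquiv.ofBijective (powMonoidHom (u : ZMod (Nat.card C)).val)
    (powCoprime h1.symm).bijective, ?_⟩
  change x ^ _ = x ^ b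
  rw [pow_eq_pow_iff_modEq, ← ZMod.natCast_eq_natCast_iff]
  have := congrArg Units.val hu
  simpa [ZMod.unitsMap_val] using this

def sg (σ : MulAut C) : MonoidAlgebra ℤ C →+* MonoidAlgebra ℤ C := mapDomainRingHom ℤ σ.toMonoidHom

omit [Finite C] in
theorem sg_mul (σ τ : MulAut C) (x : MonoidAlgebra ℤ C) : sg (σ * τ) x = sg σ (sg τ x) := by
  rw [← RingHom.comp_apply, sg, sg, sg, ← mapDomainRingHom_comp]
  rfl

theorem int_of_inv {x : MonoidAlgebra ℤ C} (h : ∀ σ : MulAut C, sg σ x = x)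
    {K : Type} [Field K] [CharZero K] (χ : MonoidAlgebra ℤ C →+* K) : ∃ m : ℤ, χ x = m := by
  classical
  have := Fintype.ofFinite C
  let T : (C → ℤ) →+ K :=
    { toFun := fun f => ∑ g, f g * χ (single g 1)
      map_zero' := by simp
      map_add' := fun f f' => by simp [add_mul, Finset.sum_add_distrib] }
  have h1 := span_ind ((AddMonoidHom.range (Int.castAddHom K)).comap T) (fun g => ?_) x.coeff
    (fun a b e => ?_)
  · obtain ⟨m, hm⟩ := h1
    refine ⟨m, Eq.trans ?_ hm.symm⟩
    conv_lhs => rw [← x.sum_coeff_single, Finsupp.sum_fintype _ _ (by simp), map_sum]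
    refine Finset.sum_congr rfl fun g _ => ?_
    rw [← zsmul_eq_mul, ← map_zsmul, MonoidAlgebra.smul_single, smul_eq_mul, mul_one]
  · have e : T (ind g) = ∑ a : zpowers g, ((χ.toMonoidHom.comp (of ℤ C)).comp
        (zpowers g).subtype) a := by
      simp only [T, ind, AddMonoidHom.coe_mk, ZeroHom.coe_mk, Int.cast_ite, Int.cast_one,
        Int.cast_zero, ite_mul, one_mul, zero_mul]
      rw [← Finset.sum_filter]
      exact Finset.sum_subtype _ (by simp) fun a => χ (single a 1)
    rw [sum_hom_units] at e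
    refine ⟨if (χ.toMonoidHom.comp (of ℤ C)).comp (zpowers g).subtype = 1 then
      Fintype.card (zpowers g) else 0, ?_⟩
    rw [e]
    split_ifs <;> simp
  · obtain ⟨σ, rfl⟩ := exists_aut e
    conv_rhs => rw [← h σ]
    exact (Finsupp.mapDomain_apply σ.injective _ _).symm

theorem norm_sq [Fintype (MulAut C)] (u : (MonoidAlgebra ℤ C)ˣ) :
    (∏ σ : MulAut C, sg σ u.val) ^ 2 = 1 := by
  have hinv : ∀ (x : MonoidAlgebra ℤ C) (τ : MulAut C),
      sg τ (∏ σ : MulAut C, sg σ x) =
        ∏ σ : MulAut C, sg σ x := fun x τ => by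
    rw [map_prod]
    exact Fintype.prod_equiv (Equiv.mulLeft τ) _ _ fun σ => (sg_mul _ _ _).symm
  refine sub_eq_zero.1 (sep fun K _ _ χ => ?_)
  obtain ⟨a, ha⟩ := int_of_inv (hinv u.val) χ
  obtain ⟨b, hb⟩ := int_of_inv (hinv u⁻¹.val) χ
  have : a * b = 1 := by
    have : ((a * b : ℤ) : K) = 1 := by
      push_cast
      rw [← ha, ← hb, ← map_mul, ← Finset.prod_mul_distrib]
      simp [← map_mul]
    exact_mod_cast this
  rw [map_sub, map_pow, ha, map_one]
  rcases Int.eq_one_or_neg_one_of_mul_eq_one this with rfl | rfl <;> simp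

theorem norm_tors [Fintype (MulAut C)] {W n : Type} [AddCommGroup W] [Fintype n] [DecidableEq n]
    (c : Inv (MonoidAlgebra ℤ C) W) {A : Matrix n n (MonoidAlgebra ℤ C)} (hA : IsUnit A) :
    IsOfFinAddOrder (∑ σ : MulAut C, c.c (A.map (sg σ))) := by
  obtain ⟨u, hu⟩ := (isUnit_iff_isUnit_det _).1 hA
  have h1 : ∀ s : Finset (MulAut C), ∑ σ ∈ s, c.c (u1 (sg σ u.val)) =
      c.c (u1 (∏ σ ∈ s, sg σ u.val)) := fun s => by
    classical
    induction s using Finset.induction_on with
    | empty =>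
      rw [Finset.sum_empty, Finset.prod_empty, ← c.one (n := Unit)]
      congr 1
    | insert a s ha ih =>
      rw [Finset.sum_insert ha, Finset.prod_insert ha, ih, Inv.u1_mul, c.mul
        (Inv.isUnit_u1 (u.isUnit.map _)) (Inv.isUnit_u1 (IsUnit.prod_iff.2 fun σ _ => u.isUnit.map _))]
  have h2 : IsOfFinAddOrder (c.c (u1 (∏ σ : MulAut C, sg σ u.val))) := by
    have hN : IsUnit (u1 (∏ σ : MulAut C, sg σ u.val)) :=
      Inv.isUnit_u1 (IsUnit.prod_iff.2 fun σ _ => u.isUnit.map _)
    refine isOfFinAddOrder_iff_nsmul_eq_zero.2 ⟨2, two_pos, ?_⟩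
    rw [two_nsmul, ← c.mul hN hN, ← Inv.u1_mul, ← sq, norm_sq, ← c.one (n := Unit)]
    congr 1
  have h3 : ∑ σ : MulAut C, (c.c (A.map (sg σ)) -
      c.c (u1 (sg σ u.val))) ∈ AddCommGroup.torsion W :=
    AddSubgroup.sum_mem _ fun σ _ => by
      have := c.sk' exists_good (hA.map (sg σ).mapMatrix)
      rw [← RingHom.map_det, ← hu] at this
      exact this
  rw [Finset.sum_sub_distrib, h1] at h3
  have := (AddCommGroup.torsion W).add_mem h3 h2
  rw [sub_add_cancel] at this
  exact this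

end Pool.Agent.Lib.MP_2add11_gt.FG
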