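import Pool.Agent.Lib.MP_2add11_gt.FG.Twist

/-!
Local systems given by jump functions, and their extension over attached cells.
-/

noncomputable section

namespace Pool.Agent.Lib.MP_2add11_gt.FG

open Set Metric Topology Filter Classical

variable {E X Γ Γ' S : Type} [TopologicalSpace E] [TopologicalSpace X] [Group Γ] [Group Γ']

def Coc (j : E → E → Γ) (Y : Set E) : Prop :=
  ∀ x ∈ Y, ∀ᶠ y in 𝓝[Y] x, ∀ᶠ z in 𝓝[Y] y, j x z = j x y * j y z

def Triv (j : E → E → Γ) (l : X → E) (A : Set X) (F : X → Γ) : Prop :=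
  ∀ x ∈ A, ∀ᶠ y in 𝓝[A] x, F y = F x * j (l x) (l y)

theorem exists_triv' [SimplyConnectedSpace X] [LocallyPathConnectedSpace X] (j : X → X → Γ)
    (h : ∀ x, ∀ᶠ y in 𝓝 x, ∀ᶠ z in 𝓝 y, j x z = j x y * j y z) :
    ∃ F : X → Γ, ∀ x, ∀ᶠ y in 𝓝 x, F y = F x * j x y := by
  obtain ⟨F, hF⟩ := exists_triv
    (fun x => {y | ∀ᶠ y' in 𝓝 y, ∀ᶠ z in 𝓝 y', j x z = j x y' * j y' z})
    (fun _ => isOpen_setOfPred_eventually_nhds) (fun x => ⟨x, h x⟩) (fun a y => (j a y)⁻¹)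
    fun a b x ha hb => by
      filter_upwards [ha.self_of_nhds, hb.self_of_nhds] with y h1 h2
      rw [h1, h2]
      group
  refine ⟨F, fun x => (hF x x (h x)).mono fun y hy => ?_⟩
  have h1 : j x x = 1 := left_eq_mul.1 (h x).self_of_nhds.self_of_nhds
  rw [h1, inv_one, mul_one] at hy
  rw [← hy, inv_mul_cancel_right]

theorem Coc.exists [SimplyConnectedSpace X] [LocallyPathConnectedSpace X] {j : E → E → Γ}
    {Y : Set E} (h : Coc j Y) {l : X → E} (hl : Continuous l) (hY : ∀ x, l x ∈ Y) (A : Set X) :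
    ∃ F, Triv j l A F := by
  have ht : ∀ x, Tendsto l (𝓝 x) (𝓝[Y] l x) := fun x =>
    tendsto_nhdsWithin_iff.2 ⟨hl.tendsto x, .of_forall hY⟩
  obtain ⟨F, hF⟩ := exists_triv' (fun x y => j (l x) (l y)) fun x =>
    ((ht x).eventually (h _ (hY x))).mono fun y hy => (ht y).eventually hy
  exact ⟨F, fun x _ => (hF x).filter_mono nhdsWithin_le_nhds⟩

omit [TopologicalSpace E] in
theorem Triv.unique {j : E → E → Γ} {l : X → E} {A : Set X} (hA : IsPreconnected A) {F F' : X → Γ}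
    (h : Triv j l A F) (h' : Triv j l A F') {a b : X} (ha : a ∈ A) (hb : b ∈ A) :
    (F a)⁻¹ * F b = (F' a)⁻¹ * F' b := by
  have := const_of_lc hA (f := fun x => F' x * (F x)⁻¹) (fun x hx => by
    filter_upwards [h x hx, h' x hx] with y h1 h2
    rw [h1, h2]
    group) ha hb
  rw [eq_inv_mul_iff_mul_eq, ← mul_assoc, this, inv_mul_cancel_right]

omit [TopologicalSpace E] in
theorem Triv.map {j : E → E → Γ} {j' : E → E → Γ'} {l l' : X → E} {A : Set X} {F : X → Γ}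
    (h : Triv j l A F) (f : Γ →* Γ') (hj : ∀ x y, f (j (l x) (l y)) = j' (l' x) (l' y)) :
    Triv j' l' A fun x => f (F x) := fun x hx =>
  (h x hx).mono fun y hy => by simp only [hy, map_mul, hj]

omit [TopologicalSpace E] in
theorem Triv.comp {X' : Type} [TopologicalSpace X'] {j : E → E → Γ} {l : X → E} {A : Set X}
    {F : X → Γ} (h : Triv j l A F) {m : X' → X} {A' : Set X'} (hm : ContinuousOn m A')
    (hA : MapsTo m A' A) : Triv j (fun x => l (m x)) A' fun x => F (m x) := fun x hx =>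
  ((hm x hx).tendsto_nhdsWithin hA).eventually (h _ (hA hx))

omit [TopologicalSpace E] in
theorem Triv.descend {j : E → E → Γ} {l : (Fin 2 → ℝ) → E} {F : ℝ → Γ}
    (h : Triv j (fun t => l (sqLoop t)) (Icc 0 4) F) (h04 : F 0 = F 4) :
    ∃ F', Triv j l (sphere 0 1) F' := by
  have : ∀ z : Fin 2 → ℝ, ∃ a : Γ, ∀ t ∈ Icc (0 : ℝ) 4, sqLoop t = z → F t = a := fun z => by
    by_cases hz : ∃ t ∈ Icc (0 : ℝ) 4, sqLoop t = z
    · obtain ⟨s, hs, rfl⟩ := hz
      refine ⟨F s, fun t ht e => ?_⟩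
      rcases sq_inj ht hs e with rfl | ⟨rfl, rfl⟩ | ⟨rfl, rfl⟩
      exacts [rfl, h04, h04.symm]
    · exact ⟨1, fun t ht e => absurd ⟨t, ht, e⟩ hz⟩
  choose F' hF using this
  refine ⟨F', fun z _ => ?_⟩
  have := ev_image (P := fun t => F t = F' z * j (l z) (l (sqLoop t))) isCompact_Icc
    continuous_sqLoop.continuousOn (x := z) fun t ht e => by
      rw [← hF z t ht e, ← e]
      exact h t ht
  filter_upwards [nhdsWithin_le_nhds this, self_mem_nhdsWithin] with y h1 h2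
  obtain ⟨t, ht, rfl⟩ := sq_surj (mem_sphere_zero_iff_norm.1 h2)
  rw [← hF _ t ht rfl, h1 t ht rfl]

structure Att {d : ℕ} (φ : S → (Fin d → ℝ) → E) (A B : Set E) : Prop where
  closed : IsClosed A
  cont : ∀ s, ContinuousOn (φ s) (closedBall 0 1)
  inj : ∀ s s', ∀ v ∈ ball 0 1, ∀ v' ∈ ball 0 1, φ s v = φ s' v' → s = s' ∧ v = v'
  nmem : ∀ s, ∀ v ∈ ball 0 1, φ s v ∉ A
  bd : ∀ s v, ‖v‖ = 1 → φ s v ∈ A
  mem : ∀ y, y ∈ B ↔ y ∈ A ∨ ∃ s, ∃ v ∈ ball 0 1, φ s v = y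

namespace Att

variable {d : ℕ} {φ : S → (Fin d → ℝ) → E} {A B : Set E} (h : Att φ A B)
include h

theorem sub : A ⊆ B := fun y hy => (h.mem y).2 (.inl hy)

theorem cases (s : S) {v : Fin d → ℝ} (hv : v ∈ closedBall 0 1) :
    v ∈ ball 0 1 ∨ ‖v‖ = 1 ∧ φ s v ∈ A := by
  rcases (mem_closedBall_zero_iff.1 hv).lt_or_eq with h1 | h1
  exacts [.inl (mem_ball_zero_iff.2 h1), .inr ⟨h1, h.bd s v h1⟩]

theorem cell_mem (s : S) {v : Fin d → ℝ} (hv : v ∈ closedBall 0 1) : φ s v ∈ B := by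
  rcases h.cases s hv with h1 | h1
  exacts [(h.mem _).2 (.inr ⟨s, v, h1, rfl⟩), h.sub h1.2]

theorem inj' {s s' : S} {v v' : Fin d → ℝ} (hv : v ∈ ball 0 1) (hv' : v' ∈ closedBall 0 1)
    (e : φ s' v' = φ s v) : s' = s ∧ v' = v := by
  rcases h.cases s' hv' with h1 | h1
  exacts [h.inj _ _ _ h1 _ hv e, absurd (e ▸ h1.2) (h.nmem s v hv)]

theorem reindex {S' : Type} (a : S' ≃ S) : Att (fun s => φ (a s)) A B where
  closed := h.closed
  cont _ := h.cont _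
  inj _ _ v hv v' hv' e := (h.inj _ _ v hv v' hv' e).imp_left a.injective.eq_iff.1
  nmem _ := h.nmem _
  bd _ := h.bd _
  mem y := by rw [h.mem, a.exists_congr_left]; simp

variable [Finite S] [T2Space E]

theorem closed' : IsClosed B := by
  have : B = A ∪ ⋃ s, φ s '' closedBall 0 1 := by
    refine Subset.antisymm (fun y hy => ?_) (union_subset h.sub (iUnion_subset ?_))
    · rcases (h.mem y).1 hy with h1 | ⟨s, v, hv, rfl⟩
      exacts [.inl h1, .inr (mem_iUnion.2 ⟨s, v, ball_subset_closedBall hv, rfl⟩)]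
    · rintro s _ ⟨v, hv, rfl⟩
      exact h.cell_mem s hv
  rw [this]
  exact h.closed.union (isClosed_iUnion_of_finite fun s =>
    ((isCompact_closedBall _ _).image_of_continuousOn (h.cont s)).isClosed)

theorem ev {x : E} {P : E → Prop} (h1 : x ∈ A → ∀ᶠ y in 𝓝[A] x, P y)
    (h2 : ∀ s, ∀ v ∈ closedBall 0 1, φ s v = x → ∀ᶠ w in 𝓝[closedBall 0 1] v, P (φ s w)) :
    ∀ᶠ y in 𝓝[B] x, P y := by
  have h3 : ∀ᶠ y in 𝓝 x, y ∈ A → P y := by
    by_cases hx : x ∈ A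
    · exact eventually_nhdsWithin_iff.1 (h1 hx)
    · filter_upwards [h.closed.isOpen_compl.mem_nhds hx] with y hy hy'
      exact absurd hy' hy
  have h4 := eventually_all.2 fun s => ev_image (isCompact_closedBall _ _) (h.cont s) (h2 s)
  filter_upwards [nhdsWithin_le_nhds h3, nhdsWithin_le_nhds h4, self_mem_nhdsWithin] with y a b c
  rcases (h.mem y).1 c with h5 | ⟨s, v, hv, rfl⟩
  exacts [a h5, b s v (ball_subset_closedBall hv) rfl]

theorem ev_cell (s : S) {v : Fin d → ℝ} (hv : v ∈ ball 0 1) {P : (Fin d → ℝ) → Prop}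
    (hP : ∀ᶠ w in 𝓝 v, P w) : ∀ᶠ y in 𝓝[B] φ s v, ∃ w ∈ ball 0 1, φ s w = y ∧ P w := by
  refine h.ev (fun h1 => absurd h1 (h.nmem s v hv)) fun s' v' hv' e => ?_
  obtain ⟨rfl, rfl⟩ := h.inj' hv hv' e
  filter_upwards [nhdsWithin_le_nhds hP, nhdsWithin_le_nhds (isOpen_ball.mem_nhds hv)] with w a b
  exact ⟨w, b, rfl, a⟩

omit h in
theorem ev_ne {x : E} (c : S → E) (hx : ∀ s, c s ≠ x) : ∀ᶠ y in 𝓝 x, ∀ s, c s ≠ y :=
  eventually_all.2 fun s => (eventually_ne_nhds (hx s).symm).mono fun _ => Ne.symm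

theorem extend [SimplyConnectedSpace E] [LocallyPathConnectedSpace E] (hB : ∀ y, y ∈ B)
    {j : E → E → Γ} (hj : Coc j A) (hF : ∀ s, ∃ F, Triv j (φ s) (sphere 0 1) F) :
    ∃ F, Triv j id A F := by
  choose F hF using hF
  let n : (Fin d → ℝ) → Fin d → ℝ := fun w => ‖w‖⁻¹ • w
  have n1 : ∀ w, w ≠ 0 → ‖n w‖ = 1 := fun w hw => norm_smul_inv_norm hw
  have n2 : ∀ w, w ≠ 0 → Tendsto n (𝓝 w) (𝓝[sphere 0 1] n w) := fun w hw =>
    tendsto_nhdsWithin_iff.2 ⟨(continuous_norm.continuousAt.inv₀ (norm_ne_zero_iff.2 hw)).smul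
      continuousAt_id, (eventually_ne_nhds hw).mono fun y hy => mem_sphere_zero_iff_norm.2 (n1 y hy)⟩
  have b0 : (0 : Fin d → ℝ) ∈ ball 0 1 := mem_ball_self one_pos
  have : ∀ y, ∃ p : E × Γ, (y ∈ A → p.1 = y) ∧ ∀ s, ∀ w ∈ ball 0 1, φ s w = y →
      p = (φ s (n w), F s (n w)) := fun y => by
    rcases (h.mem y).1 (hB y) with h1 | ⟨s, v, hv, rfl⟩
    · exact ⟨(y, 1), fun _ => rfl, fun s w hw e => absurd (e ▸ h1) (h.nmem s w hw)⟩
    · refine ⟨(φ s (n v), F s (n v)), fun h1 => absurd h1 (h.nmem s v hv), fun s' w hw e => ?_⟩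
      obtain ⟨rfl, rfl⟩ := h.inj _ _ _ hw _ hv e
      rfl
  choose ρ r1 r2 using this
  have r3 : ∀ s, ∀ w ∈ closedBall 0 1, (ρ (φ s w)).1 = φ s (n w) := fun s w hw => by
    rcases h.cases s hw with h1 | h1
    · rw [r2 _ s w h1 rfl]
    · rw [r1 _ h1.2]
      simp [n, h1.1]
  have hU : ∀ x, 𝓝[B] x = 𝓝 x := fun x => by rw [eq_univ_of_forall hB, nhdsWithin_univ]
  have r4 : ∀ x, (∀ s, φ s 0 ≠ x) → (ρ x).1 ∈ A := fun x hx => by
    rcases (h.mem x).1 (hB x) with h1 | ⟨s, v, hv, rfl⟩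
    · rwa [r1 _ h1]
    · rw [r2 _ s v hv rfl]
      exact h.bd s _ (n1 v fun e => hx s (by rw [e]))
  have r5 : ∀ x, (∀ s, φ s 0 ≠ x) → Tendsto (fun y => (ρ y).1) (𝓝 x) (𝓝[A] (ρ x).1) := by
    refine fun x hx => tendsto_nhdsWithin_iff.2 ⟨fun U hU' => ?_, (ev_ne _ hx).mono r4⟩
    rw [mem_map, ← hU]
    refine h.ev (fun h1 => ?_) fun s v hv e => ?_
    · rw [r1 _ h1] at hU'
      filter_upwards [nhdsWithin_le_nhds hU', self_mem_nhdsWithin] with y a b
      rwa [r1 _ b]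
    · subst e
      have h0 : v ≠ 0 := fun e => hx s (by rw [e])
      rw [r3 s v hv] at hU'
      filter_upwards [nhdsWithin_le_nhds (((h.cont s _ (sphere_subset_closedBall
        (mem_sphere_zero_iff_norm.2 (n1 v h0)))).mono sphere_subset_closedBall).tendsto.comp
        (n2 v h0) hU'), self_mem_nhdsWithin] with w a b
      rwa [r3 s w b]
  obtain ⟨G, hG⟩ := exists_triv' (fun x y => if ∀ s, φ s 0 ≠ x then j (ρ x).1 (ρ y).1 else
      if y = x then 1 else (ρ y).2) fun x => by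
    by_cases hx : ∀ s, φ s 0 ≠ x
    · filter_upwards [ev_ne _ hx, (r5 x hx).eventually (hj _ (r4 x hx))] with y a b
      simp only [if_pos hx, if_pos a]
      exact (r5 y a).eventually b
    · simp only [if_neg hx]
      obtain ⟨s, rfl⟩ : ∃ s, φ s 0 = x := by simpa using hx
      rw [← hU]
      filter_upwards [h.ev_cell s b0 (P := fun _ => True) (.of_forall fun _ => trivial)]
      rintro _ ⟨w, hw, rfl, -⟩
      by_cases h0 : w = 0
      · subst h0
        simp [if_neg hx]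
      have h1 : ∀ w ∈ ball 0 1, w ≠ 0 → ∀ s', φ s' 0 ≠ φ s w := fun w hw h0 s' e =>
        h0 (h.inj _ _ _ b0 _ hw e).2.symm
      rw [← hU]
      filter_upwards [h.ev_cell s hw ((eventually_ne_nhds h0).and ((n2 w h0).eventually
        (hF s _ (mem_sphere_zero_iff_norm.2 (n1 w h0)))))]
      rintro _ ⟨z, hz, rfl, z0, e⟩
      rw [if_neg (h1 z hz z0 s).symm, if_neg (h1 w hw h0 s).symm, if_pos (h1 w hw h0),
        r2 _ s z hz rfl, r2 _ s w hw rfl, e]
  refine ⟨G, fun x hx => ?_⟩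
  filter_upwards [nhdsWithin_le_nhds (hG x), self_mem_nhdsWithin] with y a b
  rw [a, if_pos fun s (e : φ s 0 = x) => h.nmem s 0 b0 (e ▸ hx), r1 _ hx, r1 _ b]
  rfl

end Att

end Pool.Agent.Lib.MP_2add11_gt.FG
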