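import Pool.Agent.Lib.MP_2add11_gt.FG.Conv

/-!
Units of the integral group rings of the cyclic groups of order at most six, and the rational
realisation of Whitehead torsions for finite groups whose elements have order at most six.
-/

noncomputable section

namespace Pool.Agent.Lib.MP_2add11_gt.FG

open Matrix MonoidAlgebra Subgroup

variable {W : Type} [AddCommGroup W]

theorem triv_of_sq {C : Type} [Group C] [Fintype C] {w : MonoidAlgebra ℤ C}
    (h : ∑ g, w.coeff g ^ 2 = 1) : ∃ g, w = .single g 1 ∨ w = -.single g 1 := by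
  classical
  obtain ⟨g, hg⟩ : ∃ g, w.coeff g ≠ 0 := by
    by_contra h'
    push Not at h'
    simp [h'] at h
  rw [← Finset.add_sum_erase _ _ (Finset.mem_univ g)] at h
  have h1 : 0 < w.coeff g ^ 2 := by positivity
  have h2 : 0 ≤ ∑ x ∈ Finset.univ.erase g, w.coeff x ^ 2 := Finset.sum_nonneg fun _ _ => sq_nonneg _
  have h3 : ∑ x ∈ Finset.univ.erase g, w.coeff x ^ 2 = 0 := by omega
  have h4 : w.coeff g ^ 2 = 1 := by omega
  have h5 : ∀ x, x ≠ g → w.coeff x = 0 := fun x hx => by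
    have := (Finset.sum_eq_zero_iff_of_nonneg fun _ _ => sq_nonneg _).1 h3 x (by simp [hx])
    exact pow_eq_zero_iff (two_ne_zero) |>.1 this
  refine ⟨g, (sq_eq_one_iff.1 h4).imp (fun e => ?_) fun e => ?_⟩
  · ext x
    by_cases hx : x = g
    · simp [hx, e]
    · simp [h5 x hx, Ne.symm hx]
  · ext x
    by_cases hx : x = g
    · simp [hx, e]
    · simp [h5 x hx, Ne.symm hx]

section comm

variable {C : Type} [CommGroup C]

theorem coeff_bar (w : MonoidAlgebra ℤ C) (g : C) :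
    (sg (MulEquiv.inv C) w).coeff g⁻¹ = w.coeff g :=
  Finsupp.mapDomain_apply (MulEquiv.inv C).injective _ _

theorem coeff_norm [Fintype C] (w : MonoidAlgebra ℤ C) :
    (w * sg (MulEquiv.inv C) w).coeff 1 = ∑ g, w.coeff g ^ 2 := by
  rw [coeff_mul_apply_left, Finsupp.sum_fintype _ _ (by simp)]
  exact Finset.sum_congr rfl fun g _ => by rw [mul_one, coeff_bar, sq]

theorem sg_one (x : MonoidAlgebra ℤ C) : sg 1 x = x :=
  congrArg (fun f : _ →+* _ => f x) (mapDomainRingHom_id (R := ℤ) (M := C))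

theorem unit_triv [Finite C] (h : ∀ σ : MulAut C, σ = 1 ∨ σ = MulEquiv.inv C)
    {v : MonoidAlgebra ℤ C} (hv : IsUnit v) : ∃ g, v = .single g 1 ∨ v = -.single g 1 := by
  classical
  have := Fintype.ofFinite C
  have hbb : ∀ x : MonoidAlgebra ℤ C, sg (MulEquiv.inv C) (sg (MulEquiv.inv C) x) = x := fun x => by
    rw [← sg_mul, show (MulEquiv.inv C : MulAut C) * MulEquiv.inv C = 1 from
      MulEquiv.ext fun y => inv_inv y, sg_one]
  have hb : ∀ x : MonoidAlgebra ℤ C, sg (MulEquiv.inv C) (x * sg (MulEquiv.inv C) x) =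
      x * sg (MulEquiv.inv C) x := fun x => by rw [map_mul, hbb, mul_comm]
  have hinv : ∀ (x : MonoidAlgebra ℤ C) (σ : MulAut C),
      sg σ (x * sg (MulEquiv.inv C) x) = x * sg (MulEquiv.inv C) x := fun x σ => by
    rcases h σ with rfl | rfl
    exacts [sg_one _, hb x]
  obtain ⟨u, rfl⟩ := hv
  have h2 : (u.val * sg (MulEquiv.inv C) u.val) ^ 2 = 1 := by
    refine sub_eq_zero.1 (sep fun K _ _ χ => ?_)
    obtain ⟨a, ha⟩ := int_of_inv (hinv u.val) χ
    obtain ⟨b, hb⟩ := int_of_inv (hinv u⁻¹.val) χ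
    have : a * b = 1 := by
      have : ((a * b : ℤ) : K) = 1 := by
        push_cast
        rw [← ha, ← hb, ← map_mul, mul_mul_mul_comm, ← map_mul]
        simp
      exact_mod_cast this
    rw [map_sub, map_pow, ha, map_one]
    rcases Int.eq_one_or_neg_one_of_mul_eq_one this with rfl | rfl <;> simp
  have h3 := coeff_norm (u.val * sg (MulEquiv.inv C) u.val)
  rw [hb, ← sq, h2, coeff_one_one] at h3
  obtain ⟨g, hg⟩ := triv_of_sq h3.symm
  have h4 := coeff_norm u.val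
  have h5 : 0 ≤ ∑ g, u.val.coeff g ^ 2 := Finset.sum_nonneg fun _ _ => sq_nonneg _
  have h6 : ∑ g, u.val.coeff g ^ 2 ≠ 0 := fun e => u.ne_zero (by
    ext x
    have := (Finset.sum_eq_zero_iff_of_nonneg fun _ _ => sq_nonneg _).1 e x (Finset.mem_univ _)
    simpa using this)
  refine triv_of_sq ?_
  rcases hg with hg | hg <;> rw [hg] at h4 <;>
    simp only [coeff_neg, coeff_single, Finsupp.coe_neg, Pi.neg_apply, Finsupp.single_apply] at h4 <;>
    split_ifs at h4 <;> omega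

theorem aut_small [Finite C] [IsCyclic C] (h6 : Nat.card C ≤ 6) (h5 : Nat.card C ≠ 5)
    (σ : MulAut C) : σ = 1 ∨ σ = MulEquiv.inv C := by
  obtain ⟨g, hg⟩ := IsCyclic.exists_generator (α := C)
  have ho := orderOf_eq_card_of_forall_mem_zpowers hg
  obtain ⟨k, hk⟩ := mem_powers_iff_mem_zpowers.2 (hg (σ g))
  have hk' : g ^ (k % orderOf g) = σ g := (pow_mod_orderOf g k).trans hk
  have hlt : k % orderOf g < orderOf g := Nat.mod_lt _ (orderOf_pos g)
  generalize k % orderOf g = j at hk' hlt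
  have h1 : orderOf g / Nat.gcd (orderOf g) j = orderOf g := by
    rw [← orderOf_pow, hk', MulEquiv.orderOf_eq]
  have hn := pow_orderOf_eq_one g
  rw [← ho] at h6 h5
  have h2 : j = 1 ∨ j + 1 = orderOf g := by
    generalize orderOf g = n at h1 hlt h5 h6
    interval_cases n <;> interval_cases j <;> simp_all
  have h3 : σ g = g ∨ σ g = g⁻¹ := h2.imp (fun e => by rw [← hk', e, pow_one]) fun e => by
    rw [← hk', eq_inv_iff_mul_eq_one, ← pow_succ, e, hn]
  refine h3.imp (fun e => MulEquiv.ext fun x => ?_) fun e => MulEquiv.ext fun x => ?_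
  · obtain ⟨z, rfl⟩ := hg x
    simp [e]
  · obtain ⟨z, rfl⟩ := hg x
    simp [e]

end comm

def E5 (a b c d e : ℤ) : ZG :=
  .single 1 a + .single gen b + .single (gen ^ 2) c + .single (gen ^ 3) d + .single (gen ^ 4) e

theorem E5_eq (a b c d e : ℤ) :
    E5 a b c d e = a + b * T + c * T ^ 2 + d * T ^ 3 + e * T ^ 4 := by
  have h : ∀ (k : ℕ) (a : ℤ), (MonoidAlgebra.single (gen ^ k) a : ZG) = a * T ^ k := fun k a => by
    rw [T_pow, ← zsmul_eq_mul, MonoidAlgebra.smul_single, smul_eq_mul, mul_one]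
  have h0 := h 0 a
  have h1 := h 1 b
  rw [pow_zero, pow_zero, mul_one] at h0
  rw [pow_one, pow_one] at h1
  rw [E5, h0, h1, h, h, h]

theorem E5_coeff (a b c d e : ℤ) : (E5 a b c d e).coeff 1 = a ∧ (E5 a b c d e).coeff gen = b ∧
    (E5 a b c d e).coeff (gen ^ 2) = c ∧ (E5 a b c d e).coeff (gen ^ 3) = d ∧
    (E5 a b c d e).coeff (gen ^ 4) = e := by
  simp only [E5, coeff_add, coeff_single, Finsupp.coe_add, Pi.add_apply, Finsupp.single_apply]
  refine ⟨?_, ?_, ?_, ?_, ?_⟩ <;> simp (decide := true)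

theorem g5_cases (g : G5) : g = 1 ∨ g = gen ∨ g = gen ^ 2 ∨ g = gen ^ 3 ∨ g = gen ^ 4 := by
  revert g
  decide

theorem E5_surj (v : ZG) : ∃ a b c d e, v = E5 a b c d e := by
  refine ⟨v.coeff 1, v.coeff gen, v.coeff (gen ^ 2), v.coeff (gen ^ 3), v.coeff (gen ^ 4), ?_⟩
  ext g
  obtain ⟨h0, h1, h2, h3, h4⟩ := E5_coeff (v.coeff 1) (v.coeff gen) (v.coeff (gen ^ 2))
    (v.coeff (gen ^ 3)) (v.coeff (gen ^ 4))
  rcases g5_cases g with rfl | rfl | rfl | rfl | rfl
  exacts [h0.symm, h1.symm, h2.symm, h3.symm, h4.symm]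

theorem E5_inj {a b c d e a' b' c' d' e' : ℤ} (h : E5 a b c d e = E5 a' b' c' d' e') :
    a = a' ∧ b = b' ∧ c = c' ∧ d = d' ∧ e = e' := by
  obtain ⟨h0, h1, h2, h3, h4⟩ := E5_coeff a b c d e
  obtain ⟨k0, k1, k2, k3, k4⟩ := E5_coeff a' b' c' d' e'
  rw [h] at h0 h1 h2 h3 h4
  exact ⟨h0.symm.trans k0, h1.symm.trans k1, h2.symm.trans k2, h3.symm.trans k3, h4.symm.trans k4⟩

theorem E5_mul (a b c d e a' b' c' d' e' : ℤ) : E5 a b c d e * E5 a' b' c' d' e' =
    E5 (a * a' + b * e' + c * d' + d * c' + e * b') (a * b' + b * a' + c * e' + d * d' + e * c')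
      (a * c' + b * b' + c * a' + d * e' + e * d') (a * d' + b * c' + c * b' + d * a' + e * e')
      (a * e' + b * d' + c * c' + d * b' + e * a') := by
  simp only [E5_eq]
  push_cast
  linear_combination ((b : ZG) * e' + c * d' + d * c' + e * b' + (c * e' + d * d' + e * c') * T +
    (d * e' + e * d') * T ^ 2 + e * e' * T ^ 3) * T_five

theorem E5_one : E5 1 0 0 0 0 = 1 := by simp [E5_eq]

theorem sym_unit {x y z x' y' z' : ℤ} (h : E5 x y z z y * E5 x' y' z' z' y' = 1)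
    (h0 : 0 ≤ x + 2 * y + 2 * z) (hx : 0 ≤ x) :
    x = 1 ∨ 3 * x - 4 * y + 2 * z < x ∨ 3 * x + 2 * y - 4 * z < x := by
  rw [E5_mul, ← E5_one] at h
  obtain ⟨h1, h2, h3, -, -⟩ := E5_inj h
  have a1 : (x + 2 * y + 2 * z) * (x' + 2 * y' + 2 * z') = 1 := by
    linear_combination h1 + 2 * h2 + 2 * h3
  have a2 : (x ^ 2 - x * (y + z) - y ^ 2 - z ^ 2 + 3 * y * z) *
      (x' ^ 2 - x' * (y' + z') - y' ^ 2 - z' ^ 2 + 3 * y' * z') = 1 := by
    have key : ∀ p q r : ℤ, p = 1 → q = 0 → r = 0 →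
        p ^ 2 - p * (q + r) - q ^ 2 - r ^ 2 + 3 * q * r = 1 := by
      rintro _ _ _ rfl rfl rfl
      norm_num
    rw [← key _ _ _ h1 h2 h3]
    ring
  have b1 : x + 2 * y + 2 * z = 1 := by
    rcases Int.eq_one_or_neg_one_of_mul_eq_one a1 with e | e <;> omega
  obtain ⟨m, hm⟩ : ∃ m, m = -(y + z) := ⟨_, rfl⟩
  obtain ⟨d, hd⟩ : ∃ d, d = y - z := ⟨_, rfl⟩
  have c1 : x = 1 + 2 * m := by omega
  have c2 : 4 * (x ^ 2 - x * (y + z) - y ^ 2 - z ^ 2 + 3 * y * z) = (2 + 5 * m) ^ 2 - 5 * d ^ 2 := by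
    rw [c1, hm, hd]
    ring
  have c3 : d ^ 2 = 5 * m ^ 2 + 4 * m := by
    rcases Int.eq_one_or_neg_one_of_mul_eq_one a2 with e | e
    · rw [e] at c2
      nlinarith
    · rw [e] at c2
      have : 5 * (d ^ 2 - 5 * m ^ 2 - 4 * m) = 8 := by linear_combination c2
      omega
  by_contra hc
  push Not at hc
  obtain ⟨n1, n2, n3⟩ := hc
  have m1 : 1 ≤ m := by omega
  have d1 : 3 * d ≤ 5 * m + 2 := by omega
  have d2 : -(5 * m + 2) ≤ 3 * d := by omega
  nlinarith [mul_nonneg (sub_nonneg.2 d1) (sub_nonneg.2 d2)]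

theorem five (c : Inv ZG W) (U : AddSubgroup W)
    (h0 : ∀ (g : G5) (x : ZG), (x = .single g 1 ∨ x = -.single g 1) → c.c (u1 x) = 0)
    (hu : c.c (u1 (E5 (-1) 1 0 0 1)) ∈ U) {v : ZG} (hv : IsUnit v) : c.c (u1 v) ∈ U := by
  have huu : E5 (-1) 1 0 0 1 * E5 (-1) 0 1 1 0 = 1 := by
    rw [E5_mul, ← E5_one]
    norm_num
  have i1 : IsUnit (E5 (-1) 1 0 0 1) := IsUnit.of_mul_eq_one _ huu
  have i2 : IsUnit (E5 (-1) 0 1 1 0) := IsUnit.of_mul_eq_one _ ((mul_comm _ _).trans huu)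
  have hm : ∀ {x y : ZG}, IsUnit x → IsUnit y → c.c (u1 (x * y)) = c.c (u1 x) + c.c (u1 y) :=
    fun hx hy => by rw [Inv.u1_mul, c.mul (Inv.isUnit_u1 hx) (Inv.isUnit_u1 hy)]
  have hu' : c.c (u1 (E5 (-1) 0 1 1 0)) ∈ U := by
    have := hm i1 i2
    rw [huu, h0 1 1 (.inl rfl), eq_comm, add_eq_zero_iff_neg_eq] at this
    exact this ▸ U.neg_mem hu
  have key : ∀ (n : ℕ) (a b c' d e : ℤ), a ^ 2 + b ^ 2 + c' ^ 2 + d ^ 2 + e ^ 2 < n →
      IsUnit (E5 a b c' d e) → c.c (u1 (E5 a b c' d e)) ∈ U := by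
    intro n
    induction n with
    | zero =>
      intro a b c' d e h
      exact absurd h (not_lt.2 (by positivity))
    | succ n ih =>
      intro a b c' d e h hv
      obtain ⟨w, hw⟩ := hv.exists_right_inv
      obtain ⟨a', b', c'', d', e', rfl⟩ := E5_surj w
      have hw' : E5 a e d c' b * E5 a' e' d' c'' b' = 1 := by
        rw [E5_mul, ← E5_one] at hw ⊢
        obtain ⟨h1, h2, h3, h4, h5⟩ := E5_inj hw
        congr 1 <;> linarith
      have e1 : ∀ a b c d e : ℤ, E5 a b c d e * E5 a e d c b =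
          E5 (a ^ 2 + b ^ 2 + c ^ 2 + d ^ 2 + e ^ 2) (a * b + b * c + c * d + d * e + e * a)
            (a * c + b * d + c * e + d * a + e * b) (a * c + b * d + c * e + d * a + e * b)
            (a * b + b * c + c * d + d * e + e * a) := fun a b c d e => by
        rw [E5_mul]
        congr 1 <;> ring
      have e0 : E5 a b c' d e * E5 a e d c' b * (E5 a' b' c'' d' e' * E5 a' e' d' c'' b') = 1 := by
        rw [mul_mul_mul_comm, hw, hw', mul_one]
      rw [e1, e1] at e0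
      have e2 := sym_unit e0 (by nlinarith [sq_nonneg (a + b + c' + d + e)]) (by positivity)
      push_cast at h
      rcases e2 with e2 | e2 | e2
      · obtain ⟨h0', h1, h2, h3, h4⟩ := E5_coeff a b c' d e
        obtain ⟨g, hg⟩ := triv_of_sq (w := E5 a b c' d e) (by
          rw [show (Finset.univ : Finset G5) = {1, gen, gen ^ 2, gen ^ 3, gen ^ 4} by decide,
            Finset.sum_insert (by decide), Finset.sum_insert (by decide),
            Finset.sum_insert (by decide), Finset.sum_insert (by decide), Finset.sum_singleton,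
            h0', h1, h2, h3, h4]
          linarith)
        rw [h0 g _ hg]
        exact U.zero_mem
      · have h1 := hm i1 hv
        have h2 := i1.mul hv
        rw [E5_mul] at h1 h2
        have := ih _ _ _ _ _ (by nlinarith) h2
        rw [h1] at this
        exact (U.add_mem_cancel_left hu).1 this
      · have h1 := hm i2 hv
        have h2 := i2.mul hv
        rw [E5_mul] at h1 h2
        have := ih _ _ _ _ _ (by nlinarith) h2
        rw [h1] at this
        exact (U.add_mem_cancel_left hu').1 this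
  obtain ⟨a, b, c', d, e, rfl⟩ := E5_surj v
  exact key ((a ^ 2 + b ^ 2 + c' ^ 2 + d ^ 2 + e ^ 2).toNat + 1) a b c' d e (by omega) hv

theorem factor {C : Type} [Group C] (c : Inv (MonoidAlgebra ℤ C) W)
    (h0 : ∀ (g : C) (x : MonoidAlgebra ℤ C), (x = .single g 1 ∨ x = -.single g 1) →
      c.c (u1 x) = 0) :
    ∃ f : Wh C →+ W, ∀ {ι : Type} [Fintype ι] [DecidableEq ι]
      {A : Matrix ι ι (MonoidAlgebra ℤ C)}, IsUnit A → f ((whInv C).c A) = c.c A := by
  let f0 : FreeAbelianGroup (Σ n : ℕ, GL (Fin n) (MonoidAlgebra ℤ C)) →+ W :=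
    FreeAbelianGroup.lift fun x => c.c x.2.val
  let f1 : K1 (MonoidAlgebra ℤ C) →+ W := QuotientAddGroup.lift _ f0 (by
    rw [AddSubgroup.closure_le]
    rintro _ (⟨n, A, B, rfl⟩ | ⟨n, A, B, h1, h2, h3, rfl⟩)
    · simp only [SetLike.mem_coe, AddMonoidHom.mem_ker, map_sub, f0,
        FreeAbelianGroup.lift_apply_of, Units.val_mul]
      rw [c.mul A.isUnit B.isUnit]
      abel
    · simp only [SetLike.mem_coe, AddMonoidHom.mem_ker, map_sub, f0,
        FreeAbelianGroup.lift_apply_of]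
      let e : Fin (n + 1) ≃ Fin n ⊕ Unit := finSuccEquivLast.trans (Equiv.optionEquivSumPUnit _)
      rw [sub_eq_zero, ← c.stab A.isUnit, ← c.sub e (isUnit_blocks A.isUnit isUnit_one)]
      congr 1
      ext1 i j
      induction i using Fin.lastCases <;> induction j using Fin.lastCases <;>
        simp [e, h1, h2, h3])
  have hf1 : ∀ {n : ℕ} (A : GL (Fin n) (MonoidAlgebra ℤ C)), f1 (K1.cls A) = c.c A.val :=
    fun A => FreeAbelianGroup.lift_apply_of _ _
  let f2 : Wh C →+ W := QuotientAddGroup.lift _ f1 (by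
    rw [AddSubgroup.closure_le]
    rintro _ ⟨g, A, h, rfl⟩
    simp only [SetLike.mem_coe, AddMonoidHom.mem_ker, hf1]
    rw [← c.sub (Equiv.ofUnique Unit (Fin 1)) A.isUnit]
    exact h0 g _ h)
  refine ⟨f2, fun {ι} _ _ A hA => ?_⟩
  have hB := isUnit_sub (Fintype.equivFin ι).symm hA
  rw [← (whInv C).sub (Fintype.equivFin ι).symm hA, ← c.sub (Fintype.equivFin ι).symm hA,
    ← hB.unit_spec, whInv_val]
  exact hf1 _

theorem u_mem (c : Inv ZG W)
    (h0 : ∀ (g : G5) (x : ZG), (x = .single g 1 ∨ x = -.single g 1) → c.c (u1 x) = 0) :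
    c.c (u1 (E5 (-1) 1 0 0 1)) ∈ Alg c := by
  obtain ⟨f, hf⟩ := factor c h0
  have h1 := neg_mem_alg (G := G5) ⟨thePair, thePair_torsion⟩
  rw [neg_neg] at h1
  obtain ⟨ι, _, _, r, h2, h3, h4⟩ := h1
  refine ⟨ι, _, _, r, h2, h3, ?_⟩
  rw [← hf h3, ← h4, ← whInv_val, hf uM.isUnit, ← c.sub (Equiv.ofUnique Unit (Fin 1)) uM.isUnit]
  have e : T ^ 4 - T ^ 3 - 1 = -.single (gen ^ 4) 1 * E5 (-1) 1 0 0 1 := by
    rw [← T_pow, E5_eq]
    push_cast
    linear_combination (1 + T ^ 3) * T_five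
  have huu : E5 (-1) 1 0 0 1 * E5 (-1) 0 1 1 0 = 1 := by
    rw [E5_mul, ← E5_one]
    norm_num
  change _ = c.c (u1 (T ^ 4 - T ^ 3 - 1))
  rw [e, Inv.u1_mul, c.mul (Inv.isUnit_u1 (whInv_triv (gen ^ 4) (.inr rfl)).1)
    (Inv.isUnit_u1 (IsUnit.of_mul_eq_one _ huu)), h0 _ _ (.inr rfl), zero_add]

/-- The elements having a positive multiple in the algebraic model. -/
def sat {G : Type} [Group G] [Finite G] (c : Inv (MonoidAlgebra ℤ G) W) : AddSubgroup W where
  carrier := {y | ∃ k : ℕ, 0 < k ∧ k • y ∈ Alg c}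
  zero_mem' := ⟨1, one_pos, by simp⟩
  add_mem' := by
    rintro a b ⟨k, hk, ha⟩ ⟨l, hl, hb⟩
    refine ⟨k * l, mul_pos hk hl, ?_⟩
    rw [nsmul_add]
    exact add_mem (by rw [mul_nsmul]; exact (Alg c).nsmul_mem ha l)
      (by rw [mul_nsmul']; exact (Alg c).nsmul_mem hb k)
  neg_mem' := by
    rintro a ⟨k, hk, ha⟩
    exact ⟨k, hk, by rw [neg_nsmul]; exact Alg.neg c ha⟩

theorem pull_triv {C G : Type} [Group C] [Group G] (c : Inv (MonoidAlgebra ℤ G) W) (f : C →* G)
    (h0 : ∀ (g : G) (x : MonoidAlgebra ℤ G), (x = .single g 1 ∨ x = -.single g 1) →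
      c.c (u1 x) = 0) (g : C) (x : MonoidAlgebra ℤ C) (hx : x = .single g 1 ∨ x = -.single g 1) :
    (c.pull (mapDomainRingHom ℤ f)).c (u1 x) = 0 :=
  h0 (f g) (mapDomainRingHom ℤ f x) (by
    rcases hx with rfl | rfl
    · simp
    · rw [map_neg]
      simp)

theorem cyc {C : Type} [CommGroup C] [Finite C] [IsCyclic C] (h6 : Nat.card C ≤ 6)
    (c : Inv (MonoidAlgebra ℤ C) W)
    (h0 : ∀ (g : C) (x : MonoidAlgebra ℤ C), (x = .single g 1 ∨ x = -.single g 1) →
      c.c (u1 x) = 0) {n : Type} [Fintype n] [DecidableEq n]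
    {A : Matrix n n (MonoidAlgebra ℤ C)} (hA : IsUnit A) : c.c A ∈ sat c := by
  have hd := (isUnit_iff_isUnit_det _).1 hA
  obtain ⟨k, hk, h1⟩ := isOfFinAddOrder_iff_nsmul_eq_zero.1 (c.sk' exists_good hA)
  have h2 : c.c A - c.c (u1 A.det) ∈ sat c := ⟨k, hk, h1 ▸ zero_mem _⟩
  suffices h : c.c (u1 A.det) ∈ sat c by simpa using add_mem h2 h
  by_cases h5 : Nat.card C = 5
  · have : Fact (Nat.Prime 5) := ⟨by norm_num⟩
    let e : G5 ≃* C := mulEquivOfCyclicCardEq (by simp [h5])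
    have h3 := pull_triv c e.toMonoidHom h0
    have h4 := five _ (sat c) h3 ⟨1, one_pos, by
      rw [one_nsmul]; exact Alg.push c _ (u_mem _ h3)⟩
      (hd.map (mapDomainRingHom ℤ e.symm.toMonoidHom))
    have h5 : mapDomainRingHom ℤ e.toMonoidHom (mapDomainRingHom ℤ e.symm.toMonoidHom A.det) =
        A.det := by
      rw [← RingHom.comp_apply, ← mapDomainRingHom_comp,
        show e.toMonoidHom.comp e.symm.toMonoidHom = .id _ by ext; simp, mapDomainRingHom_id]
      rfl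
    rw [← h5]
    exact h4
  · obtain ⟨g, hg⟩ := unit_triv (aut_small h6 h5) hd
    rw [h0 g _ hg]
    exact zero_mem _

theorem mem_sat {G : Type} [Group G] [Finite G] (h6 : ∀ g : G, orderOf g ≤ 6) (τ : Wh G) :
    τ ∈ sat (whInv G) := by
  have key : ∀ {n : ℕ} (A : GL (Fin n) (MonoidAlgebra ℤ G)), Wh.cls A ∈ sat (whInv G) := fun A => by
    obtain ⟨k, hk, l, hl, h⟩ := artin (whInv G) A.isUnit (sat (whInv G)) fun h T => by
      obtain ⟨k, hk, h1⟩ := @cyc _ _ (zpowers h) IsCyclic.commGroup _ _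
        (by rw [Nat.card_zpowers]; exact h6 h) ((whInv G).pull (mapDomainRingHom ℤ T.i))
        (pull_triv _ _ fun g _ hx => (whInv_triv g hx).2) _ _ _ _ (isUnit_cm T.res A.isUnit)
      exact ⟨k, hk, Alg.push _ T.i h1⟩
    exact ⟨k * l, mul_pos hk hl, by rw [mul_nsmul, ← whInv_val]; exact h⟩
  obtain ⟨x, rfl⟩ := QuotientAddGroup.mk_surjective τ
  obtain ⟨y, rfl⟩ := QuotientAddGroup.mk_surjective x
  induction y using FreeAbelianGroup.induction_on with
  | zero => exact zero_mem _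
  | of x => exact key x.2
  | neg x h => exact neg_mem h
  | add x y hx hy => exact add_mem hx hy

end Pool.Agent.Lib.MP_2add11_gt.FG
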