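import Pool.Agent.Lib.MP_2add11_gt.FG.Jump

/-!
The cell structure of the universal cover of a pair.
-/

noncomputable section

namespace Pool.Agent.Lib.MP_2add11_gt.FG

open Set Metric Topology Filter Classical RelCWComplex

variable {G : Type} [Group G] (P : Pair G)

theorem pair_t2 : T2Space P.E := ⟨fun x y h => by
  by_cases e : P.p x = P.p y
  · exact P.cover.isCoveringMap.isSeparatedMap x y e h
  · exact separated_by_continuous P.cover.continuous e⟩

theorem pair_lpc : LocallyPathConnectedSpace P.E := by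
  have := P.finite
  have := finite_cells_of_finite (C := (univ : Set P.K))
  have : ∀ n, LocallyPathConnectedSpace (closedBall (0 : Fin n → ℝ) 1) := fun n =>
    (convex_closedBall _ _).locallyPathConnectedSpace
  have : ∀ n, CompactSpace (closedBall (0 : Fin n → ℝ) 1) := fun n =>
    isCompact_iff_compactSpace.1 (isCompact_closedBall _ _)
  let q : (Σ c : Σ n, cell (univ : Set P.K) n, closedBall (0 : Fin c.1 → ℝ) 1) → P.K :=
    fun z => map z.1.1 z.1.2 z.2.1
  have hq : Continuous q := continuous_sigma fun c => (continuousOn c.1 c.2).domRestrict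
  have hs : Function.Surjective q := fun x => by
    obtain ⟨n, j, v, hv, e⟩ : ∃ n j, x ∈ closedCell (C := (univ : Set P.K)) n j := by
      simpa only [mem_iUnion] using (CWComplex.union (C := (univ : Set P.K))).ge (mem_univ x)
    exact ⟨⟨⟨n, j⟩, v, hv⟩, e⟩
  have := (hq.isClosedMap.isQuotientMap hq hs).locallyPathConnectedSpace
  choose e he _ using P.cover.isCoveringMap.isLocalHomeomorph
  let : ChartedSpace P.K P.E := ⟨univ, e, he, fun _ => mem_univ _⟩
  exact ChartedSpace.locallyPathConnectedSpace P.K P.E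

theorem pair_pre : IsPreconnected (P.p ⁻¹' P.L) := by
  obtain ⟨H, h0, h1, h2⟩ := P.retract
  have := P.simply
  have hp := P.cover.isCoveringMap
  have hc := hp.continuous
  let H' : C(unitInterval × P.E, P.K) := ⟨fun x => H (x.1, P.p x.2), by fun_prop⟩
  let R := hp.liftHomotopy H' (ContinuousMap.id P.E) fun a => h0 _
  have g1 : ∀ x, P.p (R x) = H (x.1, P.p x.2) := congrFun (hp.liftHomotopy_lifts H' _ _)
  have g0 : ∀ e, R (0, e) = e := hp.liftHomotopy_zero H' _ _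
  have g2 : ∀ e ∈ P.p ⁻¹' P.L, R (1, e) = e := fun e he =>
    (hp.const_of_comp (g := fun s : unitInterval => R (s, e)) (by fun_prop)
      (fun a a' => by rw [g1, g1, h2 _ _ he, h2 _ _ he]) 1 0).trans (g0 e)
  have : P.p ⁻¹' P.L = range fun e => R (1, e) :=
    Subset.antisymm (fun e he => ⟨e, g2 e he⟩) (range_subset_iff.2 fun e => by
      rw [mem_preimage, g1]; exact h1 _)
  rw [this]
  exact isPreconnected_range (by fun_prop)

theorem cell_fin (k : ℕ) : Finite (P.Cell k) := by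
  have := P.finite.finite_cell k
  exact Subtype.finite

def sk (k : ℕ) : Set P.E :=
  {y | P.p y ∈ (P.L : Set P.K) ∨ ∃ m < k, ∃ i, P.p y ∈ openCell (C := (univ : Set P.K)) m i}

theorem mem_L {x : P.K} : x ∈ (P.L : Set P.K) ↔
    ∃ m, ∃ i ∈ P.L.I m, x ∈ openCell (C := (univ : Set P.K)) m i := by
  rw [← CWComplex.Subcomplex.union]
  simp

theorem sk_zero : sk P 0 = P.p ⁻¹' P.L := by
  ext; simp [sk]

theorem sk_three (y : P.E) : y ∈ sk P 3 := by
  obtain ⟨n, j, h⟩ : ∃ n j, P.p y ∈ openCell (C := (univ : Set P.K)) n j := by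
    simpa only [mem_iUnion] using
      (CWComplex.iUnion_openCell_eq_complex (C := (univ : Set P.K))).ge (mem_univ _)
  rcases lt_or_ge n 3 with h1 | h1
  exacts [.inr ⟨n, h1, j, h⟩, .inl ((mem_L P).2 ⟨n, j, P.dim n h1 j, h⟩)]

theorem sk_smul (k : ℕ) (g : G) {y : P.E} (h : y ∈ sk P k) : g • y ∈ sk P k := by
  simpa only [sk, mem_ofPred_eq, P.cover.map_smul] using h

theorem pair_att {k : ℕ} (hc : IsClosed (sk P k)) {Φ : P.Cell k → (Fin k → ℝ) → P.E}
    (hΦ : ∀ i, ContinuousOn (Φ i) (closedBall 0 1) ∧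
      ∀ v ∈ closedBall (0 : Fin k → ℝ) 1, P.p (Φ i v) = map k i.1 v) :
    Att (fun (s : G × P.Cell k) v => s.1 • Φ s.2 v) (sk P k) (sk P (k + 1)) := by
  have hm : ∀ (g : G) i, ∀ v ∈ ball 0 1,
      P.p (g • Φ i v) ∈ openCell (C := (univ : Set P.K)) k i.1 := fun g i v hv =>
    ⟨v, hv, by rw [P.cover.map_smul, (hΦ i).2 v (ball_subset_closedBall hv)]⟩
  have hd : ∀ {m n i j} {x : P.K}, x ∈ openCell (C := (univ : Set P.K)) m i →
      x ∈ openCell (C := (univ : Set P.K)) n j →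
      (⟨m, i⟩ : Σ n, cell (univ : Set P.K) n) = ⟨n, j⟩ := fun h1 h2 =>
    eq_of_not_disjoint_openCell (not_disjoint_iff.2 ⟨_, h1, h2⟩)
  refine ⟨hc, fun s => (P.cover.continuous_const_smul s.1).comp_continuousOn (hΦ s.2).1, ?_, ?_,
    ?_, fun y => ⟨?_, ?_⟩⟩
  · rintro ⟨g, i⟩ ⟨g', i'⟩ v hv v' hv' (e : g • Φ i v = g' • Φ i' v')
    obtain rfl : i = i' := Subtype.ext (eq_of_heq (Sigma.mk.inj_iff.1
      (hd (hm g i v hv) (e ▸ hm g' i' v' hv'))).2)
    obtain rfl : v = v' := (map k i.1).injOn (by rwa [source_eq]) (by rwa [source_eq]) (by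
      rw [← (hΦ i).2 v (ball_subset_closedBall hv), ← (hΦ i).2 v' (ball_subset_closedBall hv'),
        ← P.cover.map_smul g, e, P.cover.map_smul])
    exact ⟨by rw [P.cover.isCancelSMul.right_cancel' _ _ _ e], rfl⟩
  · rintro ⟨g, i⟩ v hv (h | ⟨m, h, j, h'⟩)
    · obtain ⟨m, j, h1, h2⟩ := (mem_L P).1 h
      obtain ⟨rfl, h3⟩ := Sigma.mk.inj_iff.1 (hd h2 (hm g i v hv))
      exact i.2 (eq_of_heq h3 ▸ h1)
    · exact h.ne (Sigma.mk.inj_iff.1 (hd h' (hm g i v hv))).1
  · rintro ⟨g, i⟩ v hv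
    obtain ⟨I, hI⟩ := CWComplex.cellFrontier_subset_finite_openCell (C := (univ : Set P.K)) k i.1
    have := hI ⟨v, mem_sphere_zero_iff_norm.2 hv, rfl⟩
    simp only [mem_iUnion] at this
    obtain ⟨m, h, j, -, h'⟩ := this
    exact .inr ⟨m, h, j, by
      rwa [P.cover.map_smul, (hΦ i).2 v (mem_closedBall_zero_iff.2 hv.le)]⟩
  · rintro (h | ⟨m, h, j, h'⟩)
    · exact .inl (.inl h)
    rcases (Nat.lt_succ_iff.1 h).lt_or_eq with h1 | rfl
    · exact .inl (.inr ⟨m, h1, j, h'⟩)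
    by_cases h2 : j ∈ P.L.I m
    · exact .inl (.inl ((mem_L P).2 ⟨m, j, h2, h'⟩))
    obtain ⟨v, hv, e⟩ := h'
    obtain ⟨g, e'⟩ := P.cover.apply_eq_iff_mem_orbit.1
      (((hΦ ⟨j, h2⟩).2 v (ball_subset_closedBall hv)).trans e).symm
    exact .inr ⟨(g, ⟨j, h2⟩), v, hv, e'⟩
  · rintro ((h | ⟨m, h, j, h'⟩) | ⟨⟨g, i⟩, v, hv, rfl⟩)
    exacts [.inl h, .inr ⟨m, Nat.lt_succ_of_lt h, j, h'⟩, .inr ⟨k, k.lt_succ_self, i.1, hm g i v hv⟩]

end Pool.Agent.Lib.MP_2add11_gt.FG
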