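import Pool.Agent.Lib.MP_2add11_gt.Torsion

/-!
Additive, stable invariants of invertible matrices (functions factoring through `K₁`).
-/

noncomputable section

namespace Pool.Agent.Lib.MP_2add11_gt.FG

open Matrix

structure Inv (R : Type) [Ring R] (W : Type) [AddCommGroup W] where
  c : ∀ {n : Type}, Matrix n n R → W
  mul : ∀ {n : Type} [Fintype n] [DecidableEq n] {A B : Matrix n n R}, IsUnit A → IsUnit B →
    c (A * B) = c A + c B
  sub : ∀ {m n : Type} [Fintype n] [DecidableEq n] (e : m ≃ n) {A : Matrix n n R}, IsUnit A →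
    c (A.submatrix e e) = c A
  stab : ∀ {n : Type} [Fintype n] [DecidableEq n] {A : Matrix n n R}, IsUnit A →
    c (fromBlocks A 0 0 (1 : Matrix Unit Unit R)) = c A

variable {R S W W' : Type} [Ring R] [Ring S] [AddCommGroup W] [AddCommGroup W']
variable {m n k : Type} [Fintype m] [DecidableEq m] [Fintype n] [DecidableEq n] [Fintype k]
  [DecidableEq k]

theorem isUnit_sub (e : m ≃ n) {A : Matrix n n R} (h : IsUnit A) : IsUnit (A.submatrix e e) :=
  h.map (reindexRingEquiv R e.symm)

theorem isUnit_of_inv {A B : Matrix n n R} (h1 : A * B = 1) (h2 : B * A = 1) : IsUnit A :=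
  ⟨⟨A, B, h1, h2⟩, rfl⟩

theorem isUnit_blocks {A : Matrix m m R} {B : Matrix n n R} (hA : IsUnit A) (hB : IsUnit B) :
    IsUnit (fromBlocks A 0 0 B) := by
  obtain ⟨A, rfl⟩ := hA
  obtain ⟨B, rfl⟩ := hB
  refine isUnit_of_inv (B := fromBlocks (↑A⁻¹) 0 0 (↑B⁻¹)) ?_ ?_ <;>
    simp [fromBlocks_multiply]

theorem isUnit_up (H : Matrix m n R) : IsUnit (fromBlocks (1 : Matrix m m R) H 0 (1 : Matrix n n R)) := by
  refine isUnit_of_inv (B := fromBlocks 1 (-H) 0 1) ?_ ?_ <;> simp [fromBlocks_multiply]

theorem isUnit_low (X : Matrix n m R) :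
    IsUnit (fromBlocks (1 : Matrix m m R) 0 X (1 : Matrix n n R)) := by
  refine isUnit_of_inv (B := fromBlocks 1 0 (-X) 1) ?_ ?_ <;> simp [fromBlocks_multiply]

theorem isUnit_swap {H : Matrix m n R} {X : Matrix n m R} (h : IsUnit (1 + X * H)) :
    IsUnit (1 + H * X) := by
  obtain ⟨u, hu⟩ := h
  have h1 : (1 + X * H) * (↑u⁻¹ : Matrix n n R) = 1 := by rw [← hu, u.mul_inv]
  have h2 : (↑u⁻¹ : Matrix n n R) * (1 + X * H) = 1 := by rw [← hu, u.inv_mul]
  refine isUnit_of_inv (B := 1 - H * (↑u⁻¹ : Matrix n n R) * X) ?_ ?_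
  · have : H * ((1 + X * H) * (↑u⁻¹ : Matrix n n R)) * X = H * X := by rw [h1, Matrix.mul_one]
    simp only [Matrix.mul_add, Matrix.add_mul, Matrix.mul_sub, Matrix.one_mul, Matrix.mul_one,
      Matrix.mul_assoc] at this ⊢
    rw [this]; abel
  · have : H * ((↑u⁻¹ : Matrix n n R) * (1 + X * H)) * X = H * X := by rw [h2, Matrix.mul_one]
    simp only [Matrix.mul_add, Matrix.add_mul, Matrix.sub_mul, Matrix.one_mul, Matrix.mul_one,
      Matrix.mul_assoc] at this ⊢
    rw [← sub_eq_iff_eq_add.2 this.symm]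
    abel

namespace Inv

variable (c : Inv R W)

theorem one : c.c (1 : Matrix n n R) = 0 := by
  have := c.mul (isUnit_one (M := Matrix n n R)) isUnit_one
  simpa using this

theorem pow {A : Matrix n n R} (hA : IsUnit A) (j : ℕ) : c.c (A ^ j) = j • c.c A := by
  induction j with
  | zero => simp [c.one]
  | succ j ih => rw [pow_succ, c.mul (hA.pow j) hA, ih, succ_nsmul]

theorem conj {A P Q : Matrix n n R} (hA : IsUnit A) (h1 : P * Q = 1) (h2 : Q * P = 1) :
    c.c (P * A * Q) = c.c A := by
  have hP := isUnit_of_inv h1 h2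
  have hQ := isUnit_of_inv h2 h1
  have := c.mul hP hQ
  rw [h1, c.one] at this
  rw [c.mul (hP.mul hA) hQ, c.mul hP hA, add_right_comm, ← this, zero_add]

theorem stab' {A : Matrix n n R} (hA : IsUnit A) :
    c.c (fromBlocks A 0 0 (1 : Matrix m m R)) = c.c A := by
  have key : ∀ j : ℕ, c.c (fromBlocks A 0 0 (1 : Matrix (Fin j) (Fin j) R)) = c.c A := by
    intro j
    induction j with
    | zero =>
      rw [← c.sub (Equiv.sumEmpty n (Fin 0)) hA]
      congr 1
      ext (i | i) (j | j) <;> first | rfl | exact i.elim0 | exact j.elim0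
    | succ j ih =>
      rw [← ih, ← c.stab (isUnit_blocks hA (isUnit_one (M := Matrix (Fin j) (Fin j) R))),
        ← c.sub ((Equiv.sumAssoc n (Fin j) Unit).trans (Equiv.sumCongr (Equiv.refl n)
          ((Equiv.optionEquivSumPUnit (Fin j)).symm.trans (finSuccEquiv j).symm)))
          (isUnit_blocks hA (isUnit_one (M := Matrix (Fin (j + 1)) (Fin (j + 1)) R)))]
      congr 1
      ext ((i | i) | i) ((j | j) | j) <;> simp [one_apply, Fin.succ_ne_zero, (Fin.succ_ne_zero _).symm]
  rw [← key (Fintype.card m), ← c.sub (Equiv.sumCongr (Equiv.refl n) (Fintype.equivFin m))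
    (isUnit_blocks hA isUnit_one)]
  congr 1
  ext (i | i) (j | j) <;> simp [one_apply]

theorem swap {A : Matrix m m R} {B : Matrix n n R} (hA : IsUnit A) (hB : IsUnit B) :
    c.c (fromBlocks A 0 0 B) = c.c (fromBlocks B 0 0 A) := by
  rw [← c.sub (Equiv.sumComm m n) (isUnit_blocks hB hA)]
  congr 1
  ext (i | i) (j | j) <;> rfl

theorem blocks {A : Matrix m m R} {B : Matrix n n R} (hA : IsUnit A) (hB : IsUnit B) :
    c.c (fromBlocks A 0 0 B) = c.c A + c.c B := by
  have : fromBlocks A 0 0 B = fromBlocks A 0 0 1 * fromBlocks 1 0 0 B := by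
    simp [fromBlocks_multiply]
  rw [this, c.mul (isUnit_blocks hA isUnit_one) (isUnit_blocks isUnit_one hB), c.stab' hA,
    c.swap isUnit_one hB, c.stab' hB]

theorem one_add_swap {H : Matrix m n R} {X : Matrix n m R} (h : IsUnit (1 + X * H)) :
    c.c (1 + H * X) = c.c (1 + X * H) := by
  have h' := isUnit_swap h
  have e : fromBlocks (1 : Matrix m m R) 0 X (1 : Matrix n n R) *
      (fromBlocks (1 : Matrix m m R) 0 0 (1 + X * H) *
        fromBlocks (1 : Matrix m m R) (-H) 0 (1 : Matrix n n R)) =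
      fromBlocks (1 : Matrix m m R) (-H) 0 (1 : Matrix n n R) *
        fromBlocks (1 + H * X) 0 0 (1 : Matrix n n R) *
        fromBlocks (1 : Matrix m m R) 0 X (1 : Matrix n n R) := by
    simp [fromBlocks_multiply]
  have := congrArg c.c e
  rw [c.mul (isUnit_low X) ((isUnit_blocks isUnit_one h).mul (isUnit_up _)),
    c.mul (isUnit_blocks isUnit_one h) (isUnit_up _),
    c.mul ((isUnit_up _).mul (isUnit_blocks h' isUnit_one)) (isUnit_low X),
    c.mul (isUnit_up _) (isUnit_blocks h' isUnit_one), c.blocks isUnit_one h,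
    c.blocks h' isUnit_one, c.one, c.one, zero_add, add_zero, add_comm, add_left_inj,
    add_comm, add_right_inj] at this
  exact this.symm

theorem unip {H : Matrix m n R} {X : Matrix n m R} (h : X * H = 0) : c.c (1 + H * X) = 0 := by
  rw [c.one_add_swap (by rw [h, add_zero]; exact isUnit_one), h, add_zero, c.one]

theorem low (X : Matrix n m R) :
    c.c (fromBlocks (1 : Matrix m m R) 0 X (1 : Matrix n n R)) = 0 := by
  rw [← c.unip (H := fromRows (0 : Matrix m n R) (1 : Matrix n n R))
    (X := fromCols X (0 : Matrix n n R)) (by rw [fromCols_mul_fromRows]; simp)]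
  congr 1
  rw [fromRows_mul_fromCols, ← fromBlocks_one, fromBlocks_add]
  simp

theorem tri {A : Matrix m m R} {B : Matrix n n R} (hA : IsUnit A) (hB : IsUnit B)
    (X : Matrix n m R) : IsUnit (fromBlocks A 0 X B) ∧ c.c (fromBlocks A 0 X B) = c.c A + c.c B := by
  obtain ⟨B, rfl⟩ := hB
  obtain ⟨A, rfl⟩ := hA
  have : fromBlocks A.val 0 X B.val = fromBlocks (1 : Matrix m m R) 0 (X * (↑A⁻¹ : Matrix m m R)) 1 *
      fromBlocks A.val 0 0 B.val := by
    simp [fromBlocks_multiply, Matrix.mul_assoc]
  rw [this, c.mul (isUnit_low _) (isUnit_blocks A.isUnit B.isUnit), c.low, zero_add,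
    c.blocks A.isUnit B.isUnit]
  exact ⟨(isUnit_low _).mul (isUnit_blocks A.isUnit B.isUnit), rfl⟩

/-- Composition with an additive map. -/
def map (f : W →+ W') : Inv R W' where
  c A := f (c.c A)
  mul hA hB := by rw [c.mul hA hB, map_add]
  sub e _ hA := by rw [c.sub e hA]
  stab hA := by rw [c.stab hA]

theorem _root_.Pool.Agent.Lib.MP_2add11_gt.FG.isUnit_cm (f : R →+* Matrix k k S) {A : Matrix n n R}
    (hA : IsUnit A) : IsUnit (comp n n k k S (A.map f)) :=
  (isUnit_comp_iff _ _ _).2 (hA.map f.mapMatrix)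

/-- Pull-back along a matrix representation. -/
def comap (c : Inv S W) (f : R →+* Matrix k k S) : Inv R W where
  c A := c.c (comp _ _ k k S (A.map f))
  mul {n} _ _ A B hA hB := by
    rw [Matrix.map_mul, ← c.mul (isUnit_cm f hA)
      (isUnit_cm f hB)]
    exact congrArg c.c (map_mul (compRingEquiv n k S) _ _)
  sub e A hA := by
    rw [← c.sub (e.prodCongr (Equiv.refl k)) (isUnit_cm f hA)]
    rfl
  stab {n} _ _ A hA := by
    rw [← c.stab' (m := Unit × k) (isUnit_cm f hA),
      ← c.sub (Equiv.sumProdDistrib n Unit k)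
        (isUnit_blocks (isUnit_cm f hA) isUnit_one)]
    congr 1
    ext ⟨i | i, a⟩ ⟨j | j, b⟩ <;> simp [one_apply]

/-- Pull-back along a ring homomorphism. -/
def pull (c : Inv S W) (f : R →+* S) : Inv R W where
  c A := c.c (A.map f)
  mul {n} _ _ A B hA hB := by
    rw [Matrix.map_mul]
    exact c.mul (hA.map f.mapMatrix) (hB.map f.mapMatrix)
  sub e A hA := c.sub e (hA.map f.mapMatrix)
  stab {n} _ _ A hA := by
    rw [← c.stab (A := A.map f) (hA.map f.mapMatrix), fromBlocks_map]
    simp

theorem diag {d : n → R} (hd : ∀ i, IsUnit (d i))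
    (h : ∀ i, c.c (Matrix.of fun _ _ : Unit => d i) = 0) :
    IsUnit (diagonal d) ∧ c.c (diagonal d) = 0 := by
  have key : ∀ s : Finset n, IsUnit (diagonal fun i => if i ∈ s then d i else 1) ∧
      c.c (diagonal fun i => if i ∈ s then d i else 1) = 0 := by
    intro s
    induction s using Finset.induction_on with
    | empty => simpa using c.one
    | insert a s ha ih =>
      have e : (diagonal fun i => if i ∈ insert a s then d i else 1) =
          (diagonal fun i => if i ∈ s then d i else 1) *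
          (1 + (Matrix.of fun i (_ : Unit) => if i = a then (1 : R) else 0) *
            Matrix.of fun (_ : Unit) j => if j = a then d a - 1 else 0) := by
        ext i j
        rw [diagonal_mul]
        by_cases h : i = j
        · subst h
          by_cases h1 : i = a <;> simp [mul_apply, h1, ha]
        · by_cases h1 : i = a
          · subst h1
            simp [mul_apply, h, Ne.symm h]
          · simp [mul_apply, h, h1]
      have e2 : (1 + (Matrix.of fun (_ : Unit) j => if j = a then d a - 1 else 0) *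
          (Matrix.of fun i (_ : Unit) => if i = a then (1 : R) else 0)) =
          Matrix.of fun _ _ : Unit => d a := by
        ext i j
        simp [mul_apply]
      have hu : IsUnit (Matrix.of fun _ _ : Unit => d a) := by
        obtain ⟨u, hu⟩ := hd a
        refine isUnit_of_inv (B := Matrix.of fun _ _ : Unit => (↑u⁻¹ : R)) ?_ ?_ <;>
          ext i j <;> simp [mul_apply, ← hu]
      rw [← e2] at hu
      rw [e, c.mul ih.1 (isUnit_swap hu), ih.2, c.one_add_swap hu, e2, h, add_zero]
      exact ⟨ih.1.mul (isUnit_swap hu), rfl⟩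
  simpa using key Finset.univ

theorem nilp (rk : n → ℕ) {N : Matrix n n R} (h : ∀ i j, N i j ≠ 0 → rk j < rk i) :
    IsUnit (1 + N) ∧ c.c (1 + N) = 0 := by
  have key : ∀ s : Finset n, IsUnit (1 + Matrix.of fun i j => if i ∈ s then N i j else 0) ∧
      c.c (1 + Matrix.of fun i j => if i ∈ s then N i j else 0) = 0 := by
    intro s
    induction s using Finset.induction_on_max_value rk with
    | empty =>
      have : (Matrix.of fun i j => if i ∈ (∅ : Finset n) then N i j else 0) = 0 := by
        ext; simp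
      rw [this, add_zero]
      exact ⟨isUnit_one, c.one⟩
    | insert a s ha hm ih =>
      have h0 : ∀ i ∈ s, N i a = 0 := fun i hi => by
        by_contra h'
        exact absurd (h i a h') (not_lt.2 (hm i hi))
      have e : (1 + Matrix.of fun i j => if i ∈ insert a s then N i j else 0) =
          (1 + Matrix.of fun i j => if i ∈ s then N i j else 0) *
          (1 + (Matrix.of fun i (_ : Unit) => if i = a then (1 : R) else 0) *
            Matrix.of fun (_ : Unit) j => N a j) := by
        rw [Matrix.mul_add, Matrix.mul_one, ← Matrix.mul_assoc, Matrix.add_mul, Matrix.one_mul]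
        ext i j
        by_cases h1 : i = a
        · simp [mul_apply, h1, ha]
        · by_cases h2 : i ∈ s <;> simp [mul_apply, h1, h2, h0]
      have e2 : (Matrix.of fun (_ : Unit) j => N a j) *
          (Matrix.of fun i (_ : Unit) => if i = a then (1 : R) else 0) = 0 := by
        ext i j
        by_contra h'
        exact absurd (h a a (by simpa [mul_apply] using h')) (lt_irrefl _)
      have hu := isUnit_swap (H := Matrix.of fun i (_ : Unit) => if i = a then (1 : R) else 0)
        (X := Matrix.of fun (_ : Unit) j => N a j) (by rw [e2, add_zero]; exact isUnit_one)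
      rw [e, c.mul ih.1 hu, ih.2, c.unip e2, add_zero]
      exact ⟨ih.1.mul hu, rfl⟩
  have := key Finset.univ
  simp only [Finset.mem_univ, if_true] at this
  exact this

end Inv

open Classical in
def clF {j : ℕ} (A : Matrix (Fin j) (Fin j) R) : K1 R := if h : IsUnit A then K1.cls h.unit else 0

theorem clF_val {j : ℕ} (A : GL (Fin j) R) : clF A.val = K1.cls A := by
  rw [clF, dif_pos A.isUnit, IsUnit.unit_of_val_units]

theorem rel_zero {x : FreeAbelianGroup (Σ n : ℕ, GL (Fin n) R)} (h : x ∈ K1Rel R) :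
    (QuotientAddGroup.mk x : K1 R) = 0 :=
  (QuotientAddGroup.eq_zero_iff _).2 (AddSubgroup.subset_closure h)

theorem clF_mul {j : ℕ} {A B : Matrix (Fin j) (Fin j) R} (hA : IsUnit A) (hB : IsUnit B) :
    clF (A * B) = clF A + clF B := by
  obtain ⟨A, rfl⟩ := hA
  obtain ⟨B, rfl⟩ := hB
  have := rel_zero (R := R) (.inl ⟨j, A, B, rfl⟩)
  rw [← Units.val_mul, clF_val, clF_val, clF_val]
  rw [QuotientAddGroup.mk_sub, QuotientAddGroup.mk_sub, sub_sub, sub_eq_zero] at this
  exact this

theorem clF_sub {i j : ℕ} (e : Fin i ≃ Fin j) {A : Matrix (Fin j) (Fin j) R} (hA : IsUnit A) :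
    clF (A.submatrix e e) = clF A := by
  obtain rfl : i = j := by simpa using Fintype.card_congr e
  have h1 : (1 : Matrix (Fin i) (Fin i) R).submatrix e (Equiv.refl _) *
      (1 : Matrix (Fin i) (Fin i) R).submatrix (Equiv.refl _) e = 1 := by
    rw [submatrix_mul_equiv]; simp
  have h2 : (1 : Matrix (Fin i) (Fin i) R).submatrix (Equiv.refl _) e *
      (1 : Matrix (Fin i) (Fin i) R).submatrix e (Equiv.refl _) = 1 := by
    rw [submatrix_mul_equiv]; simp
  have h3 : A.submatrix e e = (1 : Matrix (Fin i) (Fin i) R).submatrix e (Equiv.refl _) * A *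
      (1 : Matrix (Fin i) (Fin i) R).submatrix (Equiv.refl _) e := by
    conv_rhs => rw [← submatrix_id_id A, ← Equiv.coe_refl, submatrix_mul_equiv, submatrix_mul_equiv]
    simp
  have hP := isUnit_of_inv h1 h2
  have hQ := isUnit_of_inv h2 h1
  have h4 := clF_mul hP hQ
  have h5 := clF_mul (isUnit_one (M := Matrix (Fin i) (Fin i) R)) isUnit_one
  rw [mul_one, left_eq_add] at h5
  rw [h1, h5] at h4
  rw [h3, clF_mul (hP.mul hA) hQ, clF_mul hP hA, add_right_comm, ← h4, zero_add]

open Classical in
def cl {n : Type} (A : Matrix n n R) : K1 R :=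
  if _h : Finite n then clF (A.submatrix (Finite.equivFin n).symm (Finite.equivFin n).symm) else 0

theorem cl_eq {j : ℕ} (e : Fin j ≃ n) {A : Matrix n n R} (hA : IsUnit A) :
    cl A = clF (A.submatrix e e) := by
  rw [cl, dif_pos (inferInstance : Finite n), ← clF_sub (e.trans (Finite.equivFin n))
    (isUnit_sub (Finite.equivFin n).symm hA)]
  congr 1
  ext; simp

variable (R) in
def kInv : Inv R (K1 R) where
  c := cl
  mul {n} _ _ A B hA hB := by
    rw [cl_eq (Fintype.equivFin n).symm hA, cl_eq (Fintype.equivFin n).symm hB,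
      cl_eq (Fintype.equivFin n).symm (hA.mul hB), ← clF_mul (isUnit_sub _ hA) (isUnit_sub _ hB),
      submatrix_mul_equiv]
  sub {m n} _ _ e A hA := by
    classical
    have := Fintype.ofEquiv n e.symm
    rw [cl_eq (Fintype.equivFin m).symm (isUnit_sub e hA),
      cl_eq ((Fintype.equivFin m).symm.trans e) hA]
    rfl
  stab {n} _ _ A hA := by
    let e := (Fintype.equivFin n).symm
    let e' : Fin (Fintype.card n + 1) ≃ n ⊕ Unit :=
      finSuccEquivLast.trans ((Equiv.optionEquivSumPUnit _).trans (e.sumCongr (Equiv.refl _)))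
    have hB := isUnit_blocks hA (isUnit_one (M := Matrix Unit Unit R))
    rw [cl_eq e hA, cl_eq e' hB, clF, clF, dif_pos (isUnit_sub e hA), dif_pos (isUnit_sub e' hB)]
    have := rel_zero (R := R) (.inr ⟨_, (isUnit_sub e hA).unit, (isUnit_sub e' hB).unit,
      fun i j => by simp [e'], fun i => by simp [e'], by simp [e'], rfl⟩)
    rw [QuotientAddGroup.mk_sub, sub_eq_zero] at this
    exact this

theorem kInv_val {j : ℕ} (A : GL (Fin j) R) : (kInv R).c A.val = K1.cls A :=
  (cl_eq (Equiv.refl _) A.isUnit).trans (clF_val A)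

/-- The class in the Whitehead group. -/
def whInv (G : Type) [Group G] : Inv (MonoidAlgebra ℤ G) (Wh G) :=
  (kInv _).map (QuotientAddGroup.mk' _)

theorem whInv_val {G : Type} [Group G] {j : ℕ} (A : GL (Fin j) (MonoidAlgebra ℤ G)) :
    (whInv G).c A.val = Wh.cls A := congrArg QuotientAddGroup.mk (kInv_val A)

theorem whInv_triv {G : Type} [Group G] {x : MonoidAlgebra ℤ G} (g : G)
    (h : x = .single g 1 ∨ x = -.single g 1) :
    IsUnit x ∧ (whInv G).c (Matrix.of fun _ _ : Unit => x) = 0 := by
  have h0 : IsUnit (MonoidAlgebra.single g (1 : ℤ)) :=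
    (Group.isUnit g).map (MonoidAlgebra.of ℤ G)
  have hx : IsUnit x := by
    rcases h with rfl | rfl
    exacts [h0, h0.neg]
  have hu : IsUnit (Matrix.of fun _ _ : Fin 1 => x) := by
    obtain ⟨u, hu⟩ := hx
    refine isUnit_of_inv (B := Matrix.of fun _ _ : Fin 1 => (↑u⁻¹ : MonoidAlgebra ℤ G)) ?_ ?_ <;>
      ext1 i j <;> simp [mul_apply, ← hu, one_apply, Subsingleton.elim i j]
  refine ⟨hx, ((whInv G).sub (Equiv.ofUnique Unit (Fin 1)) hu).trans ?_⟩
  rw [← hu.unit_spec, whInv_val]
  exact (QuotientAddGroup.eq_zero_iff _).2 (AddSubgroup.subset_closure ⟨g, hu.unit, h, rfl⟩)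

end Pool.Agent.Lib.MP_2add11_gt.FG
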