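import Pool.Agent.Lib.MP_2add11_gt.FG.Cx

/-!
The word read off a loop in a one-dimensional relative complex.
-/

noncomputable section

namespace Pool.Agent.Lib.MP_2add11_gt.FG

open Set Metric Topology Filter Classical

variable {E Γ Γ' S : Type} [Group Γ] [Group Γ']

def jump (φ : S → (Fin 1 → ℝ) → E) (γ : S → Γ) (x y : E) : Γ :=
  if h : ∃ s, φ s 0 = x ∧ ∃ w ∈ ball 0 1, φ s w = y ∧ 0 < w 0 then γ h.choose else 1

variable {φ : S → (Fin 1 → ℝ) → E} {A B : Set E}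

theorem jump_ne (γ : S → Γ) {x : E} (hx : ∀ s, φ s 0 ≠ x) (y : E) : jump φ γ x y = 1 :=
  dif_neg fun ⟨s, h, _⟩ => hx s h

theorem jump_map (f : Γ →* Γ') (γ : S → Γ) (x y : E) :
    f (jump φ γ x y) = jump φ (fun s => f (γ s)) x y := by
  unfold jump
  split_ifs
  exacts [rfl, map_one f]

theorem b0 {d : ℕ} : (0 : Fin d → ℝ) ∈ ball 0 1 := mem_ball_self one_pos

theorem ev_sign {v : Fin 1 → ℝ} (hv : v ≠ 0) : ∀ᶠ w in 𝓝 v, (0 < w 0 ↔ 0 < v 0) := by
  have h0 : v 0 ≠ 0 := fun h => hv (funext fun i => by rw [Subsingleton.elim i 0]; exact h)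
  rcases h0.lt_or_gt with h | h
  · filter_upwards [(continuous_apply 0).continuousAt.eventually (gt_mem_nhds h)] with w hw
    exact iff_of_false hw.not_gt h.not_gt
  · filter_upwards [(continuous_apply 0).continuousAt.eventually (lt_mem_nhds h)] with w hw
    exact iff_of_true hw h

theorem sphere1 {v : Fin 1 → ℝ} (hv : ‖v‖ = 1) : v = if 0 < v 0 then 1 else -1 := by
  rw [norm_fin1] at hv
  funext i
  rw [Subsingleton.elim i 0]
  split_ifs with h
  · rwa [abs_of_pos h] at hv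
  · rw [abs_of_nonpos (not_lt.1 h)] at hv
    simp [← hv]

variable [TopologicalSpace E]

def IsWord (φ : S → (Fin 1 → ℝ) → E) (l : ℝ → E) (r : FreeGroup S) : Prop :=
  ∃ F, Triv (jump φ FreeGroup.of) l (Icc 0 4) F ∧ r = (F 0)⁻¹ * F 4

omit [TopologicalSpace E] in
theorem IsWord.lift {l : ℝ → E} {r : FreeGroup S} (h : IsWord φ l r) (γ : S → Γ) :
    ∃ F, Triv (jump φ γ) l (Icc 0 4) F ∧ FreeGroup.lift γ r = (F 0)⁻¹ * F 4 := by
  obtain ⟨F, h, rfl⟩ := h
  exact ⟨_, h.map (FreeGroup.lift γ) fun x y => by simp [jump_map], by simp⟩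

omit [TopologicalSpace E] in
theorem IsWord.eval {l : ℝ → E} {r : FreeGroup S} (h : IsWord φ l r) {γ : S → Γ} {F : ℝ → Γ}
    (hF : Triv (jump φ γ) l (Icc 0 4) F) : FreeGroup.lift γ r = (F 0)⁻¹ * F 4 := by
  obtain ⟨F', h1, h2⟩ := h.lift γ
  rw [h2]
  exact h1.unique isPreconnected_Icc hF (by norm_num) (by norm_num)

omit [TopologicalSpace E] in
theorem IsWord.kill {l : (Fin 2 → ℝ) → E} {r : FreeGroup S}
    (h : IsWord φ (fun t => l (sqLoop t)) r) {γ : S → Γ} (hr : FreeGroup.lift γ r = 1) :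
    ∃ F, Triv (jump φ γ) l (sphere 0 1) F := by
  obtain ⟨F', h1, h2⟩ := h.lift γ
  exact h1.descend (inv_mul_eq_one.1 (h2 ▸ hr))

namespace Att

variable (h : Att φ A B)
include h

theorem jump_mid (γ : S → Γ) (s : S) {w : Fin 1 → ℝ} (hw : w ∈ ball 0 1) :
    jump φ γ (φ s 0) (φ s w) = if 0 < w 0 then γ s else 1 := by
  unfold jump
  split_ifs with h1 h2 h2
  · rw [(h.inj _ _ _ b0 _ b0 h1.choose_spec.1).1]
  · obtain ⟨s', -, w', hw', e, h3⟩ := h1
    exact absurd ((h.inj _ _ _ hw' _ hw e).2 ▸ h3) h2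
  · exact absurd ⟨s, rfl, w, hw, rfl, h2⟩ h1
  · rfl

theorem not_mid {s : S} {v : Fin 1 → ℝ} (hv : v ∈ closedBall 0 1) (h0 : v ≠ 0) (s' : S) :
    φ s' 0 ≠ φ s v := fun e => h0 (h.inj' b0 hv e.symm).2

theorem not_mid' {x : E} (hx : x ∈ A) (s : S) : φ s 0 ≠ x := fun e => h.nmem s 0 b0 (e ▸ hx)

theorem jump_shift {m : E → E} (hi : Function.Injective m) (σ : S ≃ S)
    (hm : ∀ s v, m (φ s v) = φ (σ s) v) (γ : S → Γ) (x y : E) :
    jump φ (fun s => γ (σ s)) x y = jump φ γ (m x) (m y) := by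
  by_cases h1 : ∃ s, φ s 0 = x ∧ ∃ w ∈ ball 0 1, φ s w = y ∧ 0 < w 0
  · obtain ⟨s, rfl, w, hw, rfl, -⟩ := h1
    rw [hm, hm, h.jump_mid _ _ hw, h.jump_mid _ _ hw]
  · rw [jump, dif_neg h1, jump, dif_neg]
    rintro ⟨s, e, w, hw, e', h0⟩
    obtain ⟨s, rfl⟩ := σ.surjective s
    exact h1 ⟨s, hi (by rw [hm, e]), w, hw, hi (by rw [hm, e']), h0⟩

theorem word_shift {m : E → E} (hi : Function.Injective m) (σ : S ≃ S)
    (hm : ∀ s v, m (φ s v) = φ (σ s) v) {l : ℝ → E} {r : FreeGroup S} (hr : IsWord φ l r) :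
    IsWord φ (fun t => m (l t)) (FreeGroup.map σ r) := by
  obtain ⟨F, h1, rfl⟩ := hr
  exact ⟨_, h1.map (FreeGroup.map σ) fun x y => by
    simp [jump_map, h.jump_shift hi σ hm], by simp⟩

theorem edge (γ : S → Γ) (s : S) :
    Triv (jump φ γ) (φ s) (closedBall 0 1) fun w => if 0 < w 0 then γ s else 1 := by
  intro v hv
  by_cases h0 : v = 0
  · subst h0
    filter_upwards [nhdsWithin_le_nhds (isOpen_ball.mem_nhds b0)] with w hw
    simp [h.jump_mid γ s hw]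
  · filter_upwards [nhdsWithin_le_nhds (ev_sign h0)] with w hw
    simp only [jump_ne γ (h.not_mid hv h0), hw, mul_one]

theorem edge_val {γ : S → Γ} {F : E → Γ} (hF : Triv (jump φ γ) id B F) (s : S) :
    γ s = (F (φ s (-1)))⁻¹ * F (φ s 1) := by
  have := (h.edge γ s).unique (convex_closedBall _ _).isPreconnected
    (hF.comp (h.cont s) fun v hv => h.cell_mem s hv) (a := -1) (b := 1) (by simp) (by simp)
  simpa [zero_lt_one.not_gt] using this

theorem lc {γ : S → Γ} {F : E → Γ} (hF : Triv (jump φ γ) id B F) {x : E} (hx : x ∈ A) :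
    ∀ᶠ y in 𝓝[A] x, F y = F x :=
  ((hF x (h.sub hx)).filter_mono (nhdsWithin_mono _ h.sub)).mono fun y hy => by
    rw [hy, id, jump_ne γ (h.not_mid' hx), mul_one]

variable [Finite S] [T2Space E]

theorem coc (γ : S → Γ) : Coc (jump φ γ) B := by
  intro x _
  by_cases hx : ∀ s, φ s 0 ≠ x
  · filter_upwards [nhdsWithin_le_nhds (ev_ne _ hx)] with y hy
    simp [jump_ne γ hx, jump_ne γ hy]
  obtain ⟨s, rfl⟩ : ∃ s, φ s 0 = x := by simpa using hx
  filter_upwards [h.ev_cell s b0 (P := fun _ => True) (.of_forall fun _ => trivial)]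
  rintro _ ⟨w, hw, rfl, -⟩
  by_cases h0 : w = 0
  · subst h0
    simp [h.jump_mid γ s b0]
  filter_upwards [h.ev_cell s hw (ev_sign h0)]
  rintro _ ⟨z, hz, rfl, e⟩
  simp only [h.jump_mid γ s hz, h.jump_mid γ s hw, e, mul_one,
    jump_ne γ (h.not_mid (ball_subset_closedBall hw) h0)]

theorem exists_word {l : ℝ → E} (hl : Continuous l) (hB : ∀ t, l t ∈ B) : ∃ r, IsWord φ l r := by
  obtain ⟨F, hF⟩ := (h.coc FreeGroup.of).exists hl hB (Icc 0 4)
  exact ⟨_, F, hF, rfl⟩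

theorem cob {c : E → Γ} (hc : ∀ x ∈ A, ∀ᶠ y in 𝓝[A] x, c y = c x) :
    ∃ N, Triv (jump φ fun s => (c (φ s (-1)))⁻¹ * c (φ s 1)) id B N := by
  have : ∀ y, ∃ a : Γ, (y ∈ A → a = c y) ∧ ∀ s, ∀ w ∈ ball 0 1, φ s w = y →
      a = c (φ s (if 0 < w 0 then 1 else -1)) := fun y => by
    by_cases h1 : ∃ s, ∃ w ∈ ball 0 1, φ s w = y
    · obtain ⟨s, v, hv, rfl⟩ := h1
      refine ⟨c (φ s (if 0 < v 0 then 1 else -1)), fun h1 => absurd h1 (h.nmem s v hv),
        fun s' w hw e => ?_⟩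
      obtain ⟨rfl, rfl⟩ := h.inj _ _ _ hw _ hv e
      rfl
    · exact ⟨c y, fun _ => rfl, fun s w hw e => absurd ⟨s, w, hw, e⟩ h1⟩
  choose N n1 n2 using this
  have n3 : ∀ s, ∀ w ∈ closedBall 0 1, N (φ s w) = c (φ s (if 0 < w 0 then 1 else -1)) :=
    fun s w hw => by
      rcases h.cases s hw with h1 | h1
      · exact n2 _ s w h1 rfl
      · rw [n1 _ h1.2, ← sphere1 h1.1]
  refine ⟨N, fun x _ => h.ev (fun hx => ?_) fun s v hv e => ?_⟩
  · filter_upwards [hc x hx, self_mem_nhdsWithin] with y a b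
    rw [n1 _ b, n1 _ hx, id, jump_ne _ (h.not_mid' hx), mul_one, a]
  · subst e
    by_cases h0 : v = 0
    · subst h0
      filter_upwards [nhdsWithin_le_nhds (isOpen_ball.mem_nhds b0)] with w hw
      rw [id, id, h.jump_mid _ s hw, n2 _ s w hw rfl, n2 _ s 0 b0 rfl]
      split_ifs <;> simp_all
    · filter_upwards [nhdsWithin_le_nhds (ev_sign h0), self_mem_nhdsWithin] with w a b
      simp only [id, jump_ne _ (h.not_mid hv h0), mul_one, n3 s w b, n3 s v hv, a]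

theorem word_cob {c : E → Γ} (hc : ∀ x ∈ A, ∀ᶠ y in 𝓝[A] x, c y = c x) {l : ℝ → E}
    (hl : Continuous l) (hB : ∀ t, l t ∈ B) (h04 : l 0 = l 4) {r : FreeGroup S} (hr : IsWord φ l r) :
    FreeGroup.lift (fun s => (c (φ s (-1)))⁻¹ * c (φ s 1)) r = 1 := by
  obtain ⟨N, hN⟩ := h.cob hc
  rw [hr.eval (hN.comp hl.continuousOn fun t _ => hB t), h04, inv_mul_cancel]

theorem word_inc {l : (Fin 2 → ℝ) → E} (hl : Continuous fun t => l (sqLoop t))
    (hB : ∀ t, l (sqLoop t) ∈ B) {r : FreeGroup S} (hr : IsWord φ (fun t => l (sqLoop t)) r)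
    {s : S} {d : ℤ} (hd : Incidence l (φ s) d) :
    FreeGroup.lift (fun s' => Multiplicative.ofAdd (if s' = s then (1 : ℤ) else 0)) r =
      Multiplicative.ofAdd d := by
  obtain ⟨f, hf, h04, hs⟩ := hd
  rw [hr.eval (F := fun t => Multiplicative.ofAdd ⌈f t - 1 / 2⌉) fun t ht => ?_]
  · rw [← ofAdd_neg, ← ofAdd_add, show f 4 - 1 / 2 = f 0 - 1 / 2 + d by linarith, Int.ceil_add_intCast]
    congr 1
    ring
  by_cases h1 : l (sqLoop t) = φ s 0
  · obtain ⟨k, hk⟩ := (hs t ht).1 0 b0 h1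
    have h2 : ∀ᶠ u in 𝓝[Icc 0 4] t, |f u - f t| < 1 / 2 :=
      (Metric.tendsto_nhds.1 (hf t ht)) _ (by norm_num)
    have h3 : Tendsto (fun t => l (sqLoop t)) (𝓝 t) (𝓝[B] φ s 0) :=
      tendsto_nhdsWithin_iff.2 ⟨h1 ▸ hl.tendsto t, .of_forall hB⟩
    filter_upwards [h2, nhdsWithin_le_nhds (h3.eventually (h.ev_cell s b0 (P := fun _ => True)
      (.of_forall fun _ => trivial))), self_mem_nhdsWithin]
    rintro u a ⟨w, hw, e, -⟩ hu
    obtain ⟨k', hk'⟩ := (hs u hu).1 w hw e.symm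
    have h4 := ball1 hw
    rw [abs_lt, hk, hk'] at a
    simp only [Pi.zero_apply] at a hk
    obtain rfl : k' = k := by
      have h5 : (k' : ℝ) < k + 1 := by linarith [a.2, h4.1]
      have h6 : (k : ℝ) < k' + 1 := by linarith [a.1, h4.2]
      norm_cast at h5 h6
      omega
    rw [h1, ← e, h.jump_mid _ s hw, if_pos rfl, show f t - 1 / 2 = k' by linarith, Int.ceil_intCast]
    split_ifs with h5
    · rw [← ofAdd_add, (Int.ceil_eq_iff (z := k' + 1)).2
        ⟨by push_cast; linarith, by push_cast; linarith [h4.2]⟩]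
    · rw [mul_one, (Int.ceil_eq_iff (z := k')).2 ⟨by linarith [h4.1], by linarith⟩]
  · have h2 : f t - 1 / 2 < ⌈f t - 1 / 2⌉ := by
      refine (Int.le_ceil _).lt_of_ne fun e => ?_
      by_cases h3 : l (sqLoop t) ∈ φ s '' ball 0 1
      · obtain ⟨v, hv, e'⟩ := h3
        obtain ⟨k, hk⟩ := (hs t ht).1 v hv e'.symm
        have h4 := ball1 hv
        have h5 : (⌈f t - 1 / 2⌉ : ℝ) < k + 1 := by linarith [h4.2]
        have h6 : (k : ℝ) < ⌈f t - 1 / 2⌉ + 1 := by linarith [h4.1]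
        have h7 : ⌈f t - 1 / 2⌉ = k := by
          norm_cast at h5 h6
          omega
        rw [h7] at e
        refine h1 (e'.symm.trans (congrArg _ (funext fun i => ?_)))
        rw [Subsingleton.elim i 0, Pi.zero_apply]
        linarith
      · obtain ⟨k, hk⟩ := (hs t ht).2 h3
        have h5 : (2 * k : ℝ) = 2 * ⌈f t - 1 / 2⌉ + 1 := by linarith
        norm_cast at h5
        omega
    have h3 : ContinuousWithinAt (fun u => f u - 1 / 2) (Icc 0 4) t :=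
      (hf t ht).sub continuousWithinAt_const
    filter_upwards [h3.eventually (Ioo_mem_nhds (sub_lt_iff_lt_add.2 (Int.ceil_lt_add_one _)) h2)]
      with u hu
    rw [Int.ceil_eq_iff.2 ⟨hu.1, hu.2.le⟩, left_eq_mul, jump]
    split_ifs with h4 e
    exacts [absurd (by rw [← e, h4.choose_spec.1]) h1, rfl, rfl]

end Att

end Pool.Agent.Lib.MP_2add11_gt.FG
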