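import Pool.Agent.Lib.MP_2add11_gt.FG.Retr

/-!
Every system of relators of the algebraic model is realised by a pair.
-/

noncomputable section

namespace Pool.Agent.Lib.MP_2add11_gt.FG

open Set Metric Topology ML Classical

variable {G ι : Type} [Group G]

def blk (x : (G × ι) × Bool) : List ((G ⊕ ι) × Bool) :=
  [(.inl x.1.1, true), (.inr x.1.2, x.2), (.inl x.1.1, false)]

def dg : G ⊕ ι → G := Sum.elim id fun _ => 1

theorem nxt_blk (g : G) (x : (G × ι) × Bool) : (blk x).foldl (nxt dg) g = g := by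
  obtain ⟨x, _ | _⟩ := x <;> simp [blk, nxt, dg]

def pres (w : ι → List ((G × ι) × Bool)) (hw : ∀ i, ((1, i), true) ∈ w i) :
    Pres G (G ⊕ ι) ((G × G) ⊕ ι) where
  d := dg
  R := Sum.elim (fun p => [(.inl p.1, true), (.inl p.2, true), (.inl (p.1 * p.2), false)])
    fun i => (w i).flatMap blk
  closed := by
    rintro g (p | i)
    · simp [nxt, dg, mul_assoc]
    · simp only [Sum.elim_inr]
      induction w i with
      | nil => rfl
      | cons x l ih => rw [List.flatMap_cons, List.foldl_append, nxt_blk, ih]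
  occ := by
    rintro (a | i)
    · exact ⟨.inl (a, 1), by simp⟩
    · exact ⟨.inr i, List.mem_flatMap.2 ⟨_, hw i, by simp [blk]⟩⟩
  s0 := .inl 1

variable {w : ι → List ((G × ι) × Bool)} (hw : ∀ i, ((1, i), true) ∈ w i)

theorem R_inl (p : G × G) : (pres w hw).R (.inl p) =
    [(.inl p.1, true), (.inl p.2, true), (.inl (p.1 * p.2), false)] := rfl

theorem R_inr (i : ι) : (pres w hw).R (.inr i) = (w i).flatMap blk := rfl

omit [Group G] in
theorem len_blk (l : List ((G × ι) × Bool)) : ((l.flatMap blk).length : ℝ) = 3 * l.length := by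
  induction l with
  | nil => simp
  | cons x l ih =>
    rw [List.flatMap_cons, List.length_append, Nat.cast_add, ih]
    simp [blk]
    ring

theorem pres_pos (c : (G × G) ⊕ ι) : (0 : ℝ) < ((pres w hw).R c).length := by
  rcases c with p | i
  · simp [R_inl]
  · rw [R_inr, len_blk]
    have := List.length_pos_of_mem (hw i)
    positivity

omit [Group G] in
theorem wl_blk {X : Type} [TopologicalSpace X] {x0 : X} (a : G ⊕ ι → ML x0)
    (l : List ((G × ι) × Bool)) : wl a (l.flatMap blk) = rel (fun g => a (.inl g))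
      (fun g => rev (a (.inl g))) (fun i => a (.inr i)) (fun i => rev (a (.inr i))) l := by
  induction l with
  | nil => rfl
  | cons x l ih =>
    rw [List.flatMap_cons, rel_cons, ← ih]
    simp [blk, wl, mul_assoc]

theorem cnt_blk (h : G) (j : ι) (l : List ((G × ι) × Bool)) :
    (pres w hw).cnt h (.inr j) 1 (l.flatMap blk) = (fox j (FreeGroup.mk l)).coeff h := by
  induction l with
  | nil => simp [Pres.cnt, fox]
  | cons x l ih =>
    rw [List.flatMap_cons, fox_cons, MonoidAlgebra.coeff_add, Finsupp.add_apply, ← ih]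
    obtain ⟨⟨g, i⟩, _ | _⟩ := x <;> by_cases h1 : i = j <;>
      simp [blk, Pres.cnt, Pres.co, nxt, pres, dg, h1, Finsupp.single_apply, apply_ite Neg.neg]

variable [Finite G] [Finite ι]

def Lset : Set (pres w hw).K :=
  range fun x : (G × G) × Sq => (pres w hw).pr ((pres w hw).eF 1 (.inl x.1) x.2)

theorem mem_L_E (a : G) (s : ℝ) : (pres w hw).pr ((pres w hw).eE 1 (.inl a) s) ∈ Lset hw := by
  obtain ⟨z, -, e⟩ := (pres w hw).pr_E_F (c := .inl (a, 1)) (b := .inl a) (by simp [R_inl]) s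
  exact ⟨((a, 1), z), e.symm⟩

def LI : ∀ n, Set (Cel (G ⊕ ι) ((G × G) ⊕ ι) n)
  | 0 => univ
  | 1 => range Sum.inl
  | 2 => range Sum.inl
  | _ + 3 => univ

def Lsub : CWComplex.Subcomplex (univ : Set (pres w hw).K) where
  carrier := Lset hw
  I := LI
  closed' := by
    let : TopologicalSpace (G × G) := ⊥
    have : DiscreteTopology (G × G) := ⟨rfl⟩
    exact (isCompact_range (continuous_prod_of_discrete_left.2 fun p =>
      (pres w hw).continuous_pr.comp ((pres w hw).continuous_eF 1 (.inl p)))).isClosed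
  union' := by
    rw [empty_union]
    ext x
    simp only [mem_iUnion]
    constructor
    · rintro ⟨n, ⟨j, hj⟩, z, -, rfl⟩
      match n, j, hj with
      | 0, _, _ => exact mem_L_E hw 1 0
      | 1, _, ⟨a, rfl⟩ => exact mem_L_E hw a _
      | 2, _, ⟨p, rfl⟩ => exact ⟨(p, prj z), rfl⟩
      | _ + 3, j, _ => exact j.elim
    · rintro ⟨⟨p, z⟩, rfl⟩
      by_cases h : ‖z.1‖ = 1
      · rcases (pres w hw).pr_sphere (.inl p) h with e | ⟨l, hl, s, h0, h1, e⟩
        · exact ⟨0, ⟨(), trivial⟩, 0, by simp, e.symm⟩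
        · refine ⟨1, ⟨l.1, ?_⟩, vec1 s, Pres.vec1_mem h0 h1,
            (congrArg _ ((pres w hw).chi_vec1 _ _)).trans e.symm⟩
          simp only [R_inl, List.mem_cons, List.not_mem_nil, or_false] at hl
          rcases hl with rfl | rfl | rfl <;> exact ⟨_, rfl⟩
      · exact ⟨2, ⟨.inl p, p, rfl⟩, z.1, mem_ball_zero_iff.2
          (lt_of_le_of_ne (mem_closedBall_zero_iff.1 z.2) h),
          congrArg (fun v => (pres w hw).pr ((pres w hw).eF 1 (.inl p) v)) (prj_val z)⟩

theorem connected_L : IsConnected (Lset hw) := by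
  have : ConnectedSpace Sq := isConnected_iff_connectedSpace.1
    ((convex_closedBall _ _).isConnected (by simp))
  refine ⟨⟨_, mem_L_E hw 1 0⟩, isPreconnected_of_forall (pres w hw).x0 ?_⟩
  rintro _ ⟨⟨p, z⟩, rfl⟩
  refine ⟨range fun z => (pres w hw).pr ((pres w hw).eF 1 (.inl p) z), ?_,
    ⟨⟨1, by simp⟩, (pres w hw).pr_rest _ (.inr (.inl rfl))⟩, ⟨z, rfl⟩,
    isPreconnected_range (by fun_prop)⟩
  rintro _ ⟨z, rfl⟩
  exact ⟨(p, z), rfl⟩

open unitInterval

theorem retract_L [Fintype ι] (hn : NS fun i => FreeGroup.mk (w i))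
    (hu : IsUnit (jac fun i => FreeGroup.mk (w i))) :
    ∃ H : C(I × (pres w hw).K, (pres w hw).K), (∀ x, H (0, x) = x) ∧ (∀ x, H (1, x) ∈ Lset hw) ∧
      ∀ s, ∀ x ∈ Lset hw, H (s, x) = x := by
  let P := pres w hw
  have e1 : ∀ i, (cst (3 * (w i).length) (by positivity) : ML P.x0) =
      cst (P.R (.inr i)).length (pres_pos hw _).le := fun i =>
    ext' (fun _ => rfl) (len_blk _).symm
  obtain ⟨A, F, hA, F0, F1, F2, F3⟩ := square (t := fun g => P.loopE (.inl g))
    (y := fun i => P.loopE (.inr i)) hn hu (fun _ => rfl) (fun _ => rfl)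
    (fun g h => ⟨((P.facePath (.inl (g, h)) (pres_pos hw _)).trans (shrink _ _)).cast
      (by simp [wl, P, R_inl]) rfl⟩)
    fun i => (P.facePath (.inr i) (pres_pos hw _)).cast (wl_blk _ _).symm (e1 i)
  obtain ⟨H, hH⟩ := P.deform (pres_pos hw) (fun s => Sum.elim (fun g => P.loopE (.inl g)) (A s))
    (Sum.elim (fun p => ⟨fun x => P.facePath (.inl p) (pres_pos hw _) x.2, by fun_prop⟩) F)
    (by rintro s (g | i); exacts [rfl, hA s i])
    (by
      rintro (p | i) s
      · exact (P.facePath _ (pres_pos hw _)).source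
      · exact (F1 i s).trans (wl_blk (Sum.elim (fun g => P.loopE (.inl g)) (A s)) _).symm)
    (by
      rintro (p | i) s u
      · exact congrArg (fun a => a.f u) (P.facePath _ (pres_pos hw _)).target
      · exact congrArg (fun a => a.f u) (F2 i s))
  refine ⟨H, fun x => ?_, fun x => ?_, ?_⟩
  · obtain ⟨c, z, rfl⟩ := P.exists_pr x
    obtain ⟨v, -, h⟩ := hH 0 c z
    rcases c with p | i
    exacts [h rfl, h (F0 i v)]
  · obtain ⟨c, z, rfl⟩ := P.exists_pr x
    obtain ⟨v, ⟨u, h1⟩, h⟩ := hH 1 c z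
    rcases c with p | i
    · exact ⟨(p, z), (h rfl).symm⟩
    · rw [h1]
      rcases F3 i v u with e | ⟨g, s, e⟩
      · exact e.symm ▸ mem_L_E hw 1 0
      · exact e.symm ▸ mem_L_E hw g s
  · rintro s _ ⟨⟨p, z⟩, rfl⟩
    obtain ⟨v, -, h⟩ := hH s (.inl p) z
    exact h rfl

def cone (s u : ℝ) : Sq := prj ![2 * (((1 - s) * (1 + u) + 3 * s * clamp (3 * u - 1)) / 3) - 1,
  2 * (s * (clamp (3 * u) - clamp (3 * u - 2))) - 1]

omit [Finite G] [Finite ι] in
theorem face_prj (p : G × G) {x y : ℝ} (h0 : 0 ≤ x) (h1 : x ≤ 3) (hy : y = -1) :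
    (pres w hw).face 1 (.inl p) (prj ![2 * (x / 3) - 1, y]).1 =
      (pres w hw).wp 1 ((pres w hw).R (.inl p)) x := by
  rw [Pres.face_bottom _ _ _ (by simp [prj, hy])]
  simp only [prj, Matrix.cons_val_zero]
  rw [min_eq_right (by linarith), max_eq_right (by linarith)]
  congr 1
  simp [R_inl]
  ring

omit [Finite G] [Finite ι] in
theorem cone_spec (g a : G) {s u : ℝ} (h0 : 0 ≤ s) (h1 : s ≤ 1) (u0 : 0 ≤ u) (u1 : u ≤ 1) :
    (pres w hw).face 1 (.inl (g, a)) (cone 0 u).1 = (pres w hw).edge g (.inl a) u ∧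
    (pres w hw).face 1 (.inl (g, a)) (cone 1 u).1 = (pres w hw).vtx 1 ∧
    (pres w hw).face 1 (.inl (g, a)) (cone s 0).1 = (pres w hw).edge 1 (.inl g) (1 - s) ∧
    (pres w hw).face 1 (.inl (g, a)) (cone s 1).1 = (pres w hw).edge 1 (.inl (g * a)) (1 - s) := by
  refine ⟨?_, ?_, ?_, ?_⟩
  · rw [cone, face_prj hw _ (by linarith) (by linarith) (by simp), R_inl,
      Pres.wp_cons _ _ _ _ (by linarith), Pres.wp, if_pos (by linarith),
      clamp_of_mem (by linarith) (by linarith)]
    simp [Pres.lp, nxt, pres, dg]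
  · refine Pres.face_rest _ _ _ ?_
    rcases le_total (3 * u) 1 with h | h
    · exact .inl (by simp [cone, prj, clamp_of_le (show 3 * u - 1 ≤ 0 by linarith)])
    · rcases le_total (3 * u) 2 with h' | h'
      · refine .inr (.inr ?_)
        simp [cone, prj, clamp_of_le (show 3 * u - 2 ≤ 0 by linarith), clamp_of_ge h]
        norm_num
      · refine .inr (.inl ?_)
        simp [cone, prj, clamp_of_ge (show 1 ≤ 3 * u - 1 by linarith)]
        norm_num
  · have c1 : clamp (3 * 0 - 1) = 0 := clamp_of_le (by norm_num)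
    have c2 : clamp (3 * 0 - 2) = 0 := clamp_of_le (by norm_num)
    have c3 : clamp (3 * 0) = 0 := clamp_of_le (by norm_num)
    rw [cone, c1, c2, c3, face_prj hw _ (by linarith) (by linarith) (by simp), R_inl, Pres.wp,
      if_pos (by linarith), clamp_of_mem (by linarith) (by linarith)]
    simp [Pres.lp]
  · have c1 : clamp (3 * 1 - 1) = 1 := clamp_of_ge (by norm_num)
    have c2 : clamp (3 * 1 - 2) = 1 := clamp_of_ge (by norm_num)
    have c3 : clamp (3 * 1) = 1 := clamp_of_ge (by norm_num)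
    rw [cone, c1, c2, c3, face_prj hw _ (by linarith) (by linarith) (by simp), R_inl,
      Pres.wp_cons _ _ _ _ (by linarith), Pres.wp_cons _ _ _ _ (by linarith), Pres.wp,
      if_pos (by linarith), clamp_of_mem (by linarith) (by linarith)]
    simp [Pres.lp, nxt, pres, dg]
    congr 1
    ring

theorem simply_L : SimplyConnectedSpace ((pres w hw).pr ⁻¹' Lset hw) := by
  let P := pres w hw
  let φ : G × (G × G) → Sq → P.pr ⁻¹' Lset hw := fun c z =>
    ⟨P.eF c.1 (.inl c.2) z, (c.2, z), (P.pr_eF _ _ z).symm⟩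
  have hφ : ∀ c, Continuous (φ c) := fun c => Continuous.subtype_mk (by fun_prop) _
  let : TopologicalSpace (G × G) := ⊥
  have : DiscreteTopology (G × G) := ⟨rfl⟩
  let q : (G × G) × I → P.pr ⁻¹' Lset hw := fun x =>
    ⟨P.eE x.1.1 (.inl x.1.2) x.2, by rw [mem_preimage, P.pr_eE]; exact mem_L_E hw _ _⟩
  have hqv : ∀ x, (q x).1.1 = P.edge x.1.1 (.inl x.1.2) x.2 := fun x =>
    congrArg (P.edge _ _) (clamp_of_mem (nonneg _) (le_one _))
  have hqc : Continuous q := continuous_prod_of_discrete_left.2 fun p =>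
    Continuous.subtype_mk (show Continuous fun s : I => P.eE p.1 (.inl p.2) s by fun_prop) _
  have hq : IsQuotientMap (rangeFactorization q) :=
    hqc.rangeFactorization.isClosedMap.isQuotientMap hqc.rangeFactorization
      rangeFactorization_surjective
  let Fd : (G × G) × (I × I) → P.pr ⁻¹' Lset hw := fun x => φ (1, x.1) (cone x.2.1 x.2.2)
  have hFd : Continuous Fd := continuous_prod_of_discrete_left.2 fun p =>
    (hφ (1, p)).comp (show Continuous fun x : I × I => cone x.1 x.2 by unfold cone; fun_prop)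
  have hv : ∀ (s : I) (x : (G × G) × I), ¬((0 : ℝ) < x.2 ∧ (x.2 : ℝ) < 1) → ∃ k,
      P.edge x.1.1 (.inl x.1.2) x.2 = P.vtx k ∧
      (Fd (x.1, s, x.2)).1.1 = P.edge 1 (.inl k) (1 - s) := by
    rintro s ⟨⟨g, a⟩, u⟩ h
    have := cone_spec hw g a (nonneg s) (le_one s) (nonneg u) (le_one u)
    rcases (nonneg u).eq_or_lt with h0 | h0
    · obtain rfl : u = 0 := Subtype.ext h0.symm
      exact ⟨g, P.edge_zero _ _, this.2.2.1⟩
    · obtain rfl : u = 1 := Subtype.ext (le_antisymm (le_one u) (not_lt.1 fun h1 => h ⟨h0, h1⟩))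
      exact ⟨g * a, P.edge_one _ _, this.2.2.2⟩
  obtain ⟨C, hC⟩ := descend hq (fun x => Fd (x.2.1, x.1, x.2.2)) (hFd.comp (by fun_prop)) (by
    intro s x x' e
    have e' := (hqv x).symm.trans ((congrArg (fun y => y.1.1.1) e).trans (hqv x'))
    have inj : ∀ {x x' : (G × G) × I}, (0 : ℝ) < x.2 ∧ (x.2 : ℝ) < 1 →
        P.edge x.1.1 (.inl x.1.2) x.2 = P.edge x'.1.1 (.inl x'.1.2) x'.2 → x = x' := fun h e => by
      obtain ⟨a, b, c⟩ := Pres.edge_inj h.1 h.2 e
      exact Prod.ext (Prod.ext a (Sum.inl_injective b)) (Subtype.ext c)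
    by_cases h : (0 : ℝ) < x.2 ∧ (x.2 : ℝ) < 1
    · rw [inj h e']
    · by_cases h' : (0 : ℝ) < x'.2 ∧ (x'.2 : ℝ) < 1
      · rw [inj h' e'.symm]
      · obtain ⟨k, h1, h2⟩ := hv s x h
        obtain ⟨k', h1', h2'⟩ := hv s x' h'
        obtain rfl := Pres.vtx_inj (h1.symm.trans (e'.trans h1'))
        exact Subtype.ext (Subtype.ext (h2.trans h2'.symm)))
  refine simply_of_cells φ hφ ?_ ?_ (q ((1, 1), 0)) (B := range q) ?_ C (fun y => ?_) fun y => ?_
  · rintro ⟨y, ⟨p, z⟩, e⟩
    obtain ⟨g, e'⟩ := Pres.pr_eq e.symm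
    exact ⟨(g * 1, p), z, Subtype.ext (Subtype.ext ((P.sh_face _ _ _ _).symm.trans e'))⟩
  · intro i j z z' h e
    have := Pres.face_inj (Sq.rho_ne h) (congrArg (fun y => y.1.1) e)
    exact ⟨Prod.ext this.1 (Sum.inl_injective this.2.1), Subtype.ext this.2.2⟩
  · intro c z hz
    obtain ⟨u, -, -, e⟩ := P.face_sphere c.1 (.inl c.2) hz
    rcases P.wp_cases c.1 (P.R (.inl c.2)) ((P.R (.inl c.2)).length * u) with
      ⟨k, e'⟩ | ⟨l, hl, k, s, h0, h1, e'⟩
    · exact ⟨((k, 1), 0), Subtype.ext (Subtype.ext ((hqv _).trans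
        ((P.edge_zero _ _).trans (e.trans e').symm)))⟩
    · obtain ⟨a, ha⟩ : ∃ a, l.1 = .inl a := by
        simp only [P, R_inl, List.mem_cons, List.not_mem_nil, or_false] at hl
        rcases hl with rfl | rfl | rfl <;> exact ⟨_, rfl⟩
      rw [ha] at e'
      exact ⟨((k, a), ⟨s, h0, h1⟩), Subtype.ext (Subtype.ext ((hqv _).trans (e'.trans e.symm)))⟩
  · obtain ⟨⟨⟨g, a⟩, u⟩, rfl⟩ := rangeFactorization_surjective y
    exact (hC _ _).trans (Subtype.ext (Subtype.ext ((cone_spec hw g a le_rfl zero_le_one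
      (nonneg u) (le_one u)).1.trans (hqv ((g, a), u)).symm)))
  · obtain ⟨⟨⟨g, a⟩, u⟩, rfl⟩ := rangeFactorization_surjective y
    exact (hC _ _).trans (Subtype.ext (Subtype.ext ((cone_spec hw g a le_rfl zero_le_one
      (nonneg u) (le_one u)).2.1.trans ((hqv _).trans (P.edge_zero _ _)).symm)))

def pairOf [Fintype ι] (hn : NS fun i => FreeGroup.mk (w i))
    (hu : IsUnit (jac fun i => FreeGroup.mk (w i))) : Pair G where
  K := (pres w hw).K
  finite := (pres w hw).finiteK
  L := Lsub hw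
  connected := connected_L hw
  retract := retract_L hw hn hu
  dim := fun k hk i => by
    obtain ⟨k, rfl⟩ := Nat.exists_eq_add_of_le' hk
    exact trivial
  E := (pres w hw).E
  p := (pres w hw).pr
  simply := by
    obtain ⟨H, h0, h1, h2⟩ := retract_L hw hn hu
    have := simply_L hw
    exact simplyConnected_of_retract (pres w hw).pr_cover.isCoveringMap H h0 h1 h2
  cover := (pres w hw).pr_cover

def notInl (α β : Type) : β ≃ {x : α ⊕ β // x ∉ range Sum.inl} :=
  Equiv.ofBijective (fun b => ⟨.inr b, by simp⟩) ⟨fun _ _ h => by simpa using h, by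
    rintro ⟨a | b, h⟩
    · exact absurd ⟨a, rfl⟩ h
    · exact ⟨b, rfl⟩⟩

theorem pairOf_torsion [Fintype ι] (hn : NS fun i => FreeGroup.mk (w i))
    (hu : IsUnit (jac fun i => FreeGroup.mk (w i))) :
    (pairOf hw hn hu).HasTorsion (-(whInv G).c (jac fun i => FreeGroup.mk (w i))) := by
  have e0 : IsEmpty ((pairOf hw hn hu).Cell 0) := ⟨fun x => x.2 trivial⟩
  let e := (Fintype.equivFin ι).symm
  let e2 : ι ≃ (pairOf hw hn hu).Cell 2 := notInl (G × G) ι
  refine ⟨_, e.trans (notInl G ι), (Equiv.sumEmpty _ _).trans (e2.symm.trans e.symm),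
    fun k i => (pres w hw).chi k i.1, (isUnit_sub e hu).unit, fun _ v => e0.elim v,
    fun k i => ⟨((pres w hw).continuous_chi k i.1).continuousOn, fun _ _ => rfl⟩, ?_,
    fun _ v => e0.elim v, fun v => e0.elim v, ?_⟩
  · intro c j g
    obtain ⟨i, rfl⟩ := e2.surjective c
    have := (pres w hw).incidence g (.inr (e j)) (.inr i)
    rw [R_inr, cnt_blk] at this
    simp only [IsUnit.unit_spec, Matrix.submatrix_apply, Equiv.trans_apply,
      Equiv.sumEmpty_apply_inl, Equiv.symm_apply_apply, Equiv.apply_symm_apply]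
    exact this
  · rw [← whInv_val, IsUnit.unit_spec, (whInv G).sub e hu]

omit [Finite ι] in
theorem mem_whStar {x : Wh G} (hx : x ∈ Alg (whInv G)) : -x ∈ WhStar G := by
  obtain ⟨ι, _, _, r, h1, h2, rfl⟩ := hx
  have : ∀ i, ∃ l, ((1, i), true) ∈ l ∧ FreeGroup.mk l = r i := fun i =>
    ⟨((1, i), true) :: ((1, i), false) :: (r i).toWord, List.mem_cons_self, by
      refine Eq.trans ?_ (FreeGroup.mk_toWord (x := r i))
      exact Quot.sound FreeGroup.Red.Step.cons_not⟩
  choose w hw hr using this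
  obtain rfl : r = fun i => FreeGroup.mk (w i) := funext fun i => (hr i).symm
  obtain rfl : ‹DecidableEq ι› = fun a b => propDecidable (a = b) := Subsingleton.elim _ _
  exact ⟨pairOf hw h1 h2, pairOf_torsion hw h1 h2⟩

end Pool.Agent.Lib.MP_2add11_gt.FG
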