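import Pool.Agent.Lib.MP_2add11_gt.FG.Comm

/-!
Rational representations of a finite group with equal characters are isomorphic; integral form.
-/

noncomputable section

namespace Pool.Agent.Lib.MP_2add11_gt.FG

open Representation Module

variable {G : Type} [Group G] [Finite G]

omit [Finite G] in
theorem rep_split {V : Type} [AddCommGroup V] [Module ℚ V] [FiniteDimensional ℚ V]
    (ρ : Representation ℚ G V) (A B : Subrepresentation ρ) (h : IsCompl A B) :
    IsCompl A.toSubmodule B.toSubmodule ∧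
    ρ.character = A.toRepresentation.character + B.toRepresentation.character ∧
    ∃ e : (A.toSubmodule × B.toSubmodule) ≃ₗ[ℚ] V, ∀ g x,
      e (A.toRepresentation g x.1, B.toRepresentation g x.2) = ρ g (e x) := by
  have h' : IsCompl A.toSubmodule B.toSubmodule :=
    ⟨disjoint_iff.2 (congrArg Subrepresentation.toSubmodule h.inf_eq_bot),
      codisjoint_iff.2 (congrArg Subrepresentation.toSubmodule h.sup_eq_top)⟩
  have he : ∀ g (x : A.toSubmodule × B.toSubmodule), Submodule.prodEquivOfIsCompl _ _ h'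
      (A.toRepresentation g x.1, B.toRepresentation g x.2) =
      ρ g (Submodule.prodEquivOfIsCompl _ _ h' x) := fun g x => by
    simp [Submodule.coe_prodEquivOfIsCompl', Subrepresentation.toRepresentation]
  refine ⟨h', ?_, _, he⟩
  rw [← char_iso (Representation.Equiv.mk (ρ := A.toRepresentation.prod B.toRepresentation) (σ := ρ)
    (Submodule.prodEquivOfIsCompl _ _ h') fun g => LinearMap.ext (he g))]
  ext g
  exact LinearMap.trace_prodMap' _ _

theorem iso_of_char (n : ℕ) : ∀ {V W : Type} [AddCommGroup V] [Module ℚ V] [FiniteDimensional ℚ V]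
    [AddCommGroup W] [Module ℚ W] [FiniteDimensional ℚ W] (ρ : Representation ℚ G V)
    (σ : Representation ℚ G W), finrank ℚ V = n → ρ.character = σ.character →
    ∃ e : V ≃ₗ[ℚ] W, ∀ g v, e (ρ g v) = σ g (e v) := by
  have := Fintype.ofFinite G
  have : NeZero (Nat.card G : ℚ) := ⟨Nat.cast_ne_zero.2 Nat.card_pos.ne'⟩
  have : Invertible (Nat.card G : ℚ) := invertibleOfNonzero (NeZero.ne _)
  induction n using Nat.strong_induction_on with
  | _ n ih =>
  intro V W _ _ _ _ _ _ ρ σ hn h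
  rcases subsingleton_or_nontrivial V with hV | hV
  · have h1 := congrFun h 1
    rw [char_one, char_one, finrank_zero_of_subsingleton, eq_comm, Nat.cast_inj,
      finrank_zero_iff] at h1
    exact ⟨LinearEquiv.ofSubsingleton V W, fun _ _ => Subsingleton.elim _ _⟩
  have h1 := card_inv_mul_sum_char_mul_char_eq_finrank ρ σ
  rw [← h, card_inv_mul_sum_char_mul_char_eq_finrank, Nat.cast_inj] at h1
  have : Nontrivial (IntertwiningMap ρ ρ) := ⟨IntertwiningMap.id ρ, 0, fun e => by
    obtain ⟨v, hv⟩ := exists_ne (0 : V)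
    exact hv (congrArg (fun f : IntertwiningMap ρ ρ => f v) e)⟩
  have : Nontrivial (IntertwiningMap ρ σ) := by
    rw [← finrank_pos_iff (R := ℚ), ← h1]
    exact finrank_pos
  obtain ⟨f, hf⟩ := exists_ne (0 : IntertwiningMap ρ σ)
  obtain ⟨K', hK⟩ := exists_isCompl f.ker
  obtain ⟨I', hI⟩ := exists_isCompl f.range
  obtain ⟨c1, x1, e1, he1⟩ := rep_split ρ _ _ hK
  obtain ⟨-, x2, e2, he2⟩ := rep_split σ _ _ hI.symm
  let φ : K'.toSubmodule →ₗ[ℚ] f.range.toSubmodule :=
    (f.toLinearMap.domRestrict K'.toSubmodule).codRestrict _ fun v => ⟨v, rfl⟩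
  have hφ : Function.Bijective φ := by
    refine ⟨(injective_iff_map_eq_zero _).2 fun v hv => Subtype.ext ?_, ?_⟩
    · exact (Submodule.disjoint_def.1 c1.disjoint) v (congrArg Subtype.val hv) v.2
    · rintro ⟨_, v, rfl⟩
      obtain ⟨a, ha, b, hb, rfl⟩ := Submodule.mem_sup.1 (c1.sup_eq_top ▸ Submodule.mem_top (x := v))
      refine ⟨⟨b, hb⟩, Subtype.ext ?_⟩
      change f.toLinearMap b = f.toLinearMap (a + b)
      rw [map_add, show f.toLinearMap a = 0 from ha, zero_add]
  have hφ' : ∀ g v, φ (K'.toRepresentation g v) = f.range.toRepresentation g (φ v) := fun g v =>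
    Subtype.ext (f.isIntertwining _ _ g v)
  have x3 := char_iso (Representation.Equiv.mk (ρ := K'.toRepresentation) (σ := f.range.toRepresentation)
    (LinearEquiv.ofBijective φ hφ) fun g => LinearMap.ext (hφ' g))
  rw [x1, x2, x3, add_left_inj] at h
  obtain ⟨e3, he3⟩ := ih _ (hn ▸ Submodule.finrank_lt (s := f.ker.toSubmodule) fun e => hf (by
    ext v
    exact (e ▸ Submodule.mem_top : v ∈ f.ker.toSubmodule))) _ _ rfl h
  refine ⟨e1.symm.trans ((e3.prodCongr (LinearEquiv.ofBijective φ hφ)).trans e2), fun g v => ?_⟩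
  obtain ⟨x, rfl⟩ := e1.surjective v
  simp [← he1, ← he2, he3, hφ']

open Matrix

theorem int_equiv {m m' : Type} [Fintype m] [DecidableEq m] [Fintype m'] [DecidableEq m']
    (ρ : G →* Matrix m m ℤ) (σ : G →* Matrix m' m' ℤ) (h : ∀ g, (ρ g).trace = (σ g).trace) :
    ∃ (X : Matrix m' m ℤ) (Y : Matrix m m' ℤ) (d : ℕ), 0 < d ∧ X * Y = (d : ℤ) • 1 ∧
      Y * X = (d : ℤ) • 1 ∧ ∀ g, X * ρ g = σ g * X := by
  let ρ' : Representation ℚ G (m → ℚ) :=
    (toLinAlgEquiv' (R := ℚ)).toMonoidHom.comp ((Int.castRingHom ℚ).mapMatrix.toMonoidHom.comp ρ)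
  let σ' : Representation ℚ G (m' → ℚ) :=
    (toLinAlgEquiv' (R := ℚ)).toMonoidHom.comp ((Int.castRingHom ℚ).mapMatrix.toMonoidHom.comp σ)
  have r1 : ∀ g, ρ' g = toLin' ((ρ g).map (Int.castRingHom ℚ)) := fun _ => rfl
  have r2 : ∀ g, σ' g = toLin' ((σ g).map (Int.castRingHom ℚ)) := fun _ => rfl
  obtain ⟨e, he⟩ := iso_of_char _ ρ' σ' rfl (funext fun g => by
    rw [character, character, r1, r2, trace_toLin'_eq, trace_toLin'_eq, ← AddMonoidHom.map_trace,
      ← AddMonoidHom.map_trace, h])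
  have clear : ∀ {a b : Type} [Finite a] [Finite b] (Z : Matrix a b ℚ), ∃ (k : ℕ) (Z' : Matrix a b ℤ),
      0 < k ∧ Z'.map (Int.castRingHom ℚ) = (k : ℚ) • Z := fun {a b} _ _ Z => by
    have := Fintype.ofFinite (a × b)
    refine ⟨∏ x : a × b, (Z x.1 x.2).den, .of fun i j => ((∏ x : a × b, (Z x.1 x.2).den) /
      (Z i j).den : ℕ) * (Z i j).num, Finset.prod_pos fun x _ => (Z x.1 x.2).den_pos, ?_⟩
    ext i j
    obtain ⟨q, hq⟩ := Finset.dvd_prod_of_mem (fun x : a × b => (Z x.1 x.2).den)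
      (Finset.mem_univ (i, j))
    simp only [map_apply, of_apply, Matrix.smul_apply, smul_eq_mul, eq_intCast]
    rw [hq, Nat.mul_div_cancel_left _ (Z i j).den_pos]
    push_cast
    rw [mul_right_comm, Rat.den_mul_eq_num, mul_comm]
  obtain ⟨a, X, ha, hX⟩ := clear (LinearMap.toMatrix' e.toLinearMap)
  obtain ⟨b, Y, hb, hY⟩ := clear (LinearMap.toMatrix' e.symm.toLinearMap)
  have inj : ∀ {a b : Type} {Z Z' : Matrix a b ℤ},
      Z.map (Int.castRingHom ℚ) = Z'.map (Int.castRingHom ℚ) → Z = Z' := fun h =>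
    map_injective (Int.cast_injective (α := ℚ)) h
  refine ⟨X, Y, a * b, mul_pos ha hb, inj ?_, inj ?_, fun g => inj ?_⟩
  · rw [Matrix.map_mul, hX, hY, Matrix.smul_mul, Matrix.mul_smul, ← LinearMap.toMatrix'_comp]
    ext i j
    rw [map_apply, Matrix.smul_apply (_ : ℤ)]
    simp [one_apply]
  · rw [Matrix.map_mul, hX, hY, Matrix.smul_mul, Matrix.mul_smul, ← LinearMap.toMatrix'_comp]
    ext i j
    rw [map_apply, Matrix.smul_apply (_ : ℤ)]
    simp [one_apply, mul_comm]
  · rw [Matrix.map_mul, Matrix.map_mul, hX, Matrix.smul_mul, Matrix.mul_smul,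
      ← LinearMap.toMatrix'_toLin' ((ρ g).map _), ← LinearMap.toMatrix'_toLin' ((σ g).map _),
      ← LinearMap.toMatrix'_comp, ← LinearMap.toMatrix'_comp, ← r1, ← r2]
    congr 2
    exact LinearMap.ext (he g)

end Pool.Agent.Lib.MP_2add11_gt.FG
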