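import Pool.Agent.Lib.MP_2add11_gt.FG.Cells

/-!
Deformations of a presentation complex from squares of Moore loops; incidence numbers.
-/

noncomputable section

namespace Pool.Agent.Lib.MP_2add11_gt.FG

open Set Metric Topology unitInterval ML Classical

section
variable {S X : Type} [TopologicalSpace X] {x0 : X}

def wl (a : S → ML x0) (w : List (S × Bool)) : ML x0 :=
  (w.map fun l => if l.2 then a l.1 else rev (a l.1)).prod

theorem wl_cons (a : S → ML x0) (l : S × Bool) (w : List (S × Bool)) :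
    wl a (l :: w) = (if l.2 then a l.1 else rev (a l.1)) * wl a w := rfl

theorem letter_len {a : S → ML x0} (ha : ∀ b, (a b).len = 1) (l : S × Bool) :
    (if l.2 then a l.1 else rev (a l.1)).len = 1 := by
  split_ifs <;> exact ha _

theorem wl_len {a : S → ML x0} (ha : ∀ b, (a b).len = 1) (w : List (S × Bool)) :
    (wl a w).len = w.length := by
  induction w with
  | nil => simp [wl]
  | cons l w ih => rw [wl_cons, mul_len, letter_len ha, ih]; push_cast [List.length_cons]; ring

end

namespace Pres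

variable {G S T : Type} [Group G] (P : Pres G S T)

def co (h : G) (b : S) (g : G) (l : S × Bool) : ℤ :=
  if l.1 = b then (if l.2 then (if g = h then 1 else 0) else if g * (P.d b)⁻¹ = h then -1 else 0)
  else 0

def cnt (h : G) (b : S) : G → List (S × Bool) → ℤ
  | _, [] => 0
  | g, l :: w => P.co h b g l + cnt h b (nxt P.d g l) w

def lam (h : G) (b : S) : G → List (S × Bool) → ℝ → ℝ
  | _, [], _ => 0
  | g, l :: w, s => P.co h b g l * clamp s + lam h b (nxt P.d g l) w (s - 1)

theorem continuous_lam (h : G) (b : S) (g : G) (w : List (S × Bool)) :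
    Continuous (P.lam h b g w) := by
  induction w generalizing g with
  | nil => exact continuous_const
  | cons l w ih =>
    have := ih (nxt P.d g l)
    change Continuous fun s => P.co h b g l * clamp s + P.lam h b (nxt P.d g l) w (s - 1)
    fun_prop

theorem lam_le (h : G) (b : S) (g : G) (w : List (S × Bool)) {s : ℝ} (hs : s ≤ 0) :
    P.lam h b g w s = 0 := by
  induction w generalizing g s with
  | nil => rfl
  | cons l w ih => rw [lam, clamp_of_le hs, ih _ (by linarith)]; simp

theorem lam_ge (h : G) (b : S) (g : G) (w : List (S × Bool)) {s : ℝ} (hs : w.length ≤ s) :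
    P.lam h b g w s = P.cnt h b g w := by
  induction w generalizing g s with
  | nil => simp [lam, cnt]
  | cons l w ih =>
    have : (0 : ℝ) ≤ w.length := Nat.cast_nonneg _
    simp only [List.length_cons, Nat.cast_add, Nat.cast_one] at hs
    rw [lam, cnt, clamp_of_ge (by linarith), ih _ (by linarith)]
    simp

theorem lam_spec (h : G) (b : S) (g : G) (w : List (S × Bool)) (s : ℝ) :
    (∀ r, 0 < r → r < 1 → P.edge h b r = P.wp g w s → ∃ k : ℤ, P.lam h b g w s = r + k) ∧
    ((∀ r, 0 < r → r < 1 → P.edge h b r ≠ P.wp g w s) → ∃ k : ℤ, P.lam h b g w s = k) := by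
  induction w generalizing g s with
  | nil =>
    refine ⟨fun r h0 h1 e => ?_, fun _ => ⟨0, by simp [lam]⟩⟩
    rw [wp, ← P.edge_zero g b] at e
    exact absurd (edge_inj h0 h1 e).2.2 h0.ne'
  | cons l w ih =>
    rw [wp, lam]
    split_ifs with hs
    · rw [lam_le _ _ _ _ _ (by linarith), add_zero]
      have c0 := clamp_nonneg s
      have c1 := clamp_le_one s
      generalize clamp s = c at c0 c1
      refine ⟨fun r h0 h1 e => ?_, fun H => ?_⟩
      · obtain ⟨b', _ | _⟩ := l
        · obtain ⟨e1, rfl, e3⟩ := edge_inj h0 h1 e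
          exact ⟨-1, by simp [co, e1, e3]; ring⟩
        · obtain ⟨e1, rfl, e3⟩ := edge_inj h0 h1 e
          exact ⟨0, by simp [co, e1, e3]⟩
      · rcases c0.eq_or_lt with rfl | c0
        · exact ⟨0, by simp⟩
        rcases c1.eq_or_lt with rfl | c1
        · exact ⟨P.co h b g l, by simp⟩
        refine ⟨0, ?_⟩
        obtain ⟨b', ε⟩ := l
        by_cases hb : b' = b
        · subst hb
          cases ε
          · have : g * (P.d b')⁻¹ ≠ h := by
              rintro rfl
              exact H (1 - c) (by linarith) (by linarith) rfl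
            simp [co, this]
          · have : g ≠ h := by
              rintro rfl
              exact H c c0 c1 rfl
            simp [co, this]
        · simp [co, hb]
    · rw [clamp_of_ge (by linarith), mul_one]
      refine ⟨fun r h0 h1 e => ?_, fun H => ?_⟩
      · obtain ⟨k, hk⟩ := (ih _ _).1 r h0 h1 e
        exact ⟨P.co h b g l + k, by rw [hk]; push_cast; ring⟩
      · obtain ⟨k, hk⟩ := (ih _ _).2 H
        exact ⟨P.co h b g l + k, by rw [hk]; push_cast; ring⟩

theorem chi_sqLoop (c : T) (s : ℝ) :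
    (P.chi 2 c (sqLoop s)).1 = P.wp 1 (P.R c) ((P.R c).length * clamp s) := by
  rw [chi, prj_of_mem (sqLoop_mem s)]
  change P.face 1 c (sqLoop s) = _
  rcases le_total s 1 with h | h
  · rw [P.face_bottom _ _ (by
      simp [sqLoop, clamp_of_le (show s - 1 ≤ 0 by linarith),
        clamp_of_le (show s - 3 ≤ 0 by linarith)])]
    simp [sqLoop, clamp_of_le (show s - 2 ≤ 0 by linarith)]
  · rw [clamp_of_ge h, P.wp_ge _ _ (by simp), P.closed]
    refine P.face_rest _ _ ?_
    rcases le_total s 2 with h2 | h2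
    · refine .inr (.inl ?_)
      simp [sqLoop, clamp_of_ge h, clamp_of_le (show s - 2 ≤ 0 by linarith)]
      norm_num
    · rcases le_total s 3 with h3 | h3
      · refine .inr (.inr ?_)
        simp [sqLoop, clamp_of_ge (show 1 ≤ s - 1 by linarith),
          clamp_of_le (show s - 3 ≤ 0 by linarith)]
        norm_num
      · refine .inl ?_
        simp [sqLoop, clamp_of_ge h, clamp_of_ge (show 1 ≤ s - 2 by linarith)]

theorem incidence (h : G) (b : S) (c : T) :
    Incidence (P.chi 2 c) (fun v => h • P.chi 1 b v) (P.cnt h b 1 (P.R c)) := by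
  have e1 : ∀ v ∈ ball (0 : Fin 1 → ℝ) 1, (h • P.chi 1 b v).1 = P.edge h b ((v 0 + 1) / 2) :=
    fun v hv => by
      rw [chi, smul_eE, mul_one]
      exact congrArg (P.edge h b) (clamp_of_mem (ball1 hv).1.le (ball1 hv).2.le)
  refine ⟨fun s => P.lam h b 1 (P.R c) ((P.R c).length * clamp s),
    ((P.continuous_lam _ _ _ _).comp (by fun_prop)).continuousOn, ?_, fun s _ => ⟨?_, ?_⟩⟩
  · simp only
    rw [P.lam_ge _ _ _ _ (by rw [clamp_of_ge (by norm_num), mul_one]),
      P.lam_le _ _ _ _ (by rw [clamp_of_le le_rfl, mul_zero]), sub_zero]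
  · intro v hv e
    exact (P.lam_spec h b 1 _ _).1 _ (ball1 hv).1 (ball1 hv).2
      ((e1 v hv).symm.trans ((congrArg Subtype.val e).symm.trans (P.chi_sqLoop c s)))
  · intro H
    refine (P.lam_spec h b 1 _ _).2 fun r h0 h1 e => H ⟨vec1 r, vec1_mem h0 h1, Subtype.ext ?_⟩
    rw [chi_sqLoop, ← e]
    change (h • P.chi 1 b (vec1 r)).1 = _
    rw [chi_vec1, smul_eE, mul_one]
    exact congrArg (P.edge h b) (clamp_of_mem h0.le h1.le)

variable [Finite G] [Finite T]

def x0 : P.K := P.pr (P.eV 1)

def loopE (b : S) : ML P.x0 :=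
  mk' (fun s => P.pr (P.eE 1 b s)) 1 (by fun_prop) zero_le_one
    (fun s hs => by rw [P.eE_le _ _ hs]; rfl) fun s hs => by rw [P.eE_ge _ _ hs, pr_eV]; rfl

theorem pr_wp (w : List (S × Bool)) (g : G) (s : ℝ) (e : P.E) (he : e.1 = P.wp g w s) :
    P.pr e = (wl P.loopE w).f s := by
  induction w generalizing g s with
  | nil =>
    rw [show e = P.eV g from Subtype.ext (he.trans (P.eV_val g).symm), pr_eV]
    rfl
  | cons l w ih =>
    rw [wl_cons, mul_f, letter_len fun _ => rfl]
    rw [wp] at he
    split_ifs with h h'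
    · rw [if_pos h, lp, if_pos h'] at he
      rw [show e = P.eE g l.1 s from Subtype.ext he, pr_eE]
      rfl
    · rw [if_pos h, lp, if_neg h', ← clamp_one_sub] at he
      rw [show e = P.eE _ l.1 (1 - s) from Subtype.ext he, pr_eE]
      rfl
    · rw [if_neg h] at he
      exact ih _ _ he

theorem pr_rest (c : T) {z : Sq} (h : z.1 0 = -1 ∨ z.1 0 = 1 ∨ z.1 1 = 1) :
    P.pr (P.eF 1 c z) = P.x0 :=
  congrArg P.pr (Subtype.ext ((P.face_rest 1 c h).trans (P.eV_val 1).symm))

def facePath (c : T) (hp : (0 : ℝ) < (P.R c).length) :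
    Path (wl P.loopE (P.R c)) (cst (P.R c).length hp.le) where
  toFun v := mk' (fun s => P.pr (P.eF 1 c (prj ![2 * (s / (P.R c).length) - 1, 2 * v - 1])))
    (P.R c).length (by fun_prop) hp.le
    (fun s hs => P.pr_rest c (.inl (max_eq_left ((min_le_right _ _).trans (by
      have := div_nonpos_of_nonpos_of_nonneg hs hp.le
      simp only [Matrix.cons_val_zero]
      linarith)))))
    fun s hs => P.pr_rest c (.inr (.inl (by
      have := (one_le_div hp).2 hs
      simp only [prj, Matrix.cons_val_zero]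
      rw [min_eq_left (by linarith), max_eq_right (by norm_num)])))
  continuous_toFun := continuous_into (show Continuous fun x : I × ℝ =>
    P.pr (P.eF 1 c (prj ![2 * (x.2 / (P.R c).length) - 1, 2 * x.1 - 1])) by fun_prop)
      continuous_const
  source' := ext' (fun s => by
    refine P.pr_wp _ 1 s _ ((P.face_bottom 1 c (by simp [prj])).trans ?_)
    simp only [prj, Matrix.cons_val_zero]
    rcases le_total s 0 with h | h
    · have := div_nonpos_of_nonpos_of_nonneg h hp.le
      rw [max_eq_left ((min_le_right _ _).trans (by linarith)), P.wp_le _ _ h,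
        P.wp_le _ _ (by simp)]
    · rcases le_total s (P.R c).length with h' | h'
      · have h1 := (div_le_one hp).2 h'
        have h2 := div_nonneg h hp.le
        rw [min_eq_right (by linarith), max_eq_right (by linarith)]
        congr 1
        field_simp
        ring
      · have := (one_le_div hp).2 h'
        rw [min_eq_left (by linarith), max_eq_right (by norm_num), P.wp_ge _ _ h',
          P.wp_ge _ _ (by simp)]) (wl_len (fun _ => rfl) _).symm
  target' := ext' (fun s => P.pr_rest c (.inr (.inr (by simp [prj]; norm_num)))) rfl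

theorem facePath_f (c : T) (hp : (0 : ℝ) < (P.R c).length) (v : I) (s : ℝ) :
    (P.facePath c hp v).f s =
      P.pr (P.eF 1 c (prj ![2 * (s / (P.R c).length) - 1, 2 * v - 1])) := rfl

def H0 (a : S → ML P.x0) (x : P.K) : P.K :=
  if h : ∃ p : S × ℝ, 0 < p.2 ∧ p.2 < 1 ∧ P.pr (P.eE 1 p.1 p.2) = x then
    (a h.choose.1).f h.choose.2 else x

theorem H0_x0 (a : S → ML P.x0) : P.H0 a P.x0 = P.x0 :=
  dif_neg fun ⟨_, h0, h1, e⟩ => by
    have := (pr_E_inj h0 h1 e).2
    rw [clamp_of_le le_rfl] at this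
    exact h0.ne' this

theorem H0_edge {a : S → ML P.x0} (ha : ∀ b, (a b).len = 1) (b : S) (s : ℝ) :
    P.H0 a (P.pr (P.eE 1 b s)) = (a b).f s := by
  rcases le_or_gt s 0 with h0 | h0
  · rw [P.eE_le _ _ h0, (a b).f_le h0]; exact P.H0_x0 a
  rcases le_or_gt 1 s with h1 | h1
  · rw [P.eE_ge _ _ h1, pr_eV, (a b).f_ge (ha b ▸ h1)]; exact P.H0_x0 a
  have h : ∃ p : S × ℝ, 0 < p.2 ∧ p.2 < 1 ∧ P.pr (P.eE 1 p.1 p.2) = P.pr (P.eE 1 b s) :=
    ⟨(b, s), h0, h1, rfl⟩
  have := pr_E_inj h.choose_spec.1 h.choose_spec.2.1 h.choose_spec.2.2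
  rw [H0, dif_pos h, this.2, this.1, clamp_of_mem h0.le h1.le]

theorem H0_wl {a : S → ML P.x0} (ha : ∀ b, (a b).len = 1) (w : List (S × Bool)) (s : ℝ) :
    P.H0 a ((wl P.loopE w).f s) = (wl a w).f s := by
  induction w generalizing s with
  | nil => exact P.H0_x0 a
  | cons l w ih =>
    rw [wl_cons, wl_cons, mul_f, mul_f, letter_len fun _ => rfl, letter_len ha]
    split_ifs
    · exact P.H0_edge ha _ _
    · exact (P.H0_edge ha _ _).trans (by simp [ha]; rfl)
    · exact ih _

theorem deform (hp : ∀ c, (0 : ℝ) < (P.R c).length) (A : I → S → ML P.x0)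
    (F : T → C(I × I, ML P.x0)) (hA : ∀ s b, (A s b).len = 1)
    (F1 : ∀ c s, F c (s, 0) = wl (A s) (P.R c)) (F2 : ∀ c s u, (F c (s, 1)).f u = P.x0) :
    ∃ H : C(I × P.K, P.K), ∀ s c (z : Sq), ∃ v : I, (∃ u, H (s, P.pr (P.eF 1 c z)) =
      (F c (s, v)).f u) ∧ (F c (s, v) = P.facePath c (hp c) v →
        H (s, P.pr (P.eF 1 c z)) = P.pr (P.eF 1 c z)) := by
  let : TopologicalSpace T := ⊥
  have : DiscreteTopology T := ⟨rfl⟩
  let v : Sq → I := fun z => ⟨(z.1 1 + 1) / 2, by
    constructor <;> linarith [z.bounds 1]⟩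
  have h0 : Continuous fun z : Sq => z.1 0 := (continuous_apply 0).comp continuous_subtype_val
  have h1 : Continuous fun z : Sq => z.1 1 := (continuous_apply 1).comp continuous_subtype_val
  have hv : Continuous v := Continuous.subtype_mk ((h1.add continuous_const).div_const _) _
  have hu : Continuous fun x : I × Sq => (x.2.1 0 + 1) / 2 :=
    ((h0.comp continuous_snd).add continuous_const).div_const _
  let q : T × Sq → P.K := fun x => P.pr (P.eF 1 x.1 x.2)
  have hqc : Continuous q := continuous_prod_of_discrete_left.2 fun c =>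
    show Continuous fun z => P.pr (P.eF 1 c z) by fun_prop
  have hq : IsQuotientMap q := hqc.isClosedMap.isQuotientMap hqc fun x => by
    obtain ⟨c, z, e⟩ := P.exists_pr x
    exact ⟨(c, z), e⟩
  let Fd : T × (I × Sq) → P.K := fun x =>
    (F x.1 (x.2.1, v x.2.2)).f ((F x.1 (x.2.1, v x.2.2)).len * ((x.2.2.1 0 + 1) / 2))
  have hFd : Continuous Fd := continuous_prod_of_discrete_left.2 fun c =>
    continuous_f (g := fun x : I × Sq => F c (x.1, v x.2)) (by fun_prop)
      (Continuous.mul (continuous_len (g := fun x : I × Sq => F c (x.1, v x.2)) (by fun_prop)) hu)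
  have hb : ∀ s c (z : Sq), ‖z.1‖ = 1 → Fd (c, s, z) = P.H0 (A s) (q (c, z)) := fun s c z hz => by
    simp only [Fd, q]
    rcases z.cases with h | ⟨-, h | h⟩
    · exact absurd hz h.2.ne
    · have : v z = 0 := Subtype.ext (by simp [v, h])
      rw [this, F1, wl_len (hA s), P.pr_wp _ 1 _ (P.eF 1 c z) (P.face_bottom 1 c h),
        P.H0_wl (hA s)]
    · rw [P.pr_rest _ h, H0_x0]
      rcases h with h | h | h
      · exact f_le _ (by simp [h])
      · exact f_ge _ (by simp [h])
      · have : v z = 1 := Subtype.ext (by simp [v, h])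
        rw [this, F2]
  obtain ⟨H, hH⟩ := descend hq (fun x => Fd (x.2.1, x.1, x.2.2)) (hFd.comp (by fun_prop)) (by
    rintro s ⟨c, z⟩ ⟨c', z'⟩ e
    by_cases h1 : ‖z.1‖ = 1
    · by_cases h2 : ‖z'.1‖ = 1
      · rw [hb _ _ _ h1, hb _ _ _ h2, e]
      · obtain ⟨rfl, rfl⟩ := pr_F_inj h2 e.symm
        rfl
    · obtain ⟨rfl, rfl⟩ := pr_F_inj h1 e
      rfl)
  refine ⟨H, fun s c z => ⟨v z, ⟨_, hH s (c, z)⟩, fun e => (hH s (c, z)).trans ?_⟩⟩
  simp only [Fd, e]
  change (P.facePath c (hp c) (v z)).f (((P.R c).length : ℝ) * _) = _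
  rw [facePath_f, mul_div_cancel_left₀ _ (hp c).ne']
  congr 2
  rw [← prj_val z]
  congr 1
  funext i
  fin_cases i <;> simp [v, prj_val] <;> ring

end Pres

end Pool.Agent.Lib.MP_2add11_gt.FG
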