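import Pool.Agent.Lib.MP_2add11_gt.FG.Inv

/-!
`SK₁` is torsion for commutative rings that behave like orders (Mennicke symbols).
-/

noncomputable section

namespace Pool.Agent.Lib.MP_2add11_gt.FG

open Matrix

variable {R W : Type} [CommRing R] [AddCommGroup W]
variable {n : Type} [Fintype n] [DecidableEq n]

def u1 {R : Type} (x : R) : Matrix Unit Unit R := Matrix.of fun _ _ => x

def Good (a : R) : Prop := ∀ z : R, ∃ i k : ℕ, 0 < k ∧ a ∣ z ^ i * (z ^ k - 1)

theorem Good.coprime {a : R} (h : Good a) (b y : R) : ∃ t, IsCoprime a (b + t * (1 - b * y)) := by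
  obtain ⟨i, k, hk, hd⟩ := h b
  refine ⟨1 - b ^ k, ?_⟩
  rw [← Ideal.isCoprime_span_singleton_iff, Ideal.isCoprime_iff_sup_eq]
  by_contra hne
  obtain ⟨M, hM, hle⟩ := Ideal.exists_le_maximal _ hne
  have ha : a ∈ M := hle (Ideal.mem_sup_left (Ideal.mem_span_singleton_self _))
  have hb : b + (1 - b ^ k) * (1 - b * y) ∈ M :=
    hle (Ideal.mem_sup_right (Ideal.mem_span_singleton_self _))
  have hb' : b ∈ M := by
    rcases hM.isPrime.mem_or_mem (M.mem_of_dvd hd ha) with h | h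
    · exact hM.isPrime.mem_of_pow_mem _ h
    · have := M.add_mem hb (M.mul_mem_right (1 - b * y) h)
      convert this using 1
      ring
  obtain ⟨k, rfl⟩ := Nat.exists_eq_add_one_of_ne_zero hk.ne'
  have := M.add_mem hb (M.mul_mem_right (b ^ k * (1 - b * y) + y - 1) hb')
  refine hM.ne_top ((Ideal.eq_top_iff_one _).2 ?_)
  convert this using 1
  ring

namespace Inv

variable (s : Inv R W)

theorem colop {A : Matrix n n R} (hA : IsUnit A) (j : n) (x : n → R) (hx : x j = 0) :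
    ∃ B : Matrix n n R, IsUnit B ∧ s.c B = s.c A ∧
      ∀ i k, B i k = A i k + if k = j then ∑ l, A i l * x l else 0 := by
  have e : (Matrix.of fun (_ : Unit) k => if k = j then (1 : R) else 0) *
      (Matrix.of fun i (_ : Unit) => x i) = 0 := by
    ext; simp [mul_apply, hx]
  have hu := isUnit_swap (H := Matrix.of fun i (_ : Unit) => x i)
    (X := Matrix.of fun (_ : Unit) k => if k = j then (1 : R) else 0)
    (by rw [e, add_zero]; exact isUnit_one)
  refine ⟨_, hA.mul hu, by rw [s.mul hA hu, s.unip e, add_zero], fun i k => ?_⟩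
  rw [Matrix.mul_add, Matrix.mul_one, ← Matrix.mul_assoc]
  simp [mul_apply]

theorem colop1 {A : Matrix n n R} (hA : IsUnit A) (i j : n) : ∃ y : R, ∀ t : R,
    ∃ B : Matrix n n R, IsUnit B ∧ s.c B = s.c A ∧ B i j = A i j + t * (1 - A i j * y) ∧
      ∀ k, k ≠ j → B i k = A i k := by
  obtain ⟨u, rfl⟩ := hA
  refine ⟨u⁻¹.val j i, fun t => ?_⟩
  obtain ⟨B, h1, h2, h3⟩ := s.colop u.isUnit j (fun l => if l = j then 0 else t * u⁻¹.val l i)
    (by simp)
  refine ⟨B, h1, h2, ?_, fun k hk => by simp [h3, hk]⟩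
  have : ∑ l, u.val i l * u⁻¹.val l i = 1 := by
    rw [← mul_apply, u.mul_inv, one_apply_eq]
  rw [h3, if_pos rfl, ← this, ← Finset.add_sum_erase _ _ (Finset.mem_univ j),
    ← Finset.add_sum_erase _ (fun l => u.val i l * u⁻¹.val l i) (Finset.mem_univ j), if_pos rfl,
    mul_zero, zero_add, add_sub_cancel_left, Finset.mul_sum]
  congr 1
  refine Finset.sum_congr rfl fun l hl => ?_
  rw [if_neg (Finset.ne_of_mem_erase hl)]
  ring

theorem clear {A : Matrix n n R} (hA : IsUnit A) (i : n) (h : A i i = 1) :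
    ∃ B : Matrix {j // j ≠ i} {j // j ≠ i} R, IsUnit B ∧ s.c B = s.c A := by
  let e : {j // j ≠ i} ⊕ Unit ≃ n :=
    (Equiv.optionEquivSumPUnit _).symm.trans (Equiv.optionSubtypeNe i)
  let A' := A.submatrix e e
  have hA' : IsUnit A' := isUnit_sub e hA
  have h1 : A' = fromBlocks 1 A'.toBlocks₁₂ 0 1 *
      fromBlocks (A'.toBlocks₁₁ - A'.toBlocks₁₂ * A'.toBlocks₂₁) 0 A'.toBlocks₂₁ 1 := by
    have : A'.toBlocks₂₂ = 1 := by
      ext; simp [A', e, toBlocks₂₂, h]
    conv_lhs => rw [← fromBlocks_toBlocks A', this]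
    simp [fromBlocks_multiply]
  have h2 := (isUnit_fromBlocks_zero₁₂.1 (isUnit_of_mul_isUnit_right (h1 ▸ hA'))).1
  refine ⟨_, h2, ?_⟩
  have h3 : s.c (fromBlocks (1 : Matrix {j // j ≠ i} {j // j ≠ i} R) A'.toBlocks₁₂ 0
      (1 : Matrix Unit Unit R)) = 0 := by
    rw [← s.low A'.toBlocks₁₂, ← s.sub (Equiv.sumComm _ _) (isUnit_low A'.toBlocks₁₂)]
    congr 1
    ext (i | i) (j | j) <;> rfl
  rw [← s.sub e hA]
  change _ = s.c A'
  rw [h1, s.mul (isUnit_up _) (s.tri h2 isUnit_one _).1, h3, (s.tri h2 isUnit_one _).2, s.one,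
    zero_add, add_zero, ← h1]

def Sym (a b : R) (w : W) : Prop := ∃ c d : R, a * d - b * c = 1 ∧ s.c !![a, b; c, d] = w

theorem unit2 {a b c d : R} (h : a * d - b * c = 1) : IsUnit !![a, b; c, d] := by
  rw [isUnit_iff_isUnit_det, det_fin_two_of, h]
  exact isUnit_one

theorem up2 (t : R) : s.c !![1, t; 0, 1] = 0 := by
  rw [← (s.nilp (fun i : Fin 2 => 2 - i.val) (N := !![0, t; 0, 0]) (fun i j => by
    fin_cases i <;> fin_cases j <;> simp)).2]
  congr 1
  ext i j
  fin_cases i <;> fin_cases j <;> simp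

theorem low2 (t : R) : s.c !![1, 0; t, 1] = 0 := by
  rw [← (s.nilp (fun i : Fin 2 => i.val) (N := !![0, 0; t, 0]) (fun i j => by
    fin_cases i <;> fin_cases j <;> simp)).2]
  congr 1
  ext i j
  fin_cases i <;> fin_cases j <;> simp

theorem Sym.uniq {a b : R} {w w' : W} (h : s.Sym a b w) (h' : s.Sym a b w') : w = w' := by
  obtain ⟨c, d, h, rfl⟩ := h
  obtain ⟨c', d', h', rfl⟩ := h'
  have : !![a, b; c', d'] = !![1, 0; c' * d - d' * c, 1] * !![a, b; c, d] := by
    ext i j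
    fin_cases i <;> fin_cases j <;> simp [mul_apply]
    · linear_combination c * h' - c' * h
    · linear_combination d * h' - d' * h
  rw [this, s.mul (unit2 (by simp)) (unit2 h), s.low2, zero_add]

theorem sym_one (a x : R) : s.Sym a (1 + a * x) 0 := by
  refine ⟨-1, -x, by ring, ?_⟩
  have : !![a, 1 + a * x; -1, -x] = !![1, 1 - a; 0, 1] * (!![1, 0; -1, 1] * !![1, 1 + x; 0, 1]) := by
    ext i j
    fin_cases i <;> fin_cases j <;> simp [mul_apply]
    ring
  rw [this, s.mul (unit2 (by simp)) ((unit2 (by simp)).mul (unit2 (by simp))),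
    s.mul (unit2 (by simp)) (unit2 (by simp)), s.up2, s.up2, s.low2]
  simp

theorem Sym.mul {a b b' : R} {w w' : W} (h : s.Sym a b w) (h' : s.Sym a b' w') :
    s.Sym a (b * b') (w + w') := by
  obtain ⟨c, d, h, rfl⟩ := h
  obtain ⟨c', d', h', rfl⟩ := h'
  have h'' : a * (d' - c' * d * b') - b * b' * (-(c * c')) = 1 := by
    linear_combination h' - c' * b' * h
  refine ⟨_, _, h'', ?_⟩
  let P1 : Fin 3 ≃ Fin 2 ⊕ Unit := ⟨![.inl 0, .inr (), .inl 1], Sum.elim ![0, 2] fun _ => 1,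
    by decide, by decide⟩
  let P2 : Fin 3 ≃ Fin 2 ⊕ Unit := ⟨![.inr (), .inl 1, .inl 0], Sum.elim ![2, 1] fun _ => 0,
    by decide, by decide⟩
  let P3 : Fin 3 ≃ Fin 2 ⊕ Unit := ⟨![.inl 0, .inl 1, .inr ()], Sum.elim ![0, 1] fun _ => 2,
    by decide, by decide⟩
  have key : ∀ (P : Fin 3 ≃ Fin 2 ⊕ Unit) {A : Matrix (Fin 2) (Fin 2) R}, IsUnit A →
      IsUnit ((fromBlocks A 0 0 (1 : Matrix Unit Unit R)).submatrix P P) ∧
      s.c ((fromBlocks A 0 0 (1 : Matrix Unit Unit R)).submatrix P P) = s.c A := fun P A hA =>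
    ⟨isUnit_sub P (isUnit_blocks hA isUnit_one),
      (s.sub P (isUnit_blocks hA isUnit_one)).trans (s.stab hA)⟩
  obtain ⟨u1, e1⟩ := key P1 (unit2 h)
  obtain ⟨u2, e2⟩ := key P2 (unit2 h')
  obtain ⟨u3, e3⟩ := key P3 (unit2 h'')
  obtain ⟨u4, e4⟩ := s.nilp (fun i : Fin 3 => 3 - i.val) (N := !![0, 0, 0; 0, 0, c'; 0, 0, 0])
    (fun i j => by fin_cases i <;> fin_cases j <;> simp)
  obtain ⟨u5, e5⟩ := s.nilp (fun i : Fin 3 => i.val) (N := !![0, 0, 0; 0, 0, 0; c, d * b', 0])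
    (fun i j => by fin_cases i <;> fin_cases j <;> simp)
  obtain ⟨u6, e6⟩ := s.nilp (fun i : Fin 3 => 3 - i.val) (N := !![0, 0, b; 0, 0, 0; 0, 0, 0])
    (fun i j => by fin_cases i <;> fin_cases j <;> simp)
  have := s.mul u4 (u3.mul (u5.mul u6))
  rw [s.mul u3 (u5.mul u6), s.mul u5 u6, e3, e4, e5, e6, add_zero, add_zero, zero_add] at this
  rw [← this, ← e1, ← e2, ← s.mul u1 u2]
  congr 1
  ext i j
  fin_cases i <;> fin_cases j <;> simp [mul_apply, Fin.sum_univ_three, P1, P2, P3, one_apply] <;>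
    first | ring1 | linear_combination -c' * h | linear_combination -h

theorem Sym.tors {a b : R} {w : W} (ha : Good a) (h : s.Sym a b w) : IsOfFinAddOrder w := by
  obtain ⟨i, k, hk, hd⟩ := ha b
  have hc : IsCoprime a b := by
    obtain ⟨c, d, h, -⟩ := h
    exact ⟨d, -c, by linear_combination h⟩
  obtain ⟨x, hx⟩ := hc.pow_right.dvd_of_dvd_mul_left hd
  have hp : ∀ j : ℕ, s.Sym a (b ^ j) (j • w) := fun j => by
    induction j with
    | zero => simpa using s.sym_one a 0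
    | succ j ih =>
      rw [pow_succ, succ_nsmul]
      exact ih.mul s h
  refine isOfFinAddOrder_iff_nsmul_eq_zero.2 ⟨k, hk, (hp k).uniq s ?_⟩
  rw [show b ^ k = 1 + a * x by linear_combination hx]
  exact s.sym_one a x

theorem sk (hN : ∀ a y : R, ∃ t, Good (a + t * (1 - a * y)))
    (h1 : ∀ x : R, IsUnit x → s.c (u1 x) = 0) {A : Matrix n n R} (hA : IsUnit A) :
    IsOfFinAddOrder (s.c A) := by
  induction hn : Fintype.card n using Nat.strong_induction_on generalizing n with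
  | _ k ih =>
  subst hn
  rcases lt_trichotomy (Fintype.card n) 2 with h | h | h
  · have : Subsingleton n := Fintype.card_le_one_iff_subsingleton.1 (by omega)
    have : A = diagonal fun i => A i i := by
      ext i j
      rw [Subsingleton.elim j i, diagonal_apply_eq]
    have hu : ∀ i, IsUnit (A i i) := fun i => by
      have := (isUnit_iff_isUnit_det _).1 hA
      rwa [det_eq_elem_of_subsingleton _ i] at this
    rw [this, (s.diag hu fun i => h1 _ (hu i)).2]
    exact IsOfFinAddOrder.zero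
  · have e := (Fintype.equivFinOfCardEq h).symm
    rw [← s.sub e hA]
    obtain ⟨y, hy⟩ := s.colop1 (isUnit_sub e hA) 0 0
    obtain ⟨t, ht⟩ := hN (A.submatrix e e 0 0) y
    obtain ⟨B, hB, h2, h3, -⟩ := hy t
    rw [← h3] at ht
    obtain ⟨u, hu⟩ := (isUnit_iff_isUnit_det _).1 hB
    have hd : ∀ i, IsUnit (![1, (↑u⁻¹ : R)] i) := fun i => by
      fin_cases i <;> simp
    obtain ⟨h4, h5⟩ := s.diag hd fun i => h1 _ (hd i)
    refine Sym.tors s (b := B 0 1) ht ⟨↑u⁻¹ * B 1 0, ↑u⁻¹ * B 1 1, ?_, ?_⟩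
    · rw [det_fin_two] at hu
      linear_combination u.mul_inv - (↑u⁻¹ : R) * hu
    · rw [← h2, ← zero_add (s.c B), ← h5, ← s.mul h4 hB]
      congr 1
      ext i j
      fin_cases i <;> fin_cases j <;> simp [diagonal_mul]
  · obtain ⟨i0, i1, i2, h01, h02, h12⟩ := Fintype.two_lt_card_iff.1 h
    obtain ⟨y, hy⟩ := s.colop1 hA i0 i1
    obtain ⟨t, ht⟩ := hN (A i0 i1) y
    obtain ⟨B, hB, e1, h3, -⟩ := hy t
    rw [← h3] at ht
    obtain ⟨y, hy⟩ := s.colop1 hB i0 i2
    obtain ⟨t, ht⟩ := ht.coprime (B i0 i2) y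
    obtain ⟨C, hC, e2, h3, h4⟩ := hy t
    rw [← h3, ← h4 i1 h12] at ht
    obtain ⟨p, q, hpq⟩ := ht
    obtain ⟨D, hD, e3, h5⟩ := s.colop hC i0
      (fun l => (1 - C i0 i0) * ((if l = i1 then p else 0) + if l = i2 then q else 0))
      (by simp [h01, h02])
    obtain ⟨F, hF, e4⟩ := s.clear hD i0 (by
      simp only [h5, if_true, mul_add, Finset.sum_add_distrib, mul_ite, mul_zero,
        Finset.sum_ite_eq', Finset.mem_univ]
      linear_combination (1 - C i0 i0) * hpq)
    rw [← e1, ← e2, ← e3, ← e4]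
    refine ih _ ?_ hF rfl
    exact Fintype.card_subtype_lt (x := i0) (by simp)

open Classical in
def det' {n : Type} (A : Matrix n n R) : R :=
  if h : Nonempty (Fintype n) then @det n _ h.some R _ A else 0

theorem det'_eq (A : Matrix n n R) : det' A = A.det := by
  rw [det', dif_pos ⟨inferInstance⟩]
  exact congrArg₂ (fun (a : DecidableEq n) (b : Fintype n) => @det n a b R _ A)
    (Subsingleton.elim _ _) (Subsingleton.elim _ _)

theorem isUnit_u1 {x : R} (h : IsUnit x) : IsUnit (u1 x) := by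
  rwa [isUnit_iff_isUnit_det, det_unique]

theorem u1_mul (x y : R) : u1 (x * y) = u1 x * u1 y := by
  ext; simp [u1, mul_apply]

def red : Inv R W where
  c A := s.c A - s.c (u1 (det' A))
  mul {n} _ _ A B hA hB := by
    rw [det'_eq, det'_eq, det'_eq, det_mul, u1_mul, s.mul hA hB,
      s.mul (isUnit_u1 ((isUnit_iff_isUnit_det _).1 hA))
        (isUnit_u1 ((isUnit_iff_isUnit_det _).1 hB))]
    abel
  sub {m n} _ _ e A hA := by
    classical
    have := Fintype.ofEquiv n e.symm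
    rw [det'_eq, det'_eq, det_submatrix_equiv_self, s.sub e hA]
  stab {n} _ _ A hA := by
    rw [det'_eq, det'_eq, det_fromBlocks_zero₁₂, det_one, mul_one, s.stab hA]

theorem sk' (hN : ∀ a y : R, ∃ t, Good (a + t * (1 - a * y))) {A : Matrix n n R}
    (hA : IsUnit A) : IsOfFinAddOrder (s.c A - s.c (u1 A.det)) := by
  rw [← det'_eq]
  refine s.red.sk hN (fun x _ => ?_) hA
  change s.c (u1 x) - s.c (u1 (det' (u1 x))) = 0
  rw [det'_eq, det_unique]
  exact sub_self _

end Inv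

end Pool.Agent.Lib.MP_2add11_gt.FG
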