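import Pool.Agent.Lib.MP_2add11_gt.FG.Square

/-!
The Cayley complex of a finite presentation mapping to a finite group, as a compact subset of a
finite-dimensional real vector space, its orbit space and the CW structure of the orbit space.
-/

noncomputable section

namespace Pool.Agent.Lib.MP_2add11_gt.FG

open Set Metric Topology Classical

def nxt {G S : Type} [Group G] (d : S → G) (g : G) (l : S × Bool) : G :=
  if l.2 then g * d l.1 else g * (d l.1)⁻¹

structure Pres (G S T : Type) [Group G] where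
  d : S → G
  R : T → List (S × Bool)
  closed : ∀ g c, (R c).foldl (nxt d) g = g
  occ : ∀ s, ∃ c, (s, true) ∈ R c
  s0 : S

abbrev VV (G S T : Type) : Type := G → ℝ × (S → ℝ × ℝ) × (T → ℝ × (Fin 2 → ℝ))

namespace Pres

variable {G S T : Type} [Group G] (P : Pres G S T)

def vtx (_P : Pres G S T) (g : G) : VV G S T := fun k => (if k = g then 1 else 0, 0, 0)

def edge (g : G) (b : S) (s : ℝ) : VV G S T := fun k =>
  ((if k = g then 1 - s else 0) + (if k = g * P.d b then s else 0),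
    fun b' => if k = g ∧ b' = b then (s * (1 - s), s * (s * (1 - s))) else 0, 0)

theorem edge_zero (g : G) (b : S) : P.edge g b 0 = P.vtx g := by
  funext k; simp [edge, vtx, Prod.mk_zero_zero]; rfl

theorem edge_one (g : G) (b : S) : P.edge g b 1 = P.vtx (g * P.d b) := by
  funext k; simp [edge, vtx, Prod.mk_zero_zero]; rfl

@[fun_prop] theorem continuous_edge (g : G) (b : S) : Continuous (P.edge g b) := by
  refine continuous_pi fun k => Continuous.prodMk ?_ (Continuous.prodMk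
    (continuous_pi fun b' => ?_) continuous_const)
  · refine Continuous.add ?_ ?_ <;> split_ifs <;> fun_prop
  · split_ifs <;> fun_prop

variable {P} in
theorem vtx_inj {g h : G} (e : P.vtx g = P.vtx h) : g = h := by
  have := congrArg (fun x : VV G S T => (x g).1) e
  simpa [vtx] using this

variable {P} in
theorem edge_inj {g g' : G} {b b' : S} {s s' : ℝ} (h0 : 0 < s) (h1 : s < 1)
    (e : P.edge g b s = P.edge g' b' s') : g = g' ∧ b = b' ∧ s = s' := by
  have := congrArg (fun x : VV G S T => (x g).2.1 b) e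
  have hp : s * (1 - s) ≠ 0 := mul_ne_zero h0.ne' (by linarith)
  simp only [edge, and_self, if_true] at this
  split_ifs at this with h
  · simp only [Prod.mk.injEq] at this
    refine ⟨h.1, h.2, mul_right_cancel₀ hp ?_⟩
    rw [this.2, this.1]
  · exact absurd (congrArg Prod.fst this) hp

def lp (g : G) (l : S × Bool) (s : ℝ) : VV G S T :=
  if l.2 then P.edge g l.1 s else P.edge (g * (P.d l.1)⁻¹) l.1 (1 - s)

theorem lp_zero (g : G) (l : S × Bool) : P.lp g l 0 = P.vtx g := by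
  unfold lp; split_ifs <;> simp [edge_zero, edge_one]

theorem lp_one (g : G) (l : S × Bool) : P.lp g l 1 = P.vtx (nxt P.d g l) := by
  unfold lp nxt; split_ifs <;> simp [edge_zero, edge_one]

@[fun_prop] theorem continuous_lp (g : G) (l : S × Bool) : Continuous (P.lp g l) := by
  unfold lp; split_ifs <;> fun_prop

def wp : G → List (S × Bool) → ℝ → VV G S T
  | g, [], _ => P.vtx g
  | g, l :: w, s => if s ≤ 1 then P.lp g l (clamp s) else wp (nxt P.d g l) w (s - 1)

theorem wp_le (g : G) (w : List (S × Bool)) {s : ℝ} (h : s ≤ 0) : P.wp g w s = P.vtx g := by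
  cases w with
  | nil => rfl
  | cons l w => rw [wp, if_pos (by linarith), clamp_of_le h, lp_zero]

theorem wp_cons (g : G) (l : S × Bool) (w : List (S × Bool)) {s : ℝ} (h : 1 ≤ s) :
    P.wp g (l :: w) s = P.wp (nxt P.d g l) w (s - 1) := by
  rw [wp]
  split_ifs with h1
  · rw [clamp_of_ge h, lp_one, wp_le _ _ _ (by linarith)]
  · rfl

theorem wp_ge (g : G) (w : List (S × Bool)) {s : ℝ} (h : w.length ≤ s) :
    P.wp g w s = P.vtx (w.foldl (nxt P.d) g) := by
  induction w generalizing g s with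
  | nil => rfl
  | cons l w ih =>
    simp only [List.length_cons, Nat.cast_add, Nat.cast_one] at h
    have : (0 : ℝ) ≤ w.length := Nat.cast_nonneg _
    rw [wp_cons _ _ _ _ (by linarith), List.foldl_cons, ih _ (by linarith)]

@[fun_prop] theorem continuous_wp (g : G) (w : List (S × Bool)) : Continuous (P.wp g w) := by
  induction w generalizing g with
  | nil => exact continuous_const
  | cons l w ih =>
    have := ih (nxt P.d g l)
    refine Continuous.if_le (by fun_prop) (by fun_prop) continuous_id continuous_const ?_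
    rintro _ rfl
    rw [clamp_of_ge le_rfl, lp_one, wp_le _ _ _ (by simp)]

def Gr : Set (VV G S T) := {x | ∃ g b s, 0 ≤ s ∧ s ≤ 1 ∧ P.edge g b s = x}

theorem vtx_mem (g : G) : P.vtx g ∈ P.Gr := ⟨g, P.s0, 0, le_rfl, zero_le_one, P.edge_zero _ _⟩

theorem wp_cases (g : G) (w : List (S × Bool)) (s : ℝ) : (∃ h, P.wp g w s = P.vtx h) ∨
    ∃ l ∈ w, ∃ h s', 0 ≤ s' ∧ s' ≤ 1 ∧ P.edge h l.1 s' = P.wp g w s := by
  induction w generalizing g s with
  | nil => exact .inl ⟨g, rfl⟩
  | cons l w ih =>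
    rw [wp]
    split_ifs
    · refine .inr ⟨l, List.mem_cons_self, ?_⟩
      unfold lp
      split_ifs
      · exact ⟨_, _, clamp_nonneg _, clamp_le_one _, rfl⟩
      · exact ⟨_, _, by linarith [clamp_le_one s], by linarith [clamp_nonneg s], rfl⟩
    · rcases ih (nxt P.d g l) (s - 1) with h | ⟨l', h1, h2⟩
      · exact .inl h
      · exact .inr ⟨l', List.mem_cons_of_mem _ h1, h2⟩

theorem wp_mem (g : G) (w : List (S × Bool)) (s : ℝ) : P.wp g w s ∈ P.Gr := by
  rcases P.wp_cases g w s with ⟨h, e⟩ | ⟨l, -, h, s', e⟩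
  · exact e ▸ P.vtx_mem h
  · exact ⟨h, l.1, s', e⟩

theorem wp_occ {w : List (S × Bool)} {l : S × Bool} (hl : l ∈ w) (h : G) {r : ℝ} (h0 : 0 ≤ r)
    (h1 : r ≤ 1) : ∃ (g : G) (u : ℝ), 0 ≤ u ∧ u ≤ w.length ∧ P.wp g w u = P.lp h l r := by
  induction w with
  | nil => exact absurd hl List.not_mem_nil
  | cons a w ih =>
    have : (0 : ℝ) ≤ w.length := Nat.cast_nonneg _
    rcases List.mem_cons.1 hl with rfl | hl
    · exact ⟨h, r, h0, by push_cast [List.length_cons]; linarith, by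
        rw [wp, if_pos h1, clamp_of_mem h0 h1]⟩
    · obtain ⟨g, u, u0, u1, e⟩ := ih hl
      refine ⟨nxt P.d g (a.1, !a.2), u + 1, by linarith, by push_cast [List.length_cons]; linarith, ?_⟩
      rw [wp_cons _ _ _ _ (by linarith), add_sub_cancel_right, ← e]
      congr 1
      obtain ⟨a, _ | _⟩ := a <;> simp [nxt]

variable {P} in
theorem Gr_third {x : VV G S T} (h : x ∈ P.Gr) (k : G) : (x k).2.2 = 0 := by
  obtain ⟨g, b, s, -, -, rfl⟩ := h
  rfl

def face (g : G) (c : T) (z : Fin 2 → ℝ) : VV G S T :=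
  (1 - (z 1 + 1) / 2) • P.wp g (P.R c) ((P.R c).length * ((z 0 + 1) / 2)) +
    ((z 1 + 1) / 2) • P.vtx g +
    fun k => (0, 0, fun c' => if k = g ∧ c' = c then (rho z, rho z • z) else 0)

@[fun_prop] theorem continuous_face (g : G) (c : T) : Continuous (P.face g c) := by
  refine Continuous.add (by fun_prop) (continuous_pi fun k => Continuous.prodMk continuous_const
    (Continuous.prodMk continuous_const (continuous_pi fun c' => ?_)))
  unfold rho
  split_ifs <;> fun_prop

theorem face_third (g : G) (c : T) (z : Fin 2 → ℝ) (k : G) (c' : T) :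
    (P.face g c z k).2.2 c' = if k = g ∧ c' = c then (rho z, rho z • z) else 0 := by
  simp [face, Gr_third (P.wp_mem _ _ _), Gr_third (P.vtx_mem _)]

variable {P} in
theorem face_inj {g g' : G} {c c' : T} {z z' : Fin 2 → ℝ} (h : rho z ≠ 0)
    (e : P.face g c z = P.face g' c' z') : g = g' ∧ c = c' ∧ z = z' := by
  have := congrArg (fun x : VV G S T => (x g).2.2 c) e
  simp only [face_third, and_self, if_true] at this
  split_ifs at this with h'
  · simp only [Prod.mk.injEq] at this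
    refine ⟨h'.1, h'.2, smul_right_injective _ h ?_⟩
    simp only
    rw [this.2, this.1]
  · exact absurd (congrArg Prod.fst this) h

variable {P} in
theorem face_not_mem {g : G} {c : T} {z : Fin 2 → ℝ} (h : rho z ≠ 0) : P.face g c z ∉ P.Gr :=
  fun h' => h (by
    have := P.face_third g c z g c
    rw [Gr_third h'] at this
    simpa using (congrArg Prod.fst this).symm)

theorem face_rho {g : G} {c : T} {z : Fin 2 → ℝ} (h : rho z = 0) : P.face g c z =
    (1 - (z 1 + 1) / 2) • P.wp g (P.R c) ((P.R c).length * ((z 0 + 1) / 2)) +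
      ((z 1 + 1) / 2) • P.vtx g := by
  funext k
  simp [face, h, Prod.mk_zero_zero]
  rfl

theorem face_bottom (g : G) (c : T) {z : Fin 2 → ℝ} (h : z 1 = -1) :
    P.face g c z = P.wp g (P.R c) ((P.R c).length * ((z 0 + 1) / 2)) := by
  rw [P.face_rho (by simp [rho, h])]
  simp [h]

theorem face_rest (g : G) (c : T) {z : Fin 2 → ℝ} (h : z 0 = -1 ∨ z 0 = 1 ∨ z 1 = 1) :
    P.face g c z = P.vtx g := by
  rw [P.face_rho (by rcases h with h | h | h <;> simp [rho, h])]
  rcases h with h | h | h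
  · rw [wp_le _ _ _ (by simp [h]), ← add_smul]; simp
  · rw [wp_ge _ _ _ (by simp [h]), P.closed, ← add_smul]; simp
  · simp [h]

theorem face_sphere (g : G) (c : T) {z : Sq} (h : ‖z.1‖ = 1) :
    ∃ u, 0 ≤ u ∧ u ≤ 1 ∧ P.face g c z.1 = P.wp g (P.R c) ((P.R c).length * u) := by
  rcases z.cases with h' | ⟨-, h' | h'⟩
  · exact absurd h h'.2.ne
  · exact ⟨_, by linarith [z.bounds 0], by linarith [z.bounds 0], P.face_bottom g c h'⟩
  · exact ⟨0, le_rfl, zero_le_one, by rw [P.face_rest g c h', wp_le _ _ _ (by simp)]⟩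

theorem face_sphere_mem (g : G) (c : T) {z : Sq} (h : ‖z.1‖ = 1) : P.face g c z.1 ∈ P.Gr := by
  obtain ⟨u, -, -, e⟩ := P.face_sphere g c h
  exact e ▸ P.wp_mem _ _ _

theorem face_bot (g : G) (c : T) (u : ℝ) (h0 : 0 ≤ u) (h1 : u ≤ 1) :
    P.face g c (bot u h0 h1).1 = P.wp g (P.R c) ((P.R c).length * u) := by
  rw [P.face_bottom g c rfl]
  simp [bot]

theorem edge_face (g : G) {b : S} {c : T} (hc : (b, true) ∈ P.R c) {s : ℝ} (h0 : 0 ≤ s)
    (h1 : s ≤ 1) : ∃ (h : G) (z : Sq), ‖z.1‖ = 1 ∧ P.face h c z.1 = P.edge g b s := by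
  obtain ⟨h, u, u0, u1, e⟩ := P.wp_occ hc g h0 h1
  have hp : (0 : ℝ) < (P.R c).length := by exact_mod_cast List.length_pos_of_mem hc
  refine ⟨h, bot (u / (P.R c).length) (div_nonneg u0 hp.le) ((div_le_one hp).2 u1),
    bot_norm _ _ _, ?_⟩
  rw [face_bot, mul_div_cancel₀ _ hp.ne', e]
  rfl

def sh (h : G) (x : VV G S T) : VV G S T := fun k => x (h⁻¹ * k)

theorem sh_vtx (h g : G) : sh h (P.vtx g) = P.vtx (h * g) := by
  funext k; simp [sh, vtx, inv_mul_eq_iff_eq_mul]

theorem sh_edge (h g : G) (b : S) (s : ℝ) : sh h (P.edge g b s) = P.edge (h * g) b s := by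
  funext k; simp [sh, edge, inv_mul_eq_iff_eq_mul, mul_assoc]

theorem sh_wp (h g : G) (w : List (S × Bool)) (s : ℝ) : sh h (P.wp g w s) = P.wp (h * g) w s := by
  induction w generalizing g s with
  | nil => exact P.sh_vtx _ _
  | cons l w ih =>
    simp only [wp]
    split_ifs
    · unfold lp
      split_ifs <;> simp only [sh_edge, mul_assoc]
    · rw [ih]
      unfold nxt
      split_ifs <;> simp only [mul_assoc]

theorem sh_face (h g : G) (c : T) (z : Fin 2 → ℝ) : sh h (P.face g c z) = P.face (h * g) c z := by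
  unfold face
  rw [← sh_wp, ← sh_vtx]
  funext k
  simp [sh, inv_mul_eq_iff_eq_mul]

def E : Type := {x : VV G S T // ∃ (g : G) (c : T) (z : Sq), P.face g c z.1 = x}

instance : TopologicalSpace P.E := instTopologicalSpaceSubtype
instance : T2Space P.E := inferInstanceAs (T2Space (Subtype _))

def eF (g : G) (c : T) (z : Sq) : P.E := ⟨P.face g c z.1, g, c, z, rfl⟩

@[fun_prop] theorem continuous_eF (g : G) (c : T) : Continuous (P.eF g c) :=
  Continuous.subtype_mk (by fun_prop) _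

theorem exists_eF (x : P.E) : ∃ g c z, P.eF g c z = x := by
  obtain ⟨_, g, c, z, rfl⟩ := x
  exact ⟨g, c, z, rfl⟩

instance [Finite G] [Finite T] : CompactSpace P.E := ⟨by
  have : (univ : Set P.E) = ⋃ g, ⋃ c, range (P.eF g c) := by
    symm
    simpa [eq_univ_iff_forall] using P.exists_eF
  rw [this]
  exact isCompact_iUnion fun g => isCompact_iUnion fun c => isCompact_range (P.continuous_eF g c)⟩

instance : MulAction G P.E where
  smul h x := ⟨sh h x.1, by
    obtain ⟨g, c, z, e⟩ := x.2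
    exact ⟨h * g, c, z, by rw [← e, sh_face]⟩⟩
  one_smul x := Subtype.ext (funext fun k => show x.1 (1⁻¹ * k) = x.1 k by simp)
  mul_smul a b x := Subtype.ext (funext fun k =>
    show x.1 ((a * b)⁻¹ * k) = x.1 (b⁻¹ * (a⁻¹ * k)) by rw [mul_inv_rev, mul_assoc])

instance : ContinuousConstSMul G P.E where
  continuous_const_smul h := continuous_induced_rng.2 (continuous_pi fun k =>
    (continuous_apply (h⁻¹ * k)).comp (continuous_subtype_val (p := fun x : VV G S T =>
      ∃ (g : G) (c : T) (z : Sq), P.face g c z.1 = x)))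

instance : IsCancelSMul G P.E := isCancelSMul_iff_eq_one_of_smul_eq.2 fun h x e => by
  obtain ⟨g, c, z, rfl⟩ := P.exists_eF x
  have e' : sh h (P.face g c z.1) = P.face g c z.1 := congrArg Subtype.val e
  by_cases hz : ‖z.1‖ = 1
  · obtain ⟨k, b, s, h0, h1, e2⟩ := P.face_sphere_mem g c hz
    rw [← e2, sh_edge] at e'
    rcases h0.eq_or_lt with rfl | h0
    · rw [edge_zero, edge_zero] at e'
      simpa using vtx_inj e'
    · rcases h1.eq_or_lt with rfl | h1
      · rw [edge_one, edge_one] at e'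
        simpa using vtx_inj e'
      · simpa using (edge_inj h0 h1 e').1
  · rw [sh_face] at e'
    simpa using (face_inj (Sq.rho_ne hz) e').1

def eE (g : G) (b : S) (s : ℝ) : P.E := ⟨P.edge g b (clamp s), by
  obtain ⟨c, hc⟩ := P.occ b
  obtain ⟨h, z, -, e⟩ := P.edge_face g hc (clamp_nonneg s) (clamp_le_one s)
  exact ⟨h, c, z, e⟩⟩

@[fun_prop] theorem continuous_eE (g : G) (b : S) : Continuous (P.eE g b) :=
  Continuous.subtype_mk (by fun_prop) _

def eV (g : G) : P.E := P.eE g P.s0 0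

theorem eV_val (g : G) : (P.eV g).1 = P.vtx g := by
  simp [eV, eE, clamp_of_le, edge_zero]

theorem smul_eF (h g : G) (c : T) (z : Sq) : h • P.eF g c z = P.eF (h * g) c z :=
  Subtype.ext (P.sh_face _ _ _ _)
theorem smul_eE (h g : G) (b : S) (s : ℝ) : h • P.eE g b s = P.eE (h * g) b s :=
  Subtype.ext (P.sh_edge _ _ _ _)

theorem eE_le (g : G) (b : S) {s : ℝ} (h : s ≤ 0) : P.eE g b s = P.eV g :=
  Subtype.ext (by rw [eV_val]; simp [eE, clamp_of_le h, edge_zero])

theorem eE_ge (g : G) (b : S) {s : ℝ} (h : 1 ≤ s) : P.eE g b s = P.eV (g * P.d b) :=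
  Subtype.ext (by rw [eV_val]; simp [eE, clamp_of_ge h, edge_one])

abbrev K : Type := Quotient (MulAction.orbitRel G P.E)

def pr : P.E → P.K := Quotient.mk _

variable [Finite G] [Finite T]

theorem pr_cover : IsQuotientCoveringMap P.pr G :=
  isQuotientCoveringMap_quotientMk_of_properlyDiscontinuousSMul

@[fun_prop] theorem continuous_pr : Continuous P.pr := P.pr_cover.continuous

variable {P} in
theorem pr_eq {a b : P.E} (h : P.pr a = P.pr b) : ∃ g : G, sh g b.1 = a.1 := by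
  obtain ⟨g, e⟩ := P.pr_cover.apply_eq_iff_mem_orbit.1 h
  exact ⟨g, congrArg Subtype.val e⟩

theorem pr_smul (g : G) (a : P.E) : P.pr (g • a) = P.pr a := P.pr_cover.map_smul g

theorem pr_eF (g : G) (c : T) (z : Sq) : P.pr (P.eF g c z) = P.pr (P.eF 1 c z) := by
  rw [← P.pr_smul g (P.eF 1 c z), smul_eF, mul_one]
theorem pr_eE (g : G) (b : S) (s : ℝ) : P.pr (P.eE g b s) = P.pr (P.eE 1 b s) := by
  rw [← P.pr_smul g (P.eE 1 b s), smul_eE, mul_one]
theorem pr_eV (g : G) : P.pr (P.eV g) = P.pr (P.eV 1) := P.pr_eE _ _ _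

variable {P} in
theorem pr_F_inj {c c' : T} {z z' : Sq} (h : ‖z.1‖ ≠ 1)
    (e : P.pr (P.eF 1 c z) = P.pr (P.eF 1 c' z')) : c = c' ∧ z = z' := by
  obtain ⟨g, e⟩ := pr_eq e
  have := face_inj (Sq.rho_ne h) (e.symm.trans (P.sh_face _ _ _ _))
  exact ⟨this.2.1, Subtype.ext this.2.2⟩

variable {P} in
theorem pr_F_ne {c : T} {b : S} {z : Sq} {s : ℝ} (h : ‖z.1‖ ≠ 1) :
    P.pr (P.eF 1 c z) ≠ P.pr (P.eE 1 b s) :=
  fun e => by
    obtain ⟨g, e⟩ := pr_eq e
    exact face_not_mem (Sq.rho_ne h)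
      ⟨_, _, _, clamp_nonneg s, clamp_le_one s, (P.sh_edge _ _ _ _).symm.trans e⟩

variable {P} in
theorem pr_E_inj {b b' : S} {s s' : ℝ} (h0 : 0 < s) (h1 : s < 1)
    (e : P.pr (P.eE 1 b s) = P.pr (P.eE 1 b' s')) : b = b' ∧ s = clamp s' := by
  obtain ⟨g, e⟩ := pr_eq e
  have e' : P.edge 1 b (clamp s) = _ := e.symm.trans (P.sh_edge _ _ _ _)
  rw [clamp_of_mem h0.le h1.le] at e'
  exact (edge_inj h0 h1 e').2

theorem pr_sphere (c : T) {z : Sq} (h : ‖z.1‖ = 1) : P.pr (P.eF 1 c z) = P.pr (P.eV 1) ∨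
    ∃ l ∈ P.R c, ∃ s, 0 < s ∧ s < 1 ∧ P.pr (P.eF 1 c z) = P.pr (P.eE 1 l.1 s) := by
  obtain ⟨u, -, -, e⟩ := P.face_sphere 1 c h
  rcases P.wp_cases 1 (P.R c) ((P.R c).length * u) with ⟨k, e'⟩ | ⟨l, hl, k, s, h0, h1, e'⟩
  · refine .inl ?_
    rw [← P.pr_eV k]
    exact congrArg P.pr (Subtype.ext ((e.trans e').trans (P.eV_val k).symm))
  · have e2 : P.pr (P.eF 1 c z) = P.pr (P.eE 1 l.1 s) := by
      rw [← P.pr_eE k]
      refine congrArg P.pr (Subtype.ext (e.trans (e'.symm.trans ?_)))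
      simp [eE, clamp_of_mem h0 h1]
    rcases h0.eq_or_lt with rfl | h0
    · exact .inl (by rw [e2, P.eE_le _ _ le_rfl])
    · rcases h1.eq_or_lt with rfl | h1
      · exact .inl (by rw [e2, P.eE_ge _ _ le_rfl, pr_eV])
      · exact .inr ⟨l, hl, s, h0, h1, e2⟩

theorem pr_E_F {b : S} {c : T} (hc : (b, true) ∈ P.R c) (s : ℝ) :
    ∃ z : Sq, ‖z.1‖ = 1 ∧ P.pr (P.eE 1 b s) = P.pr (P.eF 1 c z) := by
  obtain ⟨h, z, hz, e⟩ := P.edge_face 1 hc (clamp_nonneg s) (clamp_le_one s)
  exact ⟨z, hz, by rw [← P.pr_eF h]; exact congrArg P.pr (Subtype.ext e.symm)⟩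

theorem exists_pr (x : P.K) : ∃ c z, P.pr (P.eF 1 c z) = x := by
  obtain ⟨a, rfl⟩ := P.pr_cover.surjective x
  obtain ⟨g, c, z, rfl⟩ := P.exists_eF a
  exact ⟨c, z, (P.pr_eF g c z).symm⟩

end Pres

def Cel (S T : Type) : ℕ → Type
  | 0 => Unit
  | 1 => S
  | 2 => T
  | _ + 3 => Empty

namespace Pres

variable {G S T : Type} [Group G] (P : Pres G S T)

def chi : ∀ n, Cel S T n → (Fin n → ℝ) → P.E
  | 0, _, _ => P.eV 1
  | 1, b, v => P.eE 1 b ((v 0 + 1) / 2)
  | 2, c, z => P.eF 1 c (prj z)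
  | _ + 3, i, _ => i.elim

theorem continuous_chi : ∀ n i, Continuous (P.chi n i)
  | 0, _ => continuous_const
  | 1, b => (P.continuous_eE 1 b).comp (by fun_prop)
  | 2, c => (P.continuous_eF 1 c).comp continuous_prj
  | _ + 3, i => i.elim

theorem chi_vec1 (b : S) (s : ℝ) : P.chi 1 b (vec1 s) = P.eE 1 b s := by
  simp [chi, vec1]

variable [Finite G] [Finite T]

theorem chi_inj : ∀ (n : ℕ) (i j : Cel S T n), ∀ z ∈ ball (0 : Fin n → ℝ) 1,
    ∀ z' ∈ closedBall (0 : Fin n → ℝ) 1, P.pr (P.chi n i z) = P.pr (P.chi n j z') → i = j ∧ z = z'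
  | 0, _, _, _, _, _, _, _ => ⟨rfl, Subsingleton.elim _ _⟩
  | 1, _, _, z, hz, z', hz', e => by
    have := pr_E_inj (ball1 hz).1 (ball1 hz).2 e
    rw [clamp_of_mem (cball1 hz').1 (cball1 hz').2] at this
    refine ⟨this.1, funext fun i => ?_⟩
    rw [Subsingleton.elim i 0]
    linarith [this.2]
  | 2, _, _, z, hz, z', hz', e => by
    have := pr_F_inj (ball2 hz) e
    rw [prj_of_mem (ball_subset_closedBall hz), prj_of_mem hz'] at this
    exact ⟨this.1, congrArg Subtype.val this.2⟩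
  | _ + 3, i, _, _, _, _, _, _ => i.elim

theorem chi_ne : ∀ (n m : ℕ) (i : Cel S T n) (j : Cel S T m), m < n →
    ∀ z ∈ ball (0 : Fin n → ℝ) 1, ∀ z', P.pr (P.chi n i z) ≠ P.pr (P.chi m j z')
  | 1, 0, _, _, _, z, hz, _ => fun e => by
    have := (pr_E_inj (ball1 hz).1 (ball1 hz).2 e).2
    rw [clamp_of_le le_rfl] at this
    exact (ball1 hz).1.ne' this
  | 2, 0, _, _, _, _, hz, _ => pr_F_ne (ball2 hz)
  | 2, 1, _, _, _, _, hz, _ => pr_F_ne (ball2 hz)
  | _ + 3, _, i, _, _, _, _, _ => i.elim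

theorem vec1_mem {s : ℝ} (h0 : 0 < s) (h1 : s < 1) : vec1 s ∈ ball (0 : Fin 1 → ℝ) 1 := by
  rw [mem_ball_zero_iff, norm_fin1, abs_lt, vec1]
  constructor <;> linarith

theorem chi_sphere : ∀ (n : ℕ) (i : Cel S T n), ∀ z ∈ sphere (0 : Fin n → ℝ) 1,
    ∃ m < n, ∃ j : Cel S T m, ∃ z' ∈ closedBall (0 : Fin m → ℝ) 1,
      P.pr (P.chi m j z') = P.pr (P.chi n i z)
  | 0, _, z, hz => by
    rw [Subsingleton.elim z 0, mem_sphere_zero_iff_norm, norm_zero] at hz
    exact absurd hz zero_ne_one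
  | 1, b, z, hz => by
    refine ⟨0, zero_lt_one, (), 0, by simp, ?_⟩
    rw [mem_sphere_zero_iff_norm, norm_fin1, abs_eq zero_le_one] at hz
    rcases hz with h | h
    · rw [chi, chi, P.eE_ge _ _ (by simp [h]), P.pr_eV (1 * _)]
    · rw [chi, chi, P.eE_le _ _ (by simp [h])]
  | 2, c, z, hz => by
    rcases P.pr_sphere c (z := prj z) (by
      rw [prj_of_mem (sphere_subset_closedBall hz)]
      exact mem_sphere_zero_iff_norm.1 hz) with e | ⟨l, -, s, h0, h1, e⟩
    · exact ⟨0, two_pos, (), 0, by simp, e.symm⟩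
    · exact ⟨1, one_lt_two, l.1, vec1 s, ball_subset_closedBall (vec1_mem h0 h1),
        by rw [chi_vec1]; exact e.symm⟩
  | _ + 3, i, _, _ => i.elim

theorem chi_injOn (n : ℕ) (i : Cel S T n) : InjOn (fun z => P.pr (P.chi n i z)) (ball 0 1) :=
  fun z hz z' hz' e => (P.chi_inj n i i z hz z' (ball_subset_closedBall hz') e).2

def cmap (n : ℕ) (i : Cel S T n) : PartialEquiv (Fin n → ℝ) P.K :=
  (P.chi_injOn n i).toPartialEquiv _ _

theorem cmap_apply (n : ℕ) (i : Cel S T n) (z : Fin n → ℝ) : P.cmap n i z = P.pr (P.chi n i z) :=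
  rfl

theorem _root_.Pool.Agent.Lib.MP_2add11_gt.FG.cel_finite [Finite S] :
    ∀ n, Finite (Cel S T n)
  | 0 => inferInstanceAs (Finite Unit)
  | 1 => inferInstanceAs (Finite S)
  | 2 => inferInstanceAs (Finite T)
  | _ + 3 => inferInstanceAs (Finite Empty)

omit [Finite T] in
theorem _root_.Pool.Agent.Lib.MP_2add11_gt.FG.cel_empty :
    ∀ᶠ n in Filter.atTop, IsEmpty (Cel S T n) :=
  Filter.eventually_atTop.2 ⟨3, fun n hn => by
    obtain ⟨k, rfl⟩ := Nat.exists_eq_add_of_le' hn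
    exact inferInstanceAs (IsEmpty Empty)⟩

theorem cmap_cont (n : ℕ) (i : Cel S T n) : ContinuousOn (P.cmap n i) (closedBall 0 1) :=
  (P.continuous_pr.comp (P.continuous_chi n i)).continuousOn

theorem cmap_symm (n : ℕ) (i : Cel S T n) : ContinuousOn (P.cmap n i).symm (P.cmap n i).target :=
  continuousOn_inv_cell (P.cmap_cont n i) (fun z hz z' hz' e => (P.chi_inj n i i z hz z' hz' e).2)
    fun _ hz => (P.cmap n i).left_inv hz

theorem cmap_disj : (univ : Set (Σ n, Cel S T n)).PairwiseDisjoint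
    fun ni => P.cmap ni.1 ni.2 '' ball 0 1 := by
  rintro ⟨n, i⟩ - ⟨m, j⟩ - hne
  refine disjoint_left.2 ?_
  rintro _ ⟨z, hz, rfl⟩ ⟨z', hz', e⟩
  rcases lt_trichotomy n m with h | rfl | h
  · exact P.chi_ne m n j i h z' hz' z e
  · obtain ⟨rfl, -⟩ := P.chi_inj n j i z' hz' z (ball_subset_closedBall hz) e
    exact hne rfl
  · exact P.chi_ne n m i j h z hz z' e.symm

theorem cmap_mapsTo (n : ℕ) (i : Cel S T n) : MapsTo (P.cmap n i) (sphere 0 1)
    (⋃ m, ⋃ (_ : m < n), ⋃ j : Cel S T m, P.cmap m j '' closedBall 0 1) := fun z hz => by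
  obtain ⟨m, hm, j, z', hz', e⟩ := P.chi_sphere n i z hz
  simp only [mem_iUnion]
  exact ⟨m, hm, j, z', hz', e⟩

theorem cmap_union : ⋃ n, ⋃ j : Cel S T n, P.cmap n j '' closedBall 0 1 = univ :=
  eq_univ_of_forall fun x => by
    obtain ⟨c, z, rfl⟩ := P.exists_pr x
    simp only [mem_iUnion]
    exact ⟨2, c, z.1, z.2, by rw [cmap_apply, chi, prj_val]⟩

variable [Finite S]

instance cwK : CWComplex (univ : Set P.K) :=
  CWComplex.mkFinite univ (Cel S T) P.cmap cel_empty cel_finite (fun _ _ => rfl) P.cmap_cont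
    P.cmap_symm P.cmap_disj P.cmap_mapsTo P.cmap_union

theorem finiteK : CWComplex.Finite (univ : Set P.K) :=
  CWComplex.finite_mkFinite univ (Cel S T) P.cmap cel_empty cel_finite (fun _ _ => rfl) P.cmap_cont
    P.cmap_symm P.cmap_disj P.cmap_mapsTo P.cmap_union

end Pres

end Pool.Agent.Lib.MP_2add11_gt.FG
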