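import Pool.Agent.Lib.MP_2add11_gt.FG.Two

/-!
The squares in the monoid of Moore loops that deform the new 2-cells.
-/

noncomputable section

namespace Pool.Agent.Lib.MP_2add11_gt.FG

open unitInterval ML

variable {G ι X : Type} [TopologicalSpace X] {x0 : X}

abbrev c1 : ML x0 := cst 1 zero_le_one

theorem rev_c1 : rev (c1 : ML x0) = c1 := ext' (fun _ => rfl) rfl

theorem cst_mul (a b : ℝ) (ha : 0 ≤ a) (hb : 0 ≤ b) :
    (cst a ha * cst b hb : ML x0) = cst (a + b) (add_nonneg ha hb) :=
  ext' (fun s => by simp [mul_f]) rfl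

theorem fold_rel {t : G → ML x0} (ht : ∀ g, (t g).len = 1) (w : List ((G × ι) × Bool)) :
    ∃ d : Path (rel t (fun g => rev (t g)) (fun _ => c1) (fun _ => c1) w)
      (cst (3 * w.length) (by positivity)), ∀ u s, (d u).f s = x0 ∨ ∃ g s', (d u).f s = (t g).f s' := by
  induction w with
  | nil => exact ⟨(Path.refl 1).cast rfl (ext' (fun _ => rfl) (by simp)), fun _ _ => .inl rfl⟩
  | cons x w ih =>
    obtain ⟨d, hd⟩ := ih
    let h : ML x0 := cst (1 / 2) (by norm_num)
    have e1 : t x.1.1 * ((if x.2 then c1 else c1) * rev (t x.1.1)) =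
        t x.1.1 * h * rev (t x.1.1 * h) := by
      rw [ite_self, rev_mul, mul_assoc, ← mul_assoc h, show rev h = h from ext' (fun _ => rfl) rfl,
        cst_mul]
      congr 3
      norm_num
    refine ⟨((fold (t x.1.1 * h)).mul d).cast (by rw [rel_cons, e1]) (by
      rw [cst_mul]
      congr 1
      simp [ht, h]
      ring), fun u s => ?_⟩
    change (fold (t x.1.1 * h) u * d u).f s = x0 ∨
      ∃ g s', (fold (t x.1.1 * h) u * d u).f s = (t g).f s'
    rw [mul_f]
    split_ifs
    · change (t x.1.1 * h).f _ = x0 ∨ ∃ g s', (t x.1.1 * h).f _ = (t g).f s'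
      rw [mul_f]
      split_ifs
      · exact .inr ⟨_, _, rfl⟩
      · exact .inl rfl
    · exact hd _ _

theorem square_of {a b c : ML x0} (e : Path a c) (B : Path a b) (d : Path b c)
    (h : e.Homotopic (B.trans d)) : ∃ F : C(I × I, ML x0), (∀ v, F (0, v) = e v) ∧
      (∀ s : I, F (s, 0) = B (Set.projIcc 0 1 zero_le_one (2 * s - 1))) ∧ (∀ s, F (s, 1) = c) ∧
      ∀ v, ∃ u, F (1, v) = d u := by
  obtain ⟨K⟩ := h
  let m : I → I := fun s => Set.projIcc 0 1 zero_le_one (2 * s - 1)
  let l : I → I := fun s => Set.projIcc 0 1 zero_le_one (2 * s)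
  have hm : Continuous m := continuous_projIcc.comp (by fun_prop)
  have hl : Continuous l := continuous_projIcc.comp (by fun_prop)
  let x : I × I → I := fun z => ⟨m z.1 / 2 + (1 - m z.1 / 2) * z.2, by
    have h1 := nonneg (m z.1); have h2 := le_one (m z.1)
    have h3 := nonneg z.2; have h4 := le_one z.2
    constructor <;> nlinarith⟩
  have hx : Continuous x := Continuous.subtype_mk (by fun_prop) _
  have m0 : m 0 = 0 := by simp [m]
  have m1 : m 1 = 1 := by simp [m]; norm_num
  have l0 : l 0 = 0 := by simp [l]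
  have l1 : l 1 = 1 := Set.projIcc_of_right_le _ (by simp)
  refine ⟨⟨fun z => K (l z.1, x z), by fun_prop⟩, fun v => ?_, fun s => ?_, fun s => ?_,
    fun v => ?_⟩
  · have : x (0, v) = v := Subtype.ext (by simp [x, m0])
    simp [l0, this]
  · change K (l s, x (s, 0)) = B (m s)
    rcases le_total (s : ℝ) (1 / 2) with h | h
    · have h1 : m s = 0 := Set.projIcc_of_le_left _ (by linarith)
      have : x (s, 0) = 0 := Subtype.ext (by simp [x, h1])
      rw [this, h1, K.source, B.source]
    · have h1 : l s = 1 := Set.projIcc_of_right_le _ (by linarith)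
      have h2 := le_one (m s)
      rw [h1, K.apply_one, Path.coe_toContinuousMap, Path.trans_apply,
        dif_pos (by simp only [x]; simp; linarith)]
      congr 1
      apply Subtype.ext
      simp only [x]; simp; ring
  · have : x (s, 1) = 1 := Subtype.ext (by simp [x])
    change K (l s, x (s, 1)) = _
    rw [this, K.target]
  · change ∃ u, K (l 1, x (1, v)) = _
    rw [l1, K.apply_one, Path.coe_toContinuousMap, Path.trans_apply]
    split_ifs with h
    · have h2 : ∀ u : I, (u : ℝ) = 1 → B u = d 0 := fun u hu => by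
        obtain rfl : u = 1 := Subtype.ext hu
        rw [Path.target, Path.source]
      refine ⟨0, h2 _ ?_⟩
      have h3 := nonneg v
      simp only [x, m1] at h ⊢
      simp at h ⊢
      linarith
    · exact ⟨_, rfl⟩

theorem relPath_homotopic {t : G → ML x0} {y : ι → ML x0} {A B : ∀ i, Path (y i) c1}
    (h : ∀ i, (A i).Homotopic (B i)) (w : List ((G × ι) × Bool)) :
    (relPath rev t rev_c1 A w).Homotopic (relPath rev t rev_c1 B w) := by
  let H := fun i => (h i).some
  refine ⟨⟨⟨⟨fun z => rel t (fun g => rev (t g)) (fun i => H i z) (fun i => rev (H i z)) w,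
    continuous_rel _ _ (fun i => (H i).continuous)
      (fun i => rev.continuous.comp (H i).continuous) w⟩, fun s => ?_, fun s => ?_⟩, ?_⟩⟩
  · simp only [(H _).apply_zero]
    rfl
  · simp only [(H _).apply_one]
    rfl
  · intro s x hx
    change rel t (fun g => rev (t g)) (fun i => H i (s, x)) (fun i => rev (H i (s, x))) w = _
    simp only [(H _).eq_fst s hx]
    rfl

theorem square [Group G] [Fintype ι] [DecidableEq ι] {t : G → ML x0} {y : ι → ML x0}
    {w : ι → List ((G × ι) × Bool)} (hw : NS fun i => FreeGroup.mk (w i))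
    (hu : IsUnit (jac fun i => FreeGroup.mk (w i))) (ht : ∀ g, (t g).len = 1)
    (hy : ∀ i, (y i).len = 1) (h5 : ∀ g h, Joined (t g * (t h * rev (t (g * h)))) 1)
    (e : ∀ i, Path (rel t (fun g => rev (t g)) y (fun i => rev (y i)) (w i))
      (cst (3 * (w i).length) (by positivity))) :
    ∃ (A : I → ι → ML x0) (F : ι → C(I × I, ML x0)), (∀ s i, (A s i).len = 1) ∧
      (∀ i v, F i (0, v) = e i v) ∧
      (∀ i s, F i (s, 0) = rel t (fun g => rev (t g)) (A s) (fun j => rev (A s j)) (w i)) ∧
      (∀ i s, F i (s, 1) = cst (3 * (w i).length) (by positivity)) ∧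
      ∀ i v s, (F i (1, v)).f s = x0 ∨ ∃ g s', (F i (1, v)).f s = (t g).f s' := by
  have hc : Joined (c1 : ML x0) 1 := ⟨shrink _ _⟩
  have A0 : ∀ i, Path (y i) c1 := fun i => ((joined_of_ns hw (fun g => joined_rev (t g))
    (fun g => joined_rev' (t g)) (fun i => joined_rev (y i)) (fun i => joined_rev' (y i)) h5
    (fun i => ⟨(e i).trans (shrink _ _)⟩) i).trans hc.symm).somePath
  choose d hd using fun i => fold_rel ht (w i)
  obtain ⟨B0, hB0, hB⟩ := top_main rev rev_mul rev_rev eta eta0 eta1 eta2 hu h5 rev_c1 hc e d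
    (fun i => shrink _ _) fun i => norm1 (hy i) rfl (A0 i)
  have hpos : ∀ i s, 0 < (B0 i s).len := fun i s => by
    obtain ⟨a, ha⟩ := hB0 i s
    have := a.len_nonneg
    rw [ha, mul_len]
    change 0 < a.len + 1
    linarith
  let B := fun i => norm1 (hy i) rfl (B0 i)
  choose F F0 F1 F2 F3 using fun i => square_of (e i) (relPath rev t rev_c1 B (w i)) (d i)
    ((hB i).trans ((relPath_homotopic (fun j => norm1_homotopic (hy j) rfl (B0 j) (hpos j))
      (w i)).hcomp (Path.Homotopic.refl (d i))))
  refine ⟨fun s j => B j (Set.projIcc 0 1 zero_le_one (2 * s - 1)), F, fun _ _ => rfl, F0, F1, F2,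
    fun i v s => ?_⟩
  obtain ⟨u, hu⟩ := F3 i v
  rw [hu]
  exact hd i u s

end Pool.Agent.Lib.MP_2add11_gt.FG
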