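import Pool.Agent.Lib.MP_2add11_gt.FG.Geo

/-!
Choice of a maximal tree and the corresponding change of the splitting.
-/

noncomputable section

namespace Pool.Agent.Lib.MP_2add11_gt.FG

open Matrix Classical

theorem Inv.trig {R W n : Type} [Ring R] [AddCommGroup W] [Fintype n] [DecidableEq n] (c : Inv R W)
    (rk : n → ℕ) {A : Matrix n n R}
    (hd : ∀ i, IsUnit (A i i) ∧ c.c (Matrix.of fun _ _ : Unit => A i i) = 0)
    (h : ∀ i j, i ≠ j → A i j ≠ 0 → rk j < rk i) : IsUnit A ∧ c.c A = 0 := by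
  have h1 := c.diag (fun i => (hd i).1) fun i => (hd i).2
  have h2 := c.nilp rk (N := Matrix.of fun i j => if i = j then 0 else ↑(hd i).1.unit⁻¹ * A i j)
    fun i j h3 => by
      by_cases e : i = j
      · simp [e] at h3
      · exact h i j e fun h4 => h3 (by simp [h4])
  have e : A = diagonal (fun i => A i i) * (1 + Matrix.of fun i j =>
      if i = j then 0 else ↑(hd i).1.unit⁻¹ * A i j) := by
    ext1 i j
    by_cases e : i = j
    · simp [diagonal_mul, e]
    · simp [diagonal_mul, e, ← mul_assoc]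
  refine ⟨e ▸ h1.1.mul h2.1, ?_⟩
  rw [e, c.mul h1.1 h2.1, h1.2, h2.2, add_zero]

theorem Inv.resplit {R W n F V : Type} [Ring R] [AddCommGroup W] [Fintype n] [DecidableEq n]
    [Fintype F] [Fintype V] (c : Inv R W) (b : F ⊕ V ≃ n) (M : GL n R) {D : n → V → R}
    (h1 : ∀ e v, ∑ j, M.val (b (.inl e)) j * D j v = 0)
    (h2 : ∀ v v', ∑ j, M.val (b (.inr v)) j * D j v' = if v = v' then 1 else 0) (T : V → n)
    {M' : Matrix n n R} (h3 : ∀ e j, M' (b (.inl e)) j = M.val (b (.inl e)) j)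
    (h4 : ∀ v j, M' (b (.inr v)) j = if T v = j then 1 else 0)
    (h5 : IsUnit (Matrix.of fun v v' => D (T v) v') ∧ c.c (Matrix.of fun v v' => D (T v) v') = 0) :
    IsUnit M' ∧ c.c M' = c.c M.val := by
  have e1 : M.val * Matrix.of D = Matrix.of fun i v => if i = b (.inr v) then 1 else 0 := by
    ext1 i v
    obtain ⟨i | i, rfl⟩ := b.surjective i
    · simpa [mul_apply] using h1 i v
    · simpa [mul_apply] using h2 i v
  have e2 : ∀ j v, D j v = (M⁻¹).val j (b (.inr v)) := fun j v => by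
    have : (M⁻¹).val * (M.val * Matrix.of D) = Matrix.of D := by
      rw [← Matrix.mul_assoc, M.inv_mul, Matrix.one_mul]
    rw [e1] at this
    simpa [mul_apply] using (congrFun (congrFun this j) v).symm
  have e3 : (M' * (M⁻¹).val).submatrix b b = fromBlocks 1 0
      (Matrix.of fun v e => (M⁻¹).val (T v) (b (.inl e))) (Matrix.of fun v v' => D (T v) v') := by
    have : ∀ e k, (M' * (M⁻¹).val) (b (.inl e)) k = (1 : Matrix n n R) (b (.inl e)) k := by
      intro e k
      rw [← M.mul_inv, mul_apply, mul_apply]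
      simp only [h3]
    ext1 (i | i) (j | j)
    · simp [-Matrix.coe_units_inv, this, one_apply]
    · simp [-Matrix.coe_units_inv, this, one_apply]
    · simp [-Matrix.coe_units_inv, mul_apply, h4]
    · simp [-Matrix.coe_units_inv, mul_apply, h4, e2]
  have h6 := c.tri (isUnit_one (M := Matrix F F R)) h5.1
    (Matrix.of fun v e => (M⁻¹).val (T v) (b (.inl e)))
  rw [← e3, c.one, h5.2, add_zero] at h6
  have h7 : IsUnit (M' * (M⁻¹).val) := by simpa using isUnit_sub b.symm h6.1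
  have e4 : M' = M' * (M⁻¹).val * M.val := by rw [Matrix.mul_assoc, M.inv_mul, Matrix.mul_one]
  rw [e4, c.mul h7 M.isUnit, ← c.sub b h7, h6.2, zero_add]
  exact ⟨h7.mul M.isUnit, rfl⟩

variable {G E V J : Type} [Group G]

theorem fox_sum [Fintype J] [DecidableEq J] (d : J → MonoidAlgebra ℤ G) (g : G)
    (w : FreeGroup (G × J)) :
    FreeGroup.lift (fun x => Multiplicative.ofAdd ((d x.2).coeff (x.1⁻¹ * g))) w =
      Multiplicative.ofAdd ((∑ j, fox j w * d j).coeff g) := by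
  induction w using FreeGroup.induction_on with
  | C1 => simp [fox]
  | of x => simp [fox]
  | inv_of x => simp [fox, neg_ite]
  | mul x y h1 h2 =>
    rw [map_mul, h1, h2]
    simp [fox, add_mul, Finset.sum_add_distrib]

theorem fox_coeff [DecidableEq J] (j : J) (g : G) (w : FreeGroup (G × J)) :
    FreeGroup.lift (fun x => Multiplicative.ofAdd (if x = (g, j) then (1 : ℤ) else 0)) w =
      Multiplicative.ofAdd ((fox j w).coeff g) := by
  have : ∀ x : G × J, (if x = (g, j) then (1 : ℤ) else 0) = (fox j (.of x)).coeff g := by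
    rintro ⟨h, i⟩
    by_cases e : i = j <;> simp [fox, e, Finsupp.single_apply]
  induction w using FreeGroup.induction_on with
  | C1 => simp [fox]
  | of x => rw [FreeGroup.lift_apply_of, this]
  | inv_of x h => rw [map_inv, h]; simp [fox]
  | mul x y h1 h2 =>
    rw [map_mul, h1, h2]
    simp [fox]

variable [MulAction G E] (pt : V → E)

def dl (y : E) (v : V) : MonoidAlgebra ℤ G :=
  if h : ∃ g : G, y = g • pt v then .single h.choose 1 else 0

variable {pt} (hp : ∀ (g g' : G) v v', g • pt v = g' • pt v' → g = g' ∧ v = v')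
include hp

theorem dl_coeff (y : E) (v : V) (g : G) :
    (dl pt y v).coeff g = if y = g • pt v then 1 else 0 := by
  unfold dl
  split_ifs with h1 h2 h2
  · rw [(hp _ _ _ _ (h1.choose_spec.symm.trans h2)).1]
    simp
  · exact Finsupp.single_eq_of_ne fun e => h2 (e ▸ h1.choose_spec)
  · exact absurd ⟨g, h2⟩ h1
  · rfl

theorem exists_tree [Fintype V] [Fintype J] (st en : J → E) (δ : V → J → MonoidAlgebra ℤ G)
    (h : ∀ v v', ∑ j, δ v j * (dl pt (en j) v' - dl pt (st j) v') = if v = v' then 1 else 0) :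
    ∃ (T : V → J) (rk : V → ℕ), ∀ v, ∃ y y', (y = en (T v) ∧ y' = st (T v) ∨
      y = st (T v) ∧ y' = en (T v)) ∧ (∃ g : G, y = g • pt v) ∧
      ∀ v', (∃ g : G, y' = g • pt v') → rk v' < rk v := by
  obtain ⟨R, R0, R1⟩ : ∃ R : ℕ → Set V, (∀ v, v ∉ R 0) ∧ ∀ k v, v ∈ R (k + 1) ↔ ∃ j y y',
      (y = en j ∧ y' = st j ∨ y = st j ∧ y' = en j) ∧ (∃ g : G, y = g • pt v) ∧
      ∀ v', (∃ g : G, y' = g • pt v') → v' ∈ R k :=
    ⟨Nat.rec ∅ fun _ s => {v | ∃ j y y', (y = en j ∧ y' = st j ∨ y = st j ∧ y' = en j) ∧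
      (∃ g : G, y = g • pt v) ∧ ∀ v', (∃ g : G, y' = g • pt v') → v' ∈ s}, fun _ => id,
      fun _ _ => Iff.rfl⟩
  have hu : ∀ {y v v'}, (∃ g : G, y = g • pt v) → (∃ g : G, y = g • pt v') → v = v' :=
    fun ⟨_, e⟩ ⟨_, e'⟩ => (hp _ _ _ _ (e.symm.trans e')).2
  have key : ∀ v, ∃ k, v ∈ R k := by
    by_contra! h0
    obtain ⟨v0, h0⟩ := h0
    let A : Finset V := Finset.univ.filter fun v => ∀ k, v ∉ R k
    have h1 : ∀ j y y', (y = en j ∧ y' = st j ∨ y = st j ∧ y' = en j) →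
        (∃ v ∈ A, ∃ g : G, y = g • pt v) → ∃ v ∈ A, ∃ g : G, y' = g • pt v := by
      rintro j y y' hy ⟨v, hv, hg⟩
      by_contra h2
      by_cases h3 : ∃ v', ∃ g : G, y' = g • pt v'
      · obtain ⟨v', h3⟩ := h3
        obtain ⟨k, hk⟩ : ∃ k, v' ∈ R k := by
          by_contra! h4
          exact h2 ⟨v', Finset.mem_filter.2 ⟨Finset.mem_univ _, h4⟩, h3⟩
        exact (Finset.mem_filter.1 hv).2 (k + 1)
          ((R1 _ _).2 ⟨j, y, y', hy, hg, fun u hu' => hu h3 hu' ▸ hk⟩)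
      · exact (Finset.mem_filter.1 hv).2 (0 + 1)
          ((R1 _ _).2 ⟨j, y, y', hy, hg, fun u hu' => absurd ⟨u, hu'⟩ h3⟩)
    let ε : MonoidAlgebra ℤ G →ₐ[ℤ] ℤ := MonoidAlgebra.lift ℤ ℤ G 1
    have h2 : ∀ y, ∑ v ∈ A, ε (dl pt y v) = if ∃ v ∈ A, ∃ g : G, y = g • pt v then 1 else 0 := by
      intro y
      split_ifs with h3
      · obtain ⟨v, hv, h3⟩ := h3
        rw [Finset.sum_eq_single_of_mem v hv fun u _ e => by
          rw [dl, dif_neg fun h4 => e (hu h4 h3), map_zero], dl, dif_pos h3]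
        simp [ε]
      · exact Finset.sum_eq_zero fun u h4 => by rw [dl, dif_neg fun h5 => h3 ⟨u, h4, h5⟩, map_zero]
    have h3 : ∑ v ∈ A, ε (∑ j, δ v0 j * (dl pt (en j) v - dl pt (st j) v)) = 0 := by
      simp only [map_sum, map_mul, map_sub]
      rw [Finset.sum_comm]
      refine Finset.sum_eq_zero fun j _ => ?_
      rw [← Finset.mul_sum, Finset.sum_sub_distrib, h2, h2, if_congr ⟨h1 j _ _ (.inl ⟨rfl, rfl⟩),
        h1 j _ _ (.inr ⟨rfl, rfl⟩)⟩ rfl rfl, sub_self, mul_zero]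
    simp only [h, apply_ite ε, map_one, map_zero] at h3
    rw [Finset.sum_ite_eq, if_pos (Finset.mem_filter.2 ⟨Finset.mem_univ _, h0⟩)] at h3
    exact one_ne_zero h3
  have : ∀ v, ∃ j y y', (y = en j ∧ y' = st j ∨ y = st j ∧ y' = en j) ∧ (∃ g : G, y = g • pt v) ∧
      ∀ v', (∃ g : G, y' = g • pt v') → Nat.find (key v') < Nat.find (key v) := fun v => by
    have h1 := Nat.find_spec (key v)
    generalize Nat.find (key v) = k at h1 ⊢
    obtain _ | k := k
    · exact absurd h1 (R0 v)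
    · obtain ⟨j, y, y', h2, h3, h4⟩ := (R1 _ _).1 h1
      exact ⟨j, y, y', h2, h3, fun v' h5 => Nat.lt_succ_of_le (Nat.find_min' _ (h4 v' h5))⟩
  choose T hT using this
  exact ⟨T, fun v => Nat.find (key v), hT⟩

theorem tree_unit [Fintype V] {st en : V → E} {rk : V → ℕ}
    (h : ∀ v, ∃ y y', (y = en v ∧ y' = st v ∨ y = st v ∧ y' = en v) ∧ (∃ g : G, y = g • pt v) ∧
      ∀ v', (∃ g : G, y' = g • pt v') → rk v' < rk v) :
    IsUnit (Matrix.of fun v v' => dl (G := G) pt (en v) v' - dl pt (st v) v') ∧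
      (whInv G).c (Matrix.of fun v v' => dl pt (en v) v' - dl pt (st v) v') = 0 := by
  refine (whInv G).trig rk (fun v => ?_) fun v v' h1 h2 => ?_
  · obtain ⟨y, y', h1, h2, h3⟩ := h v
    have e1 : dl pt y v = .single h2.choose 1 := dif_pos h2
    have e2 : dl (G := G) pt y' v = 0 := dif_neg fun h4 => (h3 v h4).false
    refine whInv_triv h2.choose ?_
    rcases h1 with ⟨h4, h5⟩ | ⟨h4, h5⟩
    · exact .inl (by rw [of_apply, ← h4, ← h5, e1, e2, sub_zero])
    · exact .inr (by rw [of_apply, ← h4, ← h5, e1, e2, zero_sub])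
  · obtain ⟨y, y', h3, ⟨g, h4⟩, h5⟩ := h v
    refine h5 v' (by_contra fun h6 => h2 ?_)
    have e1 : dl (G := G) pt y v' = 0 :=
      dif_neg fun ⟨_, e⟩ => h1 (hp _ _ _ _ (h4.symm.trans e)).2
    have e2 : dl (G := G) pt y' v' = 0 := dif_neg h6
    rcases h3 with ⟨h7, h8⟩ | ⟨h7, h8⟩ <;> rw [of_apply, ← h7, ← h8, e1, e2, sub_zero]

end Pool.Agent.Lib.MP_2add11_gt.FG
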