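import Pool.Agent.Lib.MP_2add11_gt.FG.Real

/-!
Locally constant cocycles on simply connected spaces are coboundaries; the boundary of the square.
-/

noncomputable section

namespace Pool.Agent.Lib.MP_2add11_gt.FG

open Set Metric Topology Filter

theorem exists_triv {X A Γ : Type} [TopologicalSpace X] [SimplyConnectedSpace X]
    [LocallyPathConnectedSpace X] [Group Γ] (W : A → Set X) (ho : ∀ a, IsOpen (W a))
    (hc : ∀ x, ∃ a, x ∈ W a) (ψ : A → X → Γ)
    (h : ∀ a b, ∀ x ∈ W a, x ∈ W b → ∀ᶠ y in 𝓝 x, (ψ a y)⁻¹ * ψ b y = (ψ a x)⁻¹ * ψ b x) :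
    ∃ F : X → Γ, ∀ a, ∀ x ∈ W a, ∀ᶠ y in 𝓝 x, F y * ψ a y = F x * ψ a x := by
  let : TopologicalSpace Γ := ⊥
  have : DiscreteTopology Γ := ⟨rfl⟩
  choose i hi using hc
  let Z : FiberBundleCore A X Γ :=
    { baseSet := W
      isOpen_baseSet := ho
      indexAt := i
      mem_baseSet_at := hi
      coordChange := fun a b x v => v * ((ψ a x)⁻¹ * ψ b x)
      coordChange_self := fun a x _ v => by simp
      continuousOn_coordChange := fun a b p hp => ContinuousAt.continuousWithinAt (by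
        have h1 : ContinuousAt (fun q : X × Γ => (ψ a q.1)⁻¹ * ψ b q.1) p :=
          (continuousAt_const.congr (EventuallyEq.symm (h a b p.1 hp.1.1 hp.1.2))).comp
            continuousAt_fst
        exact (continuous_of_discreteTopology (f := fun q : Γ × Γ => q.1 * q.2)).continuousAt.comp
          (continuousAt_snd.prodMk h1))
      coordChange_comp := fun a b c x _ v => by simp [mul_assoc] }
  obtain ⟨x0⟩ : Nonempty X := inferInstance
  obtain ⟨σ, ⟨-, hσ⟩, -⟩ := (FiberBundle.isCoveringMap (F := Γ) (E := Z.Fiber)).existsUnique_continuousMap_lifts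
    (.id X) x0 ⟨x0, (1 : Γ)⟩ rfl
  have e : ∀ x, (σ x).1 = x := congrFun hσ
  refine ⟨fun x => (show Γ from (σ x).2) * (ψ (i x) x)⁻¹, fun a x hx => ?_⟩
  have h1 : ContinuousAt (fun y => (Z.localTriv a (σ y)).2) x :=
    continuousAt_snd.comp (((Z.localTriv a).continuousAt (by
      rw [Z.mem_localTriv_source, e]; exact hx)).comp σ.continuous.continuousAt)
  have h2 : ∀ y, (Z.localTriv a (σ y)).2 = (show Γ from (σ y).2) * (ψ (i y) y)⁻¹ * ψ a y :=
    fun y => by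
      rw [Z.localTriv_apply, mul_assoc]
      change _ * ((ψ (i (σ y).1) (σ y).1)⁻¹ * ψ a (σ y).1) = _
      rw [e]
  simp only [h2] at h1
  exact h1.eventually (p := fun g => g = _) ((isOpen_discrete {_}).mem_nhds rfl)

theorem ev_image {V E : Type} [TopologicalSpace V] [TopologicalSpace E] [T2Space E] {φ : V → E}
    {B : Set V} (hB : IsCompact B) (hφ : ContinuousOn φ B) {x : E} {P : V → Prop}
    (h : ∀ v ∈ B, φ v = x → ∀ᶠ w in 𝓝[B] v, P w) : ∀ᶠ y in 𝓝 x, ∀ w ∈ B, φ w = y → P w := by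
  have hK : IsCompact (B \ {v | ∀ᶠ w in 𝓝 v, w ∈ B → P w}) :=
    hB.diff isOpen_setOfPred_eventually_nhds
  filter_upwards [(hK.image_of_continuousOn (hφ.mono sdiff_subset)).isClosed.isOpen_compl.mem_nhds
    (x := x) fun ⟨v, hv, e⟩ => hv.2 (eventually_nhdsWithin_iff.1 (h v hv.1 e))] with y hy w hw e
  by_contra h'
  exact hy ⟨w, ⟨hw, fun h1 => h' (h1.self_of_nhds hw)⟩, e⟩

theorem const_of_lc {X Γ : Type} [TopologicalSpace X] {s : Set X} (hs : IsPreconnected s)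
    {f : X → Γ} (h : ∀ x ∈ s, ∀ᶠ y in 𝓝[s] x, f y = f x) {a b : X} (ha : a ∈ s) (hb : b ∈ s) :
    f a = f b := by
  let : TopologicalSpace Γ := ⊥
  have : DiscreteTopology Γ := ⟨rfl⟩
  exact hs.constant (fun x hx => continuousWithinAt_const.congr_of_eventuallyEq (h x hx) rfl) ha hb

theorem sq_cases {s : ℝ} (h : s ∈ Icc (0 : ℝ) 4) :
    (s ≤ 1 ∧ sqLoop s 0 = 2 * s - 1 ∧ sqLoop s 1 = -1) ∨
    (1 ≤ s ∧ s ≤ 2 ∧ sqLoop s 0 = 1 ∧ sqLoop s 1 = 2 * s - 3) ∨
    (2 ≤ s ∧ s ≤ 3 ∧ sqLoop s 0 = 5 - 2 * s ∧ sqLoop s 1 = 1) ∨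
    (3 ≤ s ∧ sqLoop s 0 = -1 ∧ sqLoop s 1 = 7 - 2 * s) := by
  obtain ⟨h0, h4⟩ := h
  simp only [sqLoop, Matrix.cons_val_zero, Matrix.cons_val_one]
  rcases le_total s 1 with h1 | h1
  · rw [clamp_of_mem h0 h1, clamp_of_le (show s - 2 ≤ 0 by linarith),
      clamp_of_le (show s - 1 ≤ 0 by linarith), clamp_of_le (show s - 3 ≤ 0 by linarith)]
    exact .inl ⟨h1, by ring, by ring⟩
  rcases le_total s 2 with h2 | h2
  · rw [clamp_of_ge h1, clamp_of_le (show s - 2 ≤ 0 by linarith),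
      clamp_of_mem (show 0 ≤ s - 1 by linarith) (by linarith),
      clamp_of_le (show s - 3 ≤ 0 by linarith)]
    exact .inr (.inl ⟨h1, h2, by ring, by ring⟩)
  rcases le_total s 3 with h3 | h3
  · rw [clamp_of_ge h1, clamp_of_mem (show 0 ≤ s - 2 by linarith) (by linarith),
      clamp_of_ge (show 1 ≤ s - 1 by linarith), clamp_of_le (show s - 3 ≤ 0 by linarith)]
    exact .inr (.inr (.inl ⟨h2, h3, by ring, by ring⟩))
  · rw [clamp_of_ge h1, clamp_of_ge (show 1 ≤ s - 2 by linarith),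
      clamp_of_ge (show 1 ≤ s - 1 by linarith),
      clamp_of_mem (show 0 ≤ s - 3 by linarith) (by linarith)]
    exact .inr (.inr (.inr ⟨h3, by ring, by ring⟩))

theorem sq_inj {s t : ℝ} (hs : s ∈ Icc (0 : ℝ) 4) (ht : t ∈ Icc (0 : ℝ) 4)
    (e : sqLoop s = sqLoop t) : s = t ∨ (s = 0 ∧ t = 4) ∨ (s = 4 ∧ t = 0) := by
  have e0 := congrFun e 0
  have e1 := congrFun e 1
  have := hs.1; have := hs.2; have := ht.1; have := ht.2
  rcases sq_cases hs with h | h | h | h <;> rcases sq_cases ht with k | k | k | k <;>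
    first
    | exact .inl (by linarith [h.1, h.2.1, h.2.2, k.1, k.2.1, k.2.2])
    | exact .inl (by linarith [h.1, h.2.1, h.2.2, k.1, k.2.1, k.2.2.1, k.2.2.2])
    | exact .inl (by linarith [h.1, h.2.1, h.2.2.1, h.2.2.2, k.1, k.2.1, k.2.2])
    | exact .inl (by linarith [h.1, h.2.1, h.2.2.1, h.2.2.2, k.1, k.2.1, k.2.2.1, k.2.2.2])
    | exact .inr (.inl ⟨by linarith [h.2.1, h.2.2, k.2.1, k.2.2],
        by linarith [h.2.1, h.2.2, k.2.1, k.2.2]⟩)
    | exact .inr (.inr ⟨by linarith [h.2.1, h.2.2, k.2.1, k.2.2],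
        by linarith [h.2.1, h.2.2, k.2.1, k.2.2]⟩)

theorem sq_surj {z : Fin 2 → ℝ} (hz : ‖z‖ = 1) : ∃ s ∈ Icc (0 : ℝ) 4, sqLoop s = z := by
  let z' : Sq := ⟨z, mem_closedBall_zero_iff.2 hz.le⟩
  have b0 : -1 ≤ z 0 ∧ z 0 ≤ 1 := z'.bounds 0
  have b1 : -1 ≤ z 1 ∧ z 1 ≤ 1 := z'.bounds 1
  have key : ∀ s, s ∈ Icc (0 : ℝ) 4 → (sqLoop s 0 = z 0 ∧ sqLoop s 1 = z 1) →
      ∃ s ∈ Icc (0 : ℝ) 4, sqLoop s = z := fun s hs h =>
    ⟨s, hs, funext fun i => by fin_cases i; exacts [h.1, h.2]⟩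
  rcases z'.cases with h | ⟨-, h | h | h | h⟩
  · exact absurd hz h.2.ne
  all_goals change z _ = _ at h
  · have hs : (z 0 + 1) / 2 ∈ Icc (0 : ℝ) 4 := ⟨by linarith, by linarith⟩
    refine key _ hs ?_
    rcases sq_cases hs with k | ⟨_, _, _, _⟩ | ⟨_, _, _, _⟩ | ⟨_, _, _⟩ <;>
      constructor <;> first | linarith | linarith [k.2.1, k.2.2]
  · have hs : (7 - z 1) / 2 ∈ Icc (0 : ℝ) 4 := ⟨by linarith, by linarith⟩
    refine key _ hs ?_
    rcases sq_cases hs with ⟨_, _, _⟩ | ⟨_, _, _, _⟩ | ⟨_, _, _, _⟩ | ⟨_, _, _⟩ <;>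
      constructor <;> linarith
  · have hs : (z 1 + 3) / 2 ∈ Icc (0 : ℝ) 4 := ⟨by linarith, by linarith⟩
    refine key _ hs ?_
    rcases sq_cases hs with ⟨_, _, _⟩ | ⟨_, _, _, _⟩ | ⟨_, _, _, _⟩ | ⟨_, _, _⟩ <;>
      constructor <;> linarith
  · have hs : (5 - z 0) / 2 ∈ Icc (0 : ℝ) 4 := ⟨by linarith, by linarith⟩
    refine key _ hs ?_
    rcases sq_cases hs with ⟨_, _, _⟩ | ⟨_, _, _, _⟩ | ⟨_, _, _, _⟩ | ⟨_, _, _⟩ <;>
      constructor <;> linarith

def p4 (s : ℝ) : ℝ := max 0 (min 4 s)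

theorem p4_mem (s : ℝ) : p4 s ∈ Icc (0 : ℝ) 4 :=
  ⟨le_max_left _ _, max_le (by norm_num) (min_le_left _ _)⟩

theorem sq_p4 (s : ℝ) : sqLoop (p4 s) = sqLoop s := by
  unfold p4
  rcases le_total s 0 with h | h
  · rw [max_eq_left ((min_le_right _ _).trans h)]
    simp [sqLoop, clamp_of_le, clamp_of_le h, clamp_of_le (show s - 2 ≤ 0 by linarith),
      clamp_of_le (show s - 1 ≤ 0 by linarith), clamp_of_le (show s - 3 ≤ 0 by linarith)]
  · rcases le_total s 4 with h' | h'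
    · rw [min_eq_right h', max_eq_right h]
    · rw [min_eq_left h', max_eq_right (by norm_num)]
      simp only [sqLoop]
      rw [clamp_of_ge (show 1 ≤ s by linarith), clamp_of_ge (show 1 ≤ s - 1 by linarith),
        clamp_of_ge (show 1 ≤ s - 2 by linarith), clamp_of_ge (show 1 ≤ s - 3 by linarith),
        clamp_of_ge (by norm_num), clamp_of_ge (by norm_num), clamp_of_ge (by norm_num),
        clamp_of_ge (by norm_num)]

theorem sq_norm (s : ℝ) : ‖sqLoop s‖ = 1 := by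
  rw [← sq_p4]
  refine le_antisymm (mem_closedBall_zero_iff.1 (sqLoop_mem _)) ?_
  rcases sq_cases (p4_mem s) with h | h | h | h
  · exact le_trans (by simp [h.2.2]) (norm_le_pi_norm _ 1)
  · exact le_trans (by simp [h.2.2.1]) (norm_le_pi_norm _ 0)
  · exact le_trans (by simp [h.2.2.2]) (norm_le_pi_norm _ 1)
  · exact le_trans (by simp [h.2.1]) (norm_le_pi_norm _ 0)

theorem continuous_sqLoop : Continuous sqLoop := by
  unfold sqLoop
  fun_prop

theorem sq_04 : sqLoop 0 = sqLoop 4 := by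
  simp only [sqLoop]
  rw [clamp_of_le le_rfl, clamp_of_le (by norm_num), clamp_of_le (by norm_num),
    clamp_of_le (by norm_num), clamp_of_ge (by norm_num), clamp_of_ge (by norm_num),
    clamp_of_ge (by norm_num), clamp_of_ge (by norm_num)]
  norm_num

end Pool.Agent.Lib.MP_2add11_gt.FG
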