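import Pool.Agent.Lib.MP_2add11_gt.FG.Words

/-!
Deforming the new 1-cells and 2-cells: the algebra of `π₀` and `π₁` of a topological monoid.
-/

noncomputable section

namespace Pool.Agent.Lib.MP_2add11_gt.FG

open unitInterval

variable {G ι : Type} [Group G]

theorem fox_cons [DecidableEq ι] (j : ι) (x : (G × ι) × Bool) (w : List ((G × ι) × Bool)) :
    fox j (FreeGroup.mk (x :: w)) = (if x.1.2 = j then MonoidAlgebra.single x.1.1
      (if x.2 then 1 else -1) else 0) + fox j (FreeGroup.mk w) := by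
  obtain ⟨x, _ | _⟩ := x <;> by_cases h : x.2 = j <;> simp [fox, h, MonoidAlgebra.single_neg]

theorem solve [Fintype ι] [DecidableEq ι] {P : Type} [CommGroup P] (τ : G →* Monoid.End P)
    {w : ι → List ((G × ι) × Bool)} (hu : IsUnit (jac fun i => FreeGroup.mk (w i))) (γ : ι → P) :
    ∃ α : ι → P, ∀ i,
      ((w i).map fun x => τ x.1.1 (if x.2 then α x.1.2 else (α x.1.2)⁻¹)).prod = γ i := by
  let ρ : G →* Module.End ℤ (Additive P) :=
    { toFun := fun g => (MonoidHom.toAdditive (τ g)).toIntLinearMap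
      map_one' := by rw [map_one]; rfl
      map_mul' := fun g h => by rw [map_mul]; rfl }
  let φ := MonoidAlgebra.lift ℤ (Module.End ℤ (Additive P)) G ρ
  have key : ∀ (α : ι → Additive P) (l : List ((G × ι) × Bool)), Additive.ofMul
      (l.map fun x => τ x.1.1 (if x.2 then (α x.1.2).toMul else (α x.1.2).toMul⁻¹)).prod =
      ∑ j, φ (fox j (FreeGroup.mk l)) (α j) := fun α l => by
    induction l with
    | nil => simp [fox]
    | cons x l ih =>
      simp only [List.map_cons, List.prod_cons, ofMul_mul, ih, fox_cons, map_add,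
        LinearMap.add_apply, Finset.sum_add_distrib, add_left_inj]
      rw [Finset.sum_eq_single x.1.2 (fun j _ hj => by simp [hj.symm]) (by simp)]
      obtain ⟨x, _ | _⟩ := x <;> simp [φ, ρ] <;> rfl
  obtain ⟨u, hu⟩ := hu
  refine ⟨fun j => (∑ k, φ (u⁻¹.val j k) (Additive.ofMul (γ k))).toMul, fun i =>
    Additive.ofMul.injective ((key (fun j => ∑ k, φ (u⁻¹.val j k) (Additive.ofMul (γ k)))
      (w i)).trans ?_)⟩
  have : ∀ j, fox j (FreeGroup.mk (w i)) = u.val i j := fun j => by rw [hu]; rfl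
  simp only [this, map_sum]
  rw [Finset.sum_comm]
  simp only [← Module.End.mul_apply, ← map_mul, ← LinearMap.sum_apply, ← map_sum,
    ← Matrix.mul_apply, Units.mul_inv]
  rw [Finset.sum_eq_single i (fun j _ hj => by simp [hj.symm]) (by simp)]
  simp

def rel {M : Type} [Monoid M] (t T : G → M) (a b : ι → M) (w : List ((G × ι) × Bool)) : M :=
  (w.map fun x => t x.1.1 * ((if x.2 then a x.1.2 else b x.1.2) * T x.1.1)).prod

omit [Group G] in
theorem rel_cons {M : Type} [Monoid M] (t T : G → M) (a b : ι → M) (x : (G × ι) × Bool)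
    (w : List ((G × ι) × Bool)) : rel t T a b (x :: w) =
      t x.1.1 * ((if x.2 then a x.1.2 else b x.1.2) * T x.1.1) * rel t T a b w := rfl

omit [Group G] in
theorem map_rel {M N : Type} [Monoid M] [Monoid N] (f : M →* N) (t T : G → M) (a b : ι → M)
    (w : List ((G × ι) × Bool)) : f (rel t T a b w) = rel (fun g => f (t g)) (fun g => f (T g))
      (fun i => f (a i)) (fun i => f (b i)) w := by
  induction w with
  | nil => exact map_one f
  | cons x w ih => simp only [rel_cons, map_mul, ih, apply_ite f]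

theorem two_main [Fintype ι] [DecidableEq ι] {O A : Type} [Monoid O] [Monoid A] (C : TwoMon O A)
    {t T : G → O} {c : O} {a b e d k : ι → A} {w : ι → List ((G × ι) × Bool)}
    (hu : IsUnit (jac fun i => FreeGroup.mk (w i)))
    (h1 : ∀ g, ∃ f, C.src f = t g * T g ∧ C.tgt f = 1)
    (h2 : ∀ g, ∃ f, C.src f = T g * t g ∧ C.tgt f = 1)
    (h3 : ∀ g h, ∃ f, C.src f = t g * (t h * T (g * h)) ∧ C.tgt f = 1)
    (h4 : ∃ f, C.src f = c ∧ C.tgt f = 1) (ha : ∀ i, C.tgt (a i) = c) (hb : ∀ i, C.tgt (b i) = c)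
    (he : ∀ i, C.src (e i) = rel t T (fun j => C.src (a j)) (fun j => C.src (b j)) (w i))
    (hd : ∀ i, C.src (d i) = rel t T (fun _ => c) (fun _ => c) (w i))
    (he' : ∀ i, C.tgt (e i) = C.src (k i)) (hd' : ∀ i, C.tgt (d i) = C.src (k i))
    (hk : ∀ i, C.tgt (k i) = 1) :
    ∃ α : ι → C.P, ∀ i, e i = C.comp (rel (fun g => C.idm (t g)) (fun g => C.idm (T g))
      (fun j => α j * a j) (fun j => b j * (α j)⁻¹.1) (w i)) (d i) := by
  have triv : ∀ {x : O}, (∃ f, C.src f = x ∧ C.tgt f = 1) → ∀ α β : C.P,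
      (C.idm x * α = β * C.idm x ↔ α = β) := by
    rintro _ ⟨f, rfl, h⟩ α β
    rw [← C.slide_src, C.slide_tgt, h, map_one, one_mul, mul_one, Subtype.val_inj]
  have ex : ∀ g (α : C.P), ∃ β : C.P, C.idm (t g) * α = β * C.idm (t g) := fun g α => by
    obtain ⟨f, f1, f2⟩ := h1 g
    obtain ⟨f', f3, f4⟩ := h2 g
    exact C.exists_slide f1 f2 f3 f4 α
  have ex' : ∀ g (α : C.P), ∃ β : C.P, C.idm (T g) * α = β * C.idm (T g) := fun g α => by
    obtain ⟨f, f1, f2⟩ := h1 g
    obtain ⟨f', f3, f4⟩ := h2 g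
    exact C.exists_slide f3 f4 f1 f2 α
  choose τ0 hτ0 using ex
  have uniq : ∀ g (β β' : C.P), (β : A) * C.idm (t g) = β' * C.idm (t g) → β = β' :=
    fun g β β' h => by
      obtain ⟨f, f1, f2⟩ := h1 g
      exact Subtype.ext (C.cancel_obj f1 f2 (by simp) (by simp) h)
  have hT : ∀ g (β : C.P), C.idm (T g) * τ0 g β = β * C.idm (T g) := fun g β => by
    obtain ⟨β', h⟩ := ex' g (τ0 g β)
    have : C.idm (T g * t g) * β = β' * C.idm (T g * t g) := by
      rw [map_mul, mul_assoc, hτ0, ← mul_assoc, h, mul_assoc]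
    rw [h, (triv (h2 g) _ _).1 this]
  have surj : ∀ g (α : C.P), ∃ β, τ0 g β = α := fun g α => by
    obtain ⟨β, h⟩ := ex' g α
    refine ⟨β, ((triv (h1 g) _ _).1 ?_).symm⟩
    rw [map_mul, mul_assoc, h, ← mul_assoc, hτ0, mul_assoc]
  have hm : ∀ g h (β : C.P), τ0 (g * h) β = τ0 g (τ0 h β) := fun g h β => by
    refine (triv (h3 g h) _ _).1 ?_
    rw [map_mul, map_mul, mul_assoc, mul_assoc, hT, ← mul_assoc (C.idm (t h)), hτ0, mul_assoc,
      ← mul_assoc (C.idm (t g)), hτ0, mul_assoc]
  let τ : G →* Monoid.End C.P :=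
    { toFun := fun g => MonoidHom.mk' (τ0 g) fun α β => uniq g _ _ (by
        rw [← hτ0, Submonoid.coe_mul, Submonoid.coe_mul, ← mul_assoc, hτ0, mul_assoc, hτ0,
          mul_assoc])
      map_one' := MonoidHom.ext fun α => by
        obtain ⟨β, rfl⟩ := surj 1 α
        exact (hm 1 1 β).symm.trans (by rw [one_mul]; rfl)
      map_mul' := fun g h => MonoidHom.ext (hm g h) }
  have hc : ∀ f, C.tgt f = c → ∀ α : C.P, f * α = α * f := fun f hf α => by
    rw [C.slide_tgt, hf, triv h4]
  have blk : ∀ g f, C.tgt f = c → ∀ α : C.P, C.idm (t g) * (f * C.idm (T g)) * α =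
      α * (C.idm (t g) * (f * C.idm (T g))) := fun g f hf α => by
    obtain ⟨β, rfl⟩ := surj g α
    rw [mul_assoc, mul_assoc, hT, ← mul_assoc f, hc f hf, mul_assoc, ← mul_assoc, hτ0, mul_assoc]
  have key : ∀ (α : ι → C.P) (l : List ((G × ι) × Bool)),
      rel (fun g => C.idm (t g)) (fun g => C.idm (T g)) (fun j => α j * a j)
        (fun j => b j * (α j)⁻¹.1) l =
      (l.map fun x => τ x.1.1 (if x.2 then α x.1.2 else (α x.1.2)⁻¹)).prod.1 *
        rel (fun g => C.idm (t g)) (fun g => C.idm (T g)) a b l := fun α l => by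
    induction l with
    | nil => exact (one_mul _).symm
    | cons x l ih =>
      have hX : C.idm (t x.1.1) * ((if x.2 then α x.1.2 * a x.1.2 else b x.1.2 * (α x.1.2)⁻¹.1) *
          C.idm (T x.1.1)) = (τ x.1.1 (if x.2 then α x.1.2 else (α x.1.2)⁻¹)).1 *
          (C.idm (t x.1.1) * ((if x.2 then a x.1.2 else b x.1.2) * C.idm (T x.1.1))) := by
        refine Eq.trans ?_ ((congrArg (· * _) (hτ0 _ _)).trans (mul_assoc _ _ _))
        split_ifs
        · simp only [mul_assoc]
        · simp only [hc _ (hb _), mul_assoc]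
      rw [rel_cons, rel_cons, ih, List.map_cons, List.prod_cons, Submonoid.coe_mul, hX, mul_assoc,
        ← mul_assoc _ (List.prod _ : C.P).1, blk _ _ (by split_ifs; exacts [ha _, hb _]),
        mul_assoc, mul_assoc (τ _ _).1]
  have e1 : ∀ i, C.tgt (rel (fun g => C.idm (t g)) (fun g => C.idm (T g)) a b (w i)) =
      C.src (d i) := fun i => by simp [hd, map_rel, ha, hb]
  have := fun i => C.parallel (f := e i)
    (g := C.comp (rel (fun g => C.idm (t g)) (fun g => C.idm (T g)) a b (w i)) (d i)) (k := k i)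
    (by rw [C.src_comp _ _ (e1 i), he]; simp [map_rel]) (he' i)
    (by rw [C.tgt_comp _ _ (e1 i), hd']) (hk i)
  choose γ hγ using this
  obtain ⟨α, hα⟩ := solve τ hu γ
  exact ⟨α, fun i => by rw [key, hα, C.P_mul_comp _ (e1 i), ← hγ]⟩

variable {M : Type} [Monoid M] [TopologicalSpace M] [ContinuousMul M]

theorem joined_of_ns {t T : G → M} {y Y : ι → M} {w : ι → List ((G × ι) × Bool)}
    (hw : NS fun i => FreeGroup.mk (w i))
    (h1 : ∀ g, Joined (t g * T g) 1) (h2 : ∀ g, Joined (T g * t g) 1)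
    (h3 : ∀ i, Joined (y i * Y i) 1) (h4 : ∀ i, Joined (Y i * y i) 1)
    (h5 : ∀ g h, Joined (t g * (t h * T (g * h))) 1) (hr : ∀ i, Joined (rel t T y Y (w i)) 1)
    (i : ι) : Joined (y i) 1 := by
  let q := (jcon M).mk'
  have e : ∀ {a b : M}, Joined a b → q a = q b := fun h => (jcon M).eq.2 h
  let u : G → (jcon M).Quotientˣ := fun g =>
    ⟨q (t g), q (T g), by simpa using e (h1 g), by simpa using e (h2 g)⟩
  let v : ι → (jcon M).Quotientˣ := fun i =>
    ⟨q (y i), q (Y i), by simpa using e (h3 i), by simpa using e (h4 i)⟩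
  have hu : ∀ g h, u (g * h) = u g * u h := fun g h => by
    rw [eq_comm, ← mul_inv_eq_one, mul_assoc]
    have := e (h5 g h)
    rw [map_mul, map_mul, map_one] at this
    exact Units.ext this
  have key : ∀ g l, (FreeGroup.lift (fun x : G × ι => u (g * x.1) * v x.2 * (u (g * x.1))⁻¹)
      (FreeGroup.mk l)).val = (u g).val * q (rel t T y Y l) * (u g)⁻¹.val := fun g l => by
    induction l with
    | nil => simp [rel]
    | cons x l ih =>
      rw [FreeGroup.lift_mk] at ih ⊢
      rw [List.map_cons, List.prod_cons, Units.val_mul, ih, rel_cons, hu]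
      have a1 : q (t x.1.1) = (u x.1.1).val := rfl
      have a2 : q (T x.1.1) = (u x.1.1)⁻¹.val := rfl
      have a3 : q (y x.1.2) = (v x.1.2).val := rfl
      have a4 : q (Y x.1.2) = (v x.1.2)⁻¹.val := rfl
      obtain ⟨x, _ | _⟩ := x <;> simp [a1, a2, a3, a4, mul_assoc]
  have := hw _ (fun x => u x.1 * v x.2 * (u x.1)⁻¹) (fun g i => Units.ext (by
    rw [key, e (hr i)]; simp)) (1, i)
  rw [mul_inv_eq_one, mul_eq_left] at this
  exact (jcon M).eq.1 (congrArg Units.val this)

omit [Group G] in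
theorem continuous_rel {Z : Type} [TopologicalSpace Z] (t T : G → M) {a b : ι → Z → M}
    (ha : ∀ i, Continuous (a i)) (hb : ∀ i, Continuous (b i)) (w : List ((G × ι) × Bool)) :
    Continuous fun z => rel t T (fun i => a i z) (fun i => b i z) w := by
  induction w with
  | nil => exact continuous_const
  | cons x w ih =>
    refine Continuous.mul (continuous_const.mul (Continuous.mul ?_ continuous_const)) ih
    split_ifs
    exacts [ha _, hb _]

def relPath (rev : C(M, M)) (t : G → M) {y : ι → M} {c : M} (hc : rev c = c)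
    (A : ∀ i, Path (y i) c) (w : List ((G × ι) × Bool)) :
    Path (rel t (fun g => rev (t g)) y (fun i => rev (y i)) w)
      (rel t (fun g => rev (t g)) (fun _ => c) (fun _ => c) w) where
  toFun s := rel t (fun g => rev (t g)) (fun i => A i s) (fun i => rev (A i s)) w
  continuous_toFun := continuous_rel _ _ (fun i => (A i).continuous)
    (fun i => rev.continuous.comp (A i).continuous) w
  source' := by simp
  target' := by simp [hc]

theorem top_main [Fintype ι] [DecidableEq ι] (rev : C(M, M))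
    (rev_mul : ∀ a b, rev (a * b) = rev b * rev a)
    (rev_rev : ∀ a, rev (rev a) = a) (η : C(M × I, M)) (η0 : ∀ a, η (a, 0) = a * rev a)
    (η1 : ∀ a, η (a, 1) = 1) (η2 : ∀ s, η (1, s) = 1) {t : G → M} {y z : ι → M} {c : M}
    {w : ι → List ((G × ι) × Bool)} (hu : IsUnit (jac fun i => FreeGroup.mk (w i)))
    (h5 : ∀ g h, Joined (t g * (t h * rev (t (g * h)))) 1) (hc : rev c = c) (hc' : Joined c 1)
    (e : ∀ i, Path (rel t (fun g => rev (t g)) y (fun i => rev (y i)) (w i)) (z i))
    (d : ∀ i, Path (rel t (fun g => rev (t g)) (fun _ => c) (fun _ => c) (w i)) (z i))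
    (k : ∀ i, Path (z i) 1) (A : ∀ i, Path (y i) c) :
    ∃ B : ∀ i, Path (y i) c, (∀ i s, ∃ a, B i s = a * A i s) ∧
      ∀ i, (e i).Homotopic ((relPath rev t hc B (w i)).trans (d i)) := by
  let ep : ∀ a : M, Path (a * rev a) 1 := fun a =>
    ⟨⟨fun s => η (a, s), by fun_prop⟩, η0 a, η1 a⟩
  have jn : ∀ {x : M}, Joined x 1 → ∃ f, (twoMon M).src f = x ∧ (twoMon M).tgt f = 1 :=
    fun ⟨p⟩ => ⟨J p, msrc_J _, mtgt_J _⟩
  obtain ⟨α, h⟩ := two_main (twoMon M) (t := t) (T := fun g => rev (t g)) (c := c)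
    (a := fun i => J (A i)) (b := fun i => J ((A i).map rev.continuous)) (e := fun i => J (e i))
    (d := fun i => J (d i)) (k := fun i => J (k i)) hu (fun g => jn ⟨ep _⟩)
    (fun g => jn ⟨(ep (rev (t g))).cast (by rw [rev_rev]) rfl⟩) (fun g h => jn (h5 g h)) (jn hc')
    (fun i => mtgt_J _) (fun i => (mtgt_J _).trans hc)
    (fun i => (msrc_J _).trans (by
      congr 1 <;> funext j
      exacts [(msrc_J (A j)).symm, (msrc_J ((A j).map _)).symm]))
    (fun i => msrc_J _) (fun i => (mtgt_J _).trans (msrc_J _).symm)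
    (fun i => (mtgt_J _).trans (msrc_J _).symm) fun i => mtgt_J _
  have : ∀ i, ∃ p : Path (1 : M) 1, (α i).1 = J p := fun i => by
    obtain ⟨a, b, p, hp⟩ := exists_J (α i).1
    obtain rfl : a = 1 := (msrc_J p).symm.trans (hp ▸ (α i).2.1)
    obtain rfl : b = 1 := (mtgt_J p).symm.trans (hp ▸ (α i).2.2)
    exact ⟨p, hp⟩
  choose p hp using this
  have r1 : rev 1 = 1 := by
    have := rev_mul 1 (rev 1)
    rw [one_mul, rev_rev, one_mul] at this
    exact this.symm
  have hinv : ∀ i, (α i)⁻¹.1 = J ((p i).map rev.continuous) := fun i => by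
    refine congrArg Subtype.val (inv_eq_of_mul_eq_one_right (a := α i)
      (b := ⟨J ((p i).map rev.continuous), (msrc_J _).trans r1, (mtgt_J _).trans r1⟩)
      (Subtype.ext ?_))
    rw [Submonoid.coe_mul, hp]
    change J ((p i).mul ((p i).map rev.continuous)) = J (Path.refl 1)
    refine (pcon M).eq.2 ⟨⟨⟨⟨fun x => η (p i x.2, x.1), by fun_prop⟩, fun x => η0 _,
      fun x => η1 _⟩, ?_⟩⟩
    intro s x hx
    change η (p i x, s) = p i x * rev (p i x)
    have : p i x = 1 := by rcases hx with rfl | rfl <;> simp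
    rw [this, η2, r1, one_mul]
  refine ⟨fun i => ((p i).mul (A i)).cast (one_mul _).symm (one_mul _).symm,
    fun i s => ⟨p i s, rfl⟩, fun i => J_eq.1 ?_⟩
  rw [← mcomp_J]
  refine (h i).trans (congrArg (fun z => mcomp z (J (d i))) ?_)
  simp only [hp, hinv]
  refine ((map_rel (pcon M).mk' (fun g => (Path.refl (t g)).toContinuousMap)
    (fun g => (Path.refl (rev (t g))).toContinuousMap)
    (fun j => ((p j).mul (A j)).toContinuousMap)
    (fun j => (((A j).map rev.continuous).mul ((p j).map rev.continuous)).toContinuousMap)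
    (w i)).symm).trans (congrArg _ (ContinuousMap.ext fun s => ?_))
  refine (map_rel (M := C(I, M)) (evalHom s) _ _ _ _ _).trans ?_
  change rel t (fun g => rev (t g)) (fun j => p j s * A j s) (fun j => rev (A j s) * rev (p j s))
    (w i) = rel t (fun g => rev (t g)) (fun j => p j s * A j s) (fun j => rev (p j s * A j s)) (w i)
  simp only [rev_mul]

end Pool.Agent.Lib.MP_2add11_gt.FG
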