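import Pool.Agent.Lib.MP_2add11_gt.FG.Artin

/-!
The algebraic model: systems of relators whose translates kill all generators.
-/

noncomputable section

namespace Pool.Agent.Lib.MP_2add11_gt.FG

open Matrix MonoidAlgebra Subgroup

variable {G C W ι ι' : Type} [Group G] [Group C] [AddCommGroup W]

def NS {κ : Type} (r : κ → FreeGroup (G × ι)) : Prop :=
  ∀ (Γ : Type) [Group Γ] (γ : G × ι → Γ),
    (∀ g i, FreeGroup.lift (fun x : G × ι => γ (g * x.1, x.2)) (r i) = 1) → ∀ x, γ x = 1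

def fox [DecidableEq ι] (j : ι) (w : FreeGroup (G × ι)) : MonoidAlgebra ℤ G :=
  (FreeGroup.lift (fun x : G × ι => Multiplicative.ofAdd
    (if x.2 = j then MonoidAlgebra.single x.1 (1 : ℤ) else 0)) w).toAdd

def jac [DecidableEq ι] {κ : Type} (r : κ → FreeGroup (G × ι)) : Matrix κ ι (MonoidAlgebra ℤ G) :=
  .of fun i j => fox j (r i)

theorem lift_map {α β Γ : Type} [Group Γ] (f : α → β) (γ : β → Γ) (w : FreeGroup α) :
    FreeGroup.lift γ (FreeGroup.map f w) = FreeGroup.lift (fun x => γ (f x)) w := by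
  rw [← MonoidHom.comp_apply]
  congr 1
  ext; simp

theorem lift_one {α Γ : Type} [Group Γ] (w : FreeGroup α) :
    FreeGroup.lift (fun _ => (1 : Γ)) w = 1 := by
  rw [show FreeGroup.lift (fun _ : α => (1 : Γ)) = 1 by ext; simp]
  rfl

theorem fox_map [DecidableEq ι] [DecidableEq ι'] (f : G × ι → C × ι')
    (φ : MonoidAlgebra ℤ G →+ MonoidAlgebra ℤ C) (j : ι) (j' : ι')
    (h : ∀ x, (if (f x).2 = j' then MonoidAlgebra.single (f x).1 (1 : ℤ) else 0) =
      φ (if x.2 = j then MonoidAlgebra.single x.1 1 else 0)) (w : FreeGroup (G × ι)) :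
    fox j' (FreeGroup.map f w) = φ (fox j w) := by
  rw [fox, lift_map]
  change _ = (AddMonoidHom.toMultiplicative φ (FreeGroup.lift _ w)).toAdd
  rw [← MonoidHom.comp_apply]
  congr 2
  ext; simp [h]

theorem fox_map_zero [DecidableEq ι'] (f : G × ι → C × ι') (j' : ι') (h : ∀ x, (f x).2 ≠ j')
    (w : FreeGroup (G × ι)) : fox j' (FreeGroup.map f w) = 0 := by
  rw [fox, lift_map]
  simp [h, lift_one]

def Alg (c : Inv (MonoidAlgebra ℤ G) W) : AddSubmonoid W where
  carrier := {x | ∃ (ι : Type) (_ : Fintype ι) (_ : DecidableEq ι) (r : ι → FreeGroup (G × ι)),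
    NS r ∧ IsUnit (jac r) ∧ x = c.c (jac r)}
  zero_mem' := ⟨Empty, inferInstance, inferInstance, Empty.elim, fun _ _ _ _ x => x.2.elim,
    isUnit_of_subsingleton _, by rw [Subsingleton.elim (jac _) 1, c.one]⟩
  add_mem' := by
    rintro _ _ ⟨ι, _, _, r, h1, h2, rfl⟩ ⟨ι', _, _, r', h1', h2', rfl⟩
    let s : ι ⊕ ι' → FreeGroup (G × (ι ⊕ ι')) := Sum.elim
      (fun i => FreeGroup.map (fun x => (x.1, .inl x.2)) (r i))
      fun i => FreeGroup.map (fun x => (x.1, .inr x.2)) (r' i)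
    have e : jac s = fromBlocks (jac r) 0 0 (jac r') := by
      ext1 (i | i) (j | j)
      · exact fox_map _ (.id _) j _ (by simp) _
      · exact fox_map_zero _ _ (by simp) _
      · exact fox_map_zero _ _ (by simp) _
      · exact fox_map _ (.id _) j _ (by simp) _
    refine ⟨ι ⊕ ι', inferInstance, inferInstance, s, fun Γ _ γ h => ?_, e ▸ isUnit_blocks h2 h2',
      by rw [e, c.blocks h2 h2']⟩
    rintro ⟨g, i | i⟩
    · exact h1 Γ (fun x => γ (x.1, .inl x.2)) (fun g i => by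
        simpa only [s, Sum.elim_inl, lift_map] using h g (.inl i)) (g, i)
    · exact h1' Γ (fun x => γ (x.1, .inr x.2)) (fun g i => by
        simpa only [s, Sum.elim_inr, lift_map] using h g (.inr i)) (g, i)

theorem Alg.push (c : Inv (MonoidAlgebra ℤ G) W) (f : C →* G) :
    Alg (c.pull (mapDomainRingHom ℤ f)) ≤ Alg c := by
  rintro _ ⟨ι, _, _, r, h1, h2, rfl⟩
  have e : jac (fun i => FreeGroup.map (fun x => (f x.1, x.2)) (r i)) =
      (jac r).map (mapDomainRingHom ℤ f) := by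
    ext1 i j
    exact fox_map _ (mapDomainRingHom ℤ f).toAddMonoidHom j j (fun x => by
      split_ifs <;> simp) _
  refine ⟨ι, _, _, _, fun Γ _ γ h x => ?_, by rw [e]; exact h2.map (mapDomainRingHom ℤ f).mapMatrix,
    congrArg c.c e.symm⟩
  have := h1 Γ (fun y => γ (x.1 * f y.1, y.2)) (fun g i => by
    have := h (x.1 * f g) i
    rw [lift_map] at this
    simpa only [map_mul, mul_assoc] using this) (1, x.2)
  simpa using this

theorem Alg.res (c : Inv (MonoidAlgebra ℤ C) W) (T : Tr C G) : Alg (c.comap T.res) ≤ Alg c := by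
  rintro _ ⟨ι, _, _, r, h1, h2, rfl⟩
  let s : ι × T.κ → FreeGroup (C × (ι × T.κ)) := fun p => FreeGroup.map
    (fun x => ((T.e (T.t p.2 * x.1)).1, x.2, (T.e (T.t p.2 * x.1)).2)) (r p.1)
  have e : jac s = comp _ _ _ _ _ ((jac r).map T.res) := by
    ext1 ⟨i, k⟩ ⟨j, l⟩
    exact fox_map _ ((entryAddMonoidHom _ k l).comp T.res.toAddMonoidHom) j (j, l) (fun x => by
      by_cases h : x.2 = j <;> simp [h, T.res_single]) _
  refine ⟨ι × T.κ, inferInstance, inferInstance, s, fun Γ _ γ h x => ?_, e ▸ isUnit_cm _ h2,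
    congrArg c.c e.symm⟩
  have := h1 Γ (fun y => γ ((T.e y.1).1, y.2, (T.e y.1).2)) (fun g i => by
    have := h (T.e g).1 (i, (T.e g).2)
    rw [lift_map] at this
    rw [← this]
    congr 2
    funext y
    have : T.e (g * y.1) = ((T.e g).1 * (T.e (T.t (T.e g).2 * y.1)).1,
        (T.e (T.t (T.e g).2 * y.1)).2) := by
      rw [← Equiv.eq_symm_apply, T.he, map_mul, mul_assoc, T.spec, ← mul_assoc, T.spec]
    simp only [this]) (T.e.symm (x.1, x.2.2), x.2.1)
  simpa using this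

theorem neg_mem_of {M : AddSubmonoid W} {x : W} {k : ℕ} (hk : 0 < k) (hx : x ∈ M)
    (h : -(k • x) ∈ M) : -x ∈ M := by
  obtain ⟨k, rfl⟩ := Nat.exists_eq_add_one_of_ne_zero hk.ne'
  have := M.add_mem h (M.nsmul_mem hx k)
  rwa [succ_nsmul, neg_add, add_right_comm, neg_add_cancel, zero_add] at this

theorem Alg.neg_comm {C : Type} [CommGroup C] [Finite C] (c : Inv (MonoidAlgebra ℤ C) W) {x : W}
    (hx : x ∈ Alg c) : -x ∈ Alg c := by
  classical
  have := Fintype.ofFinite (MulAut C)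
  obtain ⟨ι, _, _, r, h1, h2, rfl⟩ := id hx
  obtain ⟨k, hk, h⟩ := isOfFinAddOrder_iff_nsmul_eq_zero.1 (norm_tors c h2)
  rw [← Finset.add_sum_erase _ _ (Finset.mem_univ 1), nsmul_add, add_eq_zero_iff_neg_eq] at h
  have e : (jac r).map (sg 1) = jac r := by
    ext1 i j
    exact congrArg (fun f : _ →+* _ => f (jac r i j)) (mapDomainRingHom_id (R := ℤ) (M := C))
  rw [e] at h
  refine neg_mem_of hk hx (h ▸ (Alg c).nsmul_mem (sum_mem fun σ _ => ?_) k)
  exact Alg.push c σ.toMonoidHom ⟨ι, _, _, r, h1, h2, rfl⟩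

theorem Alg.neg [Finite G] (c : Inv (MonoidAlgebra ℤ G) W) {x : W} (hx : x ∈ Alg c) :
    -x ∈ Alg c := by
  obtain ⟨ι, _, _, r, h1, h2, rfl⟩ := id hx
  let U : AddSubgroup W :=
    { carrier := {y | y ∈ Alg c ∧ -y ∈ Alg c}
      zero_mem' := ⟨zero_mem _, by simp⟩
      add_mem' := fun ha hb => ⟨add_mem ha.1 hb.1, by rw [neg_add]; exact add_mem ha.2 hb.2⟩
      neg_mem' := fun ha => ⟨ha.2, by simpa using ha.1⟩ }
  obtain ⟨k, hk, h⟩ := artin c h2 U fun h T => by
    have h3 := Alg.res (c.pull (mapDomainRingHom ℤ T.i)) T ⟨ι, _, _, r, h1, h2, rfl⟩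
    exact ⟨Alg.push c T.i h3, Alg.push c T.i
      (@Alg.neg_comm W _ (zpowers h) IsCyclic.commGroup _ _ _ h3)⟩
  exact neg_mem_of hk hx h.2

end Pool.Agent.Lib.MP_2add11_gt.FG
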